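import Pool.Agent.Helper21.CC.Base

/-!
# Project CC, module A1: trace of an operator permuting the summands of a direct sum
-/

namespace SB

universe u v

variable {Γ : Type u} [Group Γ] {V : Type v} [AddCommGroup V] [Module ℂ V]

/-- CC-A1. The trace of an operator permuting the summands of a direct sum. -/
theorem block_trace [FiniteDimensional ℂ V] {ι : Type*} [Finite ι] (ρ : Γ →* (V →ₗ[ℂ] V)) (σ : Γ →* Equiv.Perm ι)
    (X : ι → Submodule ℂ V) (hind : iSupIndep X) (hsup : ⨆ i, X i = ⊤)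
    (hX : ∀ g i, ∀ v ∈ X i, ρ g v ∈ X (σ g i)) (g : Γ) :
    LinearMap.trace ℂ V (ρ g) = ∑ᶠ i, trx ρ (Stz σ i) (X i) g := by
  classical
  haveI : Fintype ι := Fintype.ofFinite ι
  have hint : DirectSum.IsInternal X :=
    (DirectSum.isInternal_submodule_iff_iSupIndep_and_iSup_eq_top X).2 ⟨hind, hsup⟩
  let b := fun i => Module.finBasis ℂ (X i)
  let B := hint.collectedBasis b
  rw [finsum_eq_sum_of_fintype, LinearMap.trace_eq_matrix_trace ℂ B (ρ g), Matrix.trace,
    Fintype.sum_sigma]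
  refine Finset.sum_congr rfl fun i _ => ?_
  have hBi : ∀ k, B ⟨i, k⟩ = (b i k : V) := fun k => by
    simp only [B, DirectSum.IsInternal.collectedBasis_coe]
  by_cases hi : σ g i = i
  · have hst : ∀ v ∈ X i, ρ g v ∈ X i := fun v hv => by
      have := hX g i v hv
      rwa [hi] at this
    have e1 : trx ρ (Stz σ i) (X i) g = LinearMap.trace ℂ (X i) ((ρ g).restrict hst) := by
      unfold trx
      rw [dif_pos ⟨hi, hst⟩]
    rw [e1, LinearMap.trace_eq_matrix_trace ℂ (b i) ((ρ g).restrict hst), Matrix.trace]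
    refine Finset.sum_congr rfl fun k _ => ?_
    rw [Matrix.diag_apply, Matrix.diag_apply, LinearMap.toMatrix_apply, LinearMap.toMatrix_apply,
      hBi k]
    exact hint.collectedBasis_repr_of_mem b (hst _ (b i k).2)
  · have e1 : trx ρ (Stz σ i) (X i) g = 0 := by
      unfold trx
      rw [dif_neg fun h => hi h.1]
    rw [e1]
    refine Finset.sum_eq_zero fun k _ => ?_
    rw [Matrix.diag_apply, LinearMap.toMatrix_apply, hBi k]
    exact hint.collectedBasis_repr_of_mem_ne b hi (hX g i _ (b i k).2)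

/-- CC-A2. -/
theorem trx_conj [FiniteDimensional ℂ V] {ι : Type*} (ρ : Γ →* (V →ₗ[ℂ] V)) (σ : Γ →* Equiv.Perm ι)
    (X : ι → Submodule ℂ V) (hX : ∀ g i, ∀ v ∈ X i, ρ g v ∈ X (σ g i)) (h g : Γ) (i : ι) :
    trx ρ (Stz σ (σ h i)) (X (σ h i)) g = trx ρ (Stz σ i) (X i) (h⁻¹ * g * h) := by
  have hfix : σ g (σ h i) = σ h i ↔ σ (h⁻¹ * g * h) i = i := by
    rw [map_mul, map_mul, map_inv, Equiv.Perm.mul_apply, Equiv.Perm.mul_apply,
      Equiv.Perm.inv_eq_iff_eq]
  by_cases hg : σ g (σ h i) = σ h i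
  · have hg' : σ (h⁻¹ * g * h) i = i := hfix.1 hg
    have st1 : ∀ v ∈ X (σ h i), ρ g v ∈ X (σ h i) := fun v hv => by
      have := hX g (σ h i) v hv
      rwa [hg] at this
    have st2 : ∀ v ∈ X i, ρ (h⁻¹ * g * h) v ∈ X i := fun v hv => by
      have := hX (h⁻¹ * g * h) i v hv
      rwa [hg'] at this
    have e1 : trx ρ (Stz σ (σ h i)) (X (σ h i)) g =
        LinearMap.trace ℂ (X (σ h i)) ((ρ g).restrict st1) := by
      unfold trx
      rw [dif_pos ⟨hg, st1⟩]
    have e2 : trx ρ (Stz σ i) (X i) (h⁻¹ * g * h) =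
        LinearMap.trace ℂ (X i) ((ρ (h⁻¹ * g * h)).restrict st2) := by
      unfold trx
      rw [dif_pos ⟨hg', st2⟩]
    rw [e1, e2]
    have m1 : ∀ v ∈ X i, ρ h v ∈ X (σ h i) := fun v hv => hX h i v hv
    have m2 : ∀ v ∈ X (σ h i), ρ h⁻¹ v ∈ X i := fun v hv => by
      have := hX h⁻¹ (σ h i) v hv
      have e : σ h⁻¹ (σ h i) = i := by
        rw [← Equiv.Perm.mul_apply, ← map_mul, inv_mul_cancel, map_one, Equiv.Perm.one_apply]
      rwa [e] at this
    have r1 : ∀ v, ρ h⁻¹ (ρ h v) = v := fun v => by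
      rw [← Module.End.mul_apply, ← map_mul, inv_mul_cancel, map_one, Module.End.one_apply]
    have r2 : ∀ v, ρ h (ρ h⁻¹ v) = v := fun v => by
      rw [← Module.End.mul_apply, ← map_mul, mul_inv_cancel, map_one, Module.End.one_apply]
    let e : X i ≃ₗ[ℂ] X (σ h i) := LinearEquiv.ofLinearMap ((ρ h).restrict m1) ((ρ h⁻¹).restrict m2)
      (LinearMap.ext fun v => Subtype.ext (r2 v)) (LinearMap.ext fun v => Subtype.ext (r1 v))
    rw [← LinearMap.trace_conj' ((ρ (h⁻¹ * g * h)).restrict st2) e]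
    congr 1
    refine LinearMap.ext fun v => Subtype.ext ?_
    show ρ g v = ρ h (ρ (h⁻¹ * g * h) (ρ h⁻¹ v))
    rw [← Module.End.mul_apply, ← Module.End.mul_apply, ← map_mul, ← map_mul]
    congr 2
    group
  · have hg' : ¬ σ (h⁻¹ * g * h) i = i := fun H => hg (hfix.2 H)
    have e1 : trx ρ (Stz σ (σ h i)) (X (σ h i)) g = 0 := by
      unfold trx
      rw [dif_neg fun H => hg H.1]
    have e2 : trx ρ (Stz σ i) (X i) (h⁻¹ * g * h) = 0 := by
      unfold trx
      rw [dif_neg fun H => hg' H.1]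
    rw [e1, e2]

end SB
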