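import Pool.Agent.Helper21.CC.Base

/-!
# CC-A3: a sum over a finite set with a group action is a sum of induced functions over the orbits
-/

namespace SB

universe u v

variable {Γ : Type u} [Group Γ]

/-- CC-A3. A sum over a finite set with group action is a sum of induced functions over the orbits. -/
theorem orbit_ind {ι : Type*} [Finite ι] (σ : Γ →* Equiv.Perm ι) (f : ι → Γ → ℂ)
    (hf : ∀ h g i, f (σ h i) g = f i (h⁻¹ * g * h)) {m : ℕ} (r : Fin m → ι) (hr : ∀ x, ∃! j, ∃ g, σ g (r j) = x)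
    (g : Γ) : ∑ᶠ i, f i g = ∑ j, Ind (Stz σ (r j)) (f (r j)) g := by
  classical
  have key : ∀ (j : Fin m) (q q' : Γ ⧸ Stz σ (r j)), σ q.out (r j) = σ q'.out (r j) → q = q' := by
    intro j q q' h
    rw [← QuotientGroup.out_eq' q, ← QuotientGroup.out_eq' q', QuotientGroup.eq]
    rw [mem_Stz, map_mul, Equiv.Perm.mul_apply, ← h, map_inv, Equiv.Perm.inv_eq_iff_eq]
  have hfin : ∀ j, Finite (Γ ⧸ Stz σ (r j)) := fun j =>
    Finite.of_injective (fun q : Γ ⧸ Stz σ (r j) => σ q.out (r j)) fun q q' h => key j q q' h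
  have hF : Function.Bijective (fun p : Σ j : Fin m, Γ ⧸ Stz σ (r j) => σ p.2.out (r p.1)) := by
    constructor
    · rintro ⟨j, q⟩ ⟨j', q'⟩ h
      have h' : σ q.out (r j) = σ q'.out (r j') := h
      have hj : j = j' := (hr (σ q'.out (r j'))).unique ⟨_, h'⟩ ⟨_, rfl⟩
      subst hj
      rw [key j q q' h']
    · intro x
      obtain ⟨j, ⟨h, hh⟩, -⟩ := hr x
      refine ⟨⟨j, (h : Γ ⧸ Stz σ (r j))⟩, ?_⟩
      obtain ⟨s, hs⟩ := QuotientGroup.mk_out_eq_mul (Stz σ (r j)) h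
      change σ ((h : Γ ⧸ Stz σ (r j))).out (r j) = x
      rw [hs, map_mul, Equiv.Perm.mul_apply, mem_Stz.1 s.2, hh]
  have h1 : ∑ᶠ i, f i g = ∑ᶠ p : Σ j : Fin m, Γ ⧸ Stz σ (r j), f (σ p.2.out (r p.1)) g :=
    (finsum_eq_of_bijective _ hF fun _ => rfl).symm
  rw [h1]
  have : ∀ j, Fintype (Γ ⧸ Stz σ (r j)) := fun j => Fintype.ofFinite _
  rw [finsum_eq_sum_of_fintype, Fintype.sum_sigma]
  refine Finset.sum_congr rfl fun j _ => ?_
  unfold Ind
  rw [finsum_eq_sum_of_fintype]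
  exact Finset.sum_congr rfl fun q _ => hf _ _ _

end SB
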