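import Pool.Agent.Helper21.CT.B2
import Pool.Agent.Helper21.CT.B4

/-!
# Project CC: representations with commuting complex conjugations, definitions
-/

namespace SB

universe u v

section
variable {Γ : Type u} [Group Γ] {V : Type v} [AddCommGroup V] [Module ℂ V]

open Classical in
/-- Extension by zero of a function on a subgroup. -/
noncomputable def exz (U : Subgroup Γ) (f : U → ℂ) : Γ → ℂ := fun g => if h : g ∈ U then f ⟨g, h⟩ else 0

/-- `X` is stable under the elements of `U`. -/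
def Stb (ρ : Γ →* (V →ₗ[ℂ] V)) (U : Subgroup Γ) (X : Submodule ℂ V) : Prop := ∀ u ∈ U, ∀ v ∈ X, ρ u v ∈ X

/-- The representation of `U` on the stable subspace `X`. -/
noncomputable def resRep (ρ : Γ →* (V →ₗ[ℂ] V)) (U : Subgroup Γ) (X : Submodule ℂ V) (h : Stb ρ U X) :
    U →* (X →ₗ[ℂ] X) where
  toFun u := (ρ u).restrict (h u u.2)
  map_one' := by
    ext v
    simp only [LinearMap.coe_restrict_apply, OneMemClass.coe_one, map_one]
    rfl
  map_mul' a b := by
    ext v
    simp only [LinearMap.coe_restrict_apply, Subgroup.coe_mul, map_mul]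
    rfl

open Classical in
/-- The trace of `ρ g` on `X`, for `g ∈ U` with `ρ g X ⊆ X`, extended by zero. -/
noncomputable def trx (ρ : Γ →* (V →ₗ[ℂ] V)) (U : Subgroup Γ) (X : Submodule ℂ V) : Γ → ℂ :=
  fun g => if h : g ∈ U ∧ ∀ v ∈ X, ρ g v ∈ X then LinearMap.trace ℂ X ((ρ g).restrict h.2) else 0

/-- The weight space: vectors on which `C` acts by the character `ε`. -/
def Wt (ρ : Γ →* (V →ₗ[ℂ] V)) (C : Subgroup Γ) (ε : C →* ℂˣ) : Submodule ℂ V where
  carrier := {v | ∀ c : C, ρ c v = ((ε c : ℂˣ) : ℂ) • v}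
  add_mem' := by
    intro a b ha hb c
    rw [map_add, ha c, hb c, smul_add]
  zero_mem' := by
    intro c
    rw [map_zero, smul_zero]
  smul_mem' := by
    intro a v hv c
    rw [map_smul, hv c, smul_comm]

theorem mem_Wt {ρ : Γ →* (V →ₗ[ℂ] V)} {C : Subgroup Γ} {ε : C →* ℂˣ} {v : V} :
    v ∈ Wt ρ C ε ↔ ∀ c : C, ρ c v = ((ε c : ℂˣ) : ℂ) • v := Iff.rfl

/-- The stabilizer of a point for a permutation action given by a homomorphism. -/
def Stz {ι : Type*} (σ : Γ →* Equiv.Perm ι) (i : ι) : Subgroup Γ where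
  carrier := {g | σ g i = i}
  mul_mem' := by
    intro a b ha hb
    rw [Set.mem_ofPred_eq] at ha hb ⊢
    rw [map_mul, Equiv.Perm.mul_apply, hb, ha]
  one_mem' := by
    rw [Set.mem_ofPred_eq, map_one, Equiv.Perm.one_apply]
  inv_mem' := by
    intro a ha
    rw [Set.mem_ofPred_eq] at ha ⊢
    rw [map_inv, Equiv.Perm.inv_eq_iff_eq, ha]

/-- The conjugate character `c ↦ ε (g⁻¹ c g)` of a normal subgroup. -/
def cjh {C : Subgroup Γ} (hC : C.Normal) (g : Γ) (ε : C →* ℂˣ) : C →* ℂˣ where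
  toFun c := ε ⟨g⁻¹ * c * g, by have := hC.conj_mem c c.2 g⁻¹; rwa [inv_inv] at this⟩
  map_one' := by
    rw [← map_one ε]
    congr 1
    apply Subtype.ext
    simp
  map_mul' a b := by
    rw [← map_mul]
    congr 1
    apply Subtype.ext
    simp [mul_assoc]

theorem mem_Stz {ι : Type*} {σ : Γ →* Equiv.Perm ι} {i : ι} {g : Γ} : g ∈ Stz σ i ↔ σ g i = i := Iff.rfl

end

end SB
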