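import Pool.Agent.Helper21.CC.Base

/-! Project CC, module C1: simultaneous diagonalization of commuting operators of finite order. -/

namespace SB

universe u v

variable {Γ : Type u} [Group Γ] {V : Type v} [AddCommGroup V] [Module ℂ V]

/-- CC-C1. Weight spaces of different characters are independent. -/
theorem wt_indep (ρ : Γ →* (V →ₗ[ℂ] V)) (C : Subgroup Γ) : iSupIndep (fun ε : C →* ℂˣ => Wt ρ C ε) := by
  classical
  rw [iSupIndep_iff_finsetSum_eq_zero_imp_eq_zero]
  intro s
  induction s using Finset.induction_on with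
  | empty => intro v _ _ i hi; simp at hi
  | insert a s ha ih =>
    intro v hv h0
    have hs : ∀ i ∈ s, v i = 0 := by
      intro i hi
      have hne : i ≠ a := fun h => ha (h ▸ hi)
      obtain ⟨c, hc⟩ : ∃ c : C, i c ≠ a c := by
        by_contra hcon
        push Not at hcon
        exact hne (MonoidHom.ext hcon)
      have h1 : ∑ j ∈ s, (((j c : ℂˣ) : ℂ) - ((a c : ℂˣ) : ℂ)) • v j = 0 := by
        have h2 : ρ c (∑ j ∈ insert a s, v j) - ((a c : ℂˣ) : ℂ) • (∑ j ∈ insert a s, v j) = 0 := by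
          rw [h0, map_zero, smul_zero, sub_zero]
        rw [map_sum, Finset.smul_sum, ← Finset.sum_sub_distrib, Finset.sum_insert ha] at h2
        have h3 : ρ c (v a) - ((a c : ℂˣ) : ℂ) • v a = 0 := by
          rw [hv a (Finset.mem_insert_self a s) c, sub_self]
        rw [h3, zero_add] at h2
        rw [← h2]
        apply Finset.sum_congr rfl
        intro j hj
        rw [hv j (Finset.mem_insert_of_mem hj) c, sub_smul]
      have h4 := ih (fun j => (((j c : ℂˣ) : ℂ) - ((a c : ℂˣ) : ℂ)) • v j)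
        (fun j hj => (Wt ρ C j).smul_mem _ (hv j (Finset.mem_insert_of_mem hj))) h1 i hi
      rcases smul_eq_zero.1 h4 with h5 | h5
      · exact absurd (Units.ext (sub_eq_zero.1 h5)) hc
      · exact h5
    intro i hi
    rcases Finset.mem_insert.1 hi with rfl | hi
    · rw [Finset.sum_insert ha, Finset.sum_eq_zero hs, add_zero] at h0
      exact h0
    · exact hs i hi

/-- CC-C2. The weight spaces span. -/
theorem wt_sup [FiniteDimensional ℂ V] (ρ : Γ →* (V →ₗ[ℂ] V)) (C : Subgroup Γ)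
    (hcomm : ∀ a ∈ C, ∀ b ∈ C, ρ a * ρ b = ρ b * ρ a) (hfin : ∀ g, ∃ n, 0 < n ∧ ρ g ^ n = 1) :
    ⨆ ε : C →* ℂˣ, Wt ρ C ε = ⊤ := by
  classical
  have h1 := Module.End.iSup_iInf_maxGenEigenspace_eq_top_of_iSup_maxGenEigenspace_eq_top_of_commute
    (fun c : C => (ρ c : Module.End ℂ V)) (fun a b _ => hcomm a a.2 b b.2)
    (fun c => Module.End.iSup_maxGenEigenspace_eq_top _)
  rw [eq_top_iff, ← h1]
  refine iSup_le fun χ => ?_
  intro w hw
  by_cases hw0 : w = 0
  · rw [hw0]; exact Submodule.zero_mem _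
  have hw' : ∀ c : C, ρ c w = χ c • w := by
    intro c
    rw [Submodule.mem_iInf] at hw
    have hc := hw c
    obtain ⟨n, hn, hpow⟩ := hfin c
    have hsq : Squarefree (Polynomial.X ^ n - 1 : Polynomial ℂ) := by
      have := (Polynomial.separable_X_pow_sub_C (1 : ℂ) (n := n) (by exact_mod_cast hn.ne') one_ne_zero).squarefree
      rwa [Polynomial.C_1] at this
    have hss : Module.End.IsSemisimple (ρ c : Module.End ℂ V) := by
      apply Module.End.isSemisimple_of_squarefree_aeval_eq_zero hsq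
      have hp : (ρ c : Module.End ℂ V) ^ n = 1 := hpow
      rw [map_sub, map_pow, Polynomial.aeval_X, map_one, hp, sub_self]
    rw [(Module.End.isFinitelySemisimple_iff_isSemisimple.mpr hss).maxGenEigenspace_eq_eigenspace,
      Module.End.mem_eigenspace_iff] at hc
    exact hc
  have hinj : ∀ a b : ℂ, a • w = b • w → a = b := fun a b h => smul_left_injective ℂ hw0 h
  let χ' : C →* ℂ :=
    { toFun := χ
      map_one' := by
        apply hinj
        rw [← hw' 1, OneMemClass.coe_one, map_one, one_smul]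
        rfl
      map_mul' := by
        intro a b
        apply hinj
        rw [← hw' (a * b), Subgroup.coe_mul, map_mul]
        change ρ a (ρ b w) = _
        rw [hw' b, map_smul, hw' a, smul_smul, mul_comm] }
  have hmem : w ∈ Wt ρ C χ'.toHomUnits := by
    intro c
    rw [MonoidHom.coe_toHomUnits]
    exact hw' c
  exact (le_iSup (fun ε : C →* ℂˣ => Wt ρ C ε) χ'.toHomUnits) hmem

/-- CC-C3. Only finitely many weights occur. -/
theorem wt_finite [FiniteDimensional ℂ V] (ρ : Γ →* (V →ₗ[ℂ] V)) (C : Subgroup Γ) :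
    {ε : C →* ℂˣ | Wt ρ C ε ≠ ⊥}.Finite :=
  WellFoundedGT.finite_ne_bot_of_iSupIndep (wt_indep ρ C)

/-- CC-C4. -/
theorem wt_move (ρ : Γ →* (V →ₗ[ℂ] V)) {C : Subgroup Γ} (hC : C.Normal) (g : Γ) (ε : C →* ℂˣ) :
    ∀ v ∈ Wt ρ C ε, ρ g v ∈ Wt ρ C (cjh hC g ε) := by
  intro v hv c
  have hm : g⁻¹ * (c : Γ) * g ∈ C := by
    have := hC.conj_mem c c.2 g⁻¹
    rwa [inv_inv] at this
  have h1 := hv ⟨g⁻¹ * c * g, hm⟩
  have h2 : ρ c (ρ g v) = ρ g (ρ (g⁻¹ * c * g) v) := by
    have e : (c : Γ) * g = g * (g⁻¹ * c * g) := by group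
    have e2 : ρ ((c : Γ) * g) v = ρ (g * (g⁻¹ * c * g)) v := by rw [e]
    rw [map_mul, map_mul] at e2
    exact e2
  rw [h2]
  change ρ g (ρ ((⟨g⁻¹ * c * g, hm⟩ : C) : Γ) v) = _
  rw [h1, map_smul]
  rfl

end SB
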