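import Pool.Agent.Helper21.CC.Base

/-!
# Project CC, module C5: the dimensions of the weight spaces are determined by the traces
-/

namespace SB

universe u v

namespace C5aux

variable {Γ : Type u} [Group Γ] {V : Type v} [AddCommGroup V] [Module ℂ V]

theorem li (C : Subgroup Γ) :
    LinearIndependent ℂ (fun (ε : C →* ℂˣ) (c : C) => ((ε c : ℂˣ) : ℂ)) := by
  have h := linearIndependent_monoidHom C ℂ
  have hinj : Function.Injective (fun ε : C →* ℂˣ => (Units.coeHom ℂ).comp ε) := by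
    intro a b hab
    ext c
    exact DFunLike.congr_fun hab c
  exact h.comp _ hinj

theorem indep (ρ : Γ →* (V →ₗ[ℂ] V)) (C : Subgroup Γ) :
    iSupIndep (fun ε : C →* ℂˣ => Wt ρ C ε) := by
  rw [iSupIndep_iff_finsetSum_eq_zero_imp_eq_zero]
  intro s v hv h0 ε hε
  rw [← Module.forall_dual_apply_eq_zero_iff ℂ]
  intro φ
  have h1 : ∑ ε ∈ s, (φ (v ε)) • (fun c : C => ((ε c : ℂˣ) : ℂ)) = 0 := by
    funext c
    have h2 := congrArg (fun w => φ (ρ c w)) h0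
    simp only [map_sum, map_zero] at h2
    rw [Finset.sum_apply, Pi.zero_apply, ← h2]
    refine Finset.sum_congr rfl fun ε hε => ?_
    rw [hv ε hε c, map_smul, Pi.smul_apply, smul_eq_mul, smul_eq_mul, mul_comm]
  exact linearIndependent_iff'.1 (li C) s (fun ε => φ (v ε)) h1 ε hε

theorem finite_ne_bot [FiniteDimensional ℂ V] (ρ : Γ →* (V →ₗ[ℂ] V)) (C : Subgroup Γ) :
    {ε : C →* ℂˣ | Wt ρ C ε ≠ ⊥}.Finite :=
  WellFoundedGT.finite_ne_bot_of_iSupIndep (indep ρ C)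

theorem trace_eq [FiniteDimensional ℂ V] (ρ : Γ →* (V →ₗ[ℂ] V)) (C : Subgroup Γ)
    (h : ⨆ ε : C →* ℂˣ, Wt ρ C ε = ⊤) (T : Finset (C →* ℂˣ))
    (hT : ∀ ε, Wt ρ C ε ≠ ⊥ → ε ∈ T) (c : C) :
    LinearMap.trace ℂ V (ρ c) =
      ∑ ε ∈ T, ((Module.finrank ℂ (Wt ρ C ε) : ℂ) - 0) * ((ε c : ℂˣ) : ℂ) := by
  classical
  have hint : DirectSum.IsInternal (fun ε : C →* ℂˣ => Wt ρ C ε) :=
    (DirectSum.isInternal_submodule_iff_iSupIndep_and_iSup_eq_top _).2 ⟨indep ρ C, h⟩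
  have hf : ∀ ε : C →* ℂˣ, Set.MapsTo (ρ c) (Wt ρ C ε) (Wt ρ C ε) := by
    intro ε v hv
    have hv' : ρ c v = ((ε c : ℂˣ) : ℂ) • v := hv c
    rw [hv']
    exact (Wt ρ C ε).smul_mem _ hv
  rw [LinearMap.trace_eq_sum_trace_restrict' hint (finite_ne_bot ρ C) hf]
  have hterm : ∀ ε : C →* ℂˣ, LinearMap.trace ℂ (Wt ρ C ε) ((ρ c).restrict (hf ε)) =
      ((Module.finrank ℂ (Wt ρ C ε) : ℂ) - 0) * ((ε c : ℂˣ) : ℂ) := by
    intro ε
    have e : (ρ c).restrict (hf ε) = ((ε c : ℂˣ) : ℂ) • LinearMap.id := by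
      ext v
      have hv : ρ c (v : V) = ((ε c : ℂˣ) : ℂ) • (v : V) := v.2 c
      exact hv
    rw [e, map_smul, LinearMap.trace_id, smul_eq_mul, mul_comm, sub_zero]
  rw [Finset.sum_congr rfl fun ε _ => hterm ε]
  refine Finset.sum_subset (fun ε hε => hT ε ((finite_ne_bot ρ C).mem_toFinset.1 hε)) ?_
  intro ε _ hε
  have hb : Wt ρ C ε = ⊥ := by
    by_contra hne
    exact hε ((finite_ne_bot ρ C).mem_toFinset.2 hne)
  rw [hb, finrank_bot, Nat.cast_zero, sub_zero, zero_mul]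

end C5aux

variable {Γ : Type u} [Group Γ]

/-- CC-C5. The dimensions of the weight spaces are determined by the traces on `C`. -/
theorem wt_dim {V₁ : Type v} [AddCommGroup V₁] [Module ℂ V₁] [FiniteDimensional ℂ V₁]
    {V₂ : Type v} [AddCommGroup V₂] [Module ℂ V₂] [FiniteDimensional ℂ V₂]
    (ρ₁ : Γ →* (V₁ →ₗ[ℂ] V₁)) (ρ₂ : Γ →* (V₂ →ₗ[ℂ] V₂)) (C : Subgroup Γ)
    (h₁ : ⨆ ε : C →* ℂˣ, Wt ρ₁ C ε = ⊤) (h₂ : ⨆ ε : C →* ℂˣ, Wt ρ₂ C ε = ⊤)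
    (htr : ∀ c ∈ C, LinearMap.trace ℂ V₁ (ρ₁ c) = LinearMap.trace ℂ V₂ (ρ₂ c)) (ε : C →* ℂˣ) :
    Module.finrank ℂ (Wt ρ₁ C ε) = Module.finrank ℂ (Wt ρ₂ C ε) := by
  classical
  set T : Finset (C →* ℂˣ) :=
    (C5aux.finite_ne_bot ρ₁ C).toFinset ∪ (C5aux.finite_ne_bot ρ₂ C).toFinset with hTdef
  have hT₁ : ∀ ε, Wt ρ₁ C ε ≠ ⊥ → ε ∈ T := fun ε h =>
    Finset.mem_union_left _ ((C5aux.finite_ne_bot ρ₁ C).mem_toFinset.2 h)
  have hT₂ : ∀ ε, Wt ρ₂ C ε ≠ ⊥ → ε ∈ T := fun ε h =>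
    Finset.mem_union_right _ ((C5aux.finite_ne_bot ρ₂ C).mem_toFinset.2 h)
  by_cases hε : ε ∈ T
  · have h0 : ∑ ε ∈ T, ((Module.finrank ℂ (Wt ρ₁ C ε) : ℂ) - (Module.finrank ℂ (Wt ρ₂ C ε) : ℂ)) •
        (fun c : C => ((ε c : ℂˣ) : ℂ)) = 0 := by
      funext c
      have e1 := C5aux.trace_eq ρ₁ C h₁ T hT₁ c
      have e2 := C5aux.trace_eq ρ₂ C h₂ T hT₂ c
      rw [htr c c.2, e2] at e1
      simp only [sub_zero] at e1
      rw [Finset.sum_apply, Pi.zero_apply]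
      simp only [Pi.smul_apply, smul_eq_mul, sub_mul, Finset.sum_sub_distrib]
      rw [e1, sub_self]
    have h3 := linearIndependent_iff'.1 (C5aux.li C) T _ h0 ε hε
    have h4 := sub_eq_zero.1 h3
    exact_mod_cast h4
  · have b1 : Wt ρ₁ C ε = ⊥ := by
      by_contra hne
      exact hε (hT₁ ε hne)
    have b2 : Wt ρ₂ C ε = ⊥ := by
      by_contra hne
      exact hε (hT₂ ε hne)
    rw [b1, b2, finrank_bot, finrank_bot]

end SB
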