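import Pool.Agent.Helper21.CC.Base

/-!
# CC-D: extension of an invariant sign character
-/

namespace SB

universe u

variable {Γ : Type u} [Group Γ]

/-- CC-D. A sign character of the group generated by `S`, invariant under `U ⊇ S`, extends to a quadratic character
of `U`. -/
theorem ext_sign (D : Sys Γ) (hnt : NtU D) {M U : Subgroup Γ} (hM : M ∈ D.N) (hMU : M ≤ U) (hS : D.S ⊆ U)
    (ε : Subgroup.closure D.S →* ℂˣ)
    (hε : ∀ u ∈ U, ∀ (s : Γ) (hs : s ∈ D.S),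
      ε ⟨u * s * u⁻¹, Subgroup.subset_closure (D.conj s hs u)⟩ = ε ⟨s, Subgroup.subset_closure hs⟩) :
    ∃ χ : U →* ℂˣ, OpC D U χ ∧ (∀ u, χ u ^ 2 = 1) ∧
      ∀ c (hc : c ∈ Subgroup.closure D.S) (hU : c ∈ U), χ ⟨c, hU⟩ = ε ⟨c, hc⟩ := by
  obtain ⟨M', hM', hle, x, hx1, hx2⟩ := hnt M hM U hMU
    {s | ∃ hs : s ∈ D.S, ε ⟨s, Subgroup.subset_closure hs⟩ ≠ 1}
    (fun s hs => hs.1) (fun s hs => hS hs.1)
    (fun s hs u hu => ⟨D.conj s hs.1 u, by rw [hε u hu s hs.1]; exact hs.2⟩)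
  have hq : ∀ g : U, qc x g = Units.map ((Int.castRingHom ℂ : ℤ →+* ℂ) : ℤ →* ℂ) (x g) :=
    fun g => rfl
  refine ⟨qc x, ⟨M', hM', hle.trans hMU, fun g h hg => ?_⟩, fun u => ?_, ?_⟩
  · rw [hq, hx1 g h hg, map_one]
  · rw [hq, ← map_pow, Int.units_sq, map_one]
  · intro c hc
    have hU0 : Subgroup.closure D.S ≤ U := (Subgroup.closure_le U).2 hS
    refine Subgroup.closure_induction (k := D.S)
      (p := fun c hc => ∀ hU : c ∈ U, qc x ⟨c, hU⟩ = ε ⟨c, hc⟩) ?_ ?_ ?_ ?_ hc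
    · intro s hs hU
      have hsq : ε ⟨s, Subgroup.subset_closure hs⟩ * ε ⟨s, Subgroup.subset_closure hs⟩ = 1 := by
        rw [← map_mul]
        have : (⟨s, Subgroup.subset_closure hs⟩ : Subgroup.closure D.S) *
            ⟨s, Subgroup.subset_closure hs⟩ = 1 := Subtype.ext (D.sq s hs)
        rw [this, map_one]
      by_cases h1 : ε ⟨s, Subgroup.subset_closure hs⟩ = 1
      · have h2 : x ⟨s, hU⟩ ≠ -1 := by
          intro h
          obtain ⟨_, h3⟩ := (hx2 s hU hs).1 h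
          exact h3 h1
        have h3 : x ⟨s, hU⟩ = 1 := (Int.units_eq_one_or _).resolve_right h2
        rw [hq, h3, map_one, h1]
      · have h2 : x ⟨s, hU⟩ = -1 := (hx2 s hU hs).2 ⟨hs, h1⟩
        have h3 : ((ε ⟨s, Subgroup.subset_closure hs⟩ : ℂˣ) : ℂ) *
            ((ε ⟨s, Subgroup.subset_closure hs⟩ : ℂˣ) : ℂ) = 1 := by
          rw [← Units.val_mul, hsq, Units.val_one]
        rcases mul_self_eq_one_iff.1 h3 with h4 | h4
        · exact absurd (Units.ext h4) h1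
        · apply Units.ext
          rw [h4, hq, h2]
          simp
    · intro hU
      have h1 : (⟨1, hU⟩ : U) = 1 := rfl
      have h2 : (⟨1, Subgroup.one_mem _⟩ : Subgroup.closure D.S) = 1 := rfl
      rw [h1, h2, map_one, map_one]
    · intro a b ha hb h1 h2 hU
      have e1 : (⟨a * b, hU⟩ : U) = ⟨a, hU0 ha⟩ * ⟨b, hU0 hb⟩ := rfl
      have e2 : (⟨a * b, Subgroup.mul_mem _ ha hb⟩ : Subgroup.closure D.S) = ⟨a, ha⟩ * ⟨b, hb⟩ :=
        rfl
      rw [e1, e2, map_mul, map_mul, h1, h2]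
    · intro a ha h1 hU
      have e1 : (⟨a⁻¹, hU⟩ : U) = ⟨a, hU0 ha⟩⁻¹ := rfl
      have e2 : (⟨a⁻¹, Subgroup.inv_mem _ ha⟩ : Subgroup.closure D.S) = ⟨a, ha⟩⁻¹ := rfl
      rw [e1, e2, map_inv, map_inv, h1]

end SB
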