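import Pool.Agent.Helper21.CC.Base

/-!
# CC-E: Deligne's theorem relative to a normal subgroup, monomial combinations
-/

namespace SB

universe u v

section
variable {Γ : Type u} [Group Γ]

/-- Deligne's theorem in degree zero, for representations trivial on `M`. -/
theorem deligne_rel {M : Subgroup Γ} (hM : M.Normal) (hf : M.FiniteIndex)
    {V₁ : Type v} [AddCommGroup V₁] [Module ℂ V₁] [FiniteDimensional ℂ V₁]
    {V₂ : Type v} [AddCommGroup V₂] [Module ℂ V₂] [FiniteDimensional ℂ V₂]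
    (ρ₁ : Γ →* (V₁ →ₗ[ℂ] V₁)) (ρ₂ : Γ →* (V₂ →ₗ[ℂ] V₂))
    (h₁ : ∀ g ∈ M, ρ₁ g = 1) (h₂ : ∀ g ∈ M, ρ₂ g = 1)
    (hdim : Module.finrank ℂ V₁ = Module.finrank ℂ V₂) :
    ∃ (m : ℕ) (n : Fin m → ℤ) (W : Fin m → Subgroup Γ) (χ χ' : ∀ i, W i →* ℂˣ),
      (∀ i, M ≤ W i ∧ (∀ g (h : g ∈ W i), g ∈ M → χ i ⟨g, h⟩ = 1) ∧
        (∀ g (h : g ∈ W i), g ∈ M → χ' i ⟨g, h⟩ = 1)) ∧
      ∀ g, LinearMap.trace ℂ V₁ (ρ₁ g) - LinearMap.trace ℂ V₂ (ρ₂ g) =
        ∑ i, (n i : ℂ) * (Ind (W i) (ext (W i) (χ i)) g - Ind (W i) (ext (W i) (χ' i)) g) := by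
  obtain ⟨m, n, U', χ, χ', -, ho, ho', -, hv⟩ := famGeneral (sysCore_B1 M hM hf) (M := M) (Set.mem_singleton _)
    ρ₁ ρ₂ h₁ h₂ hdim (fun s hs => absurd hs (Set.notMem_empty s))
  refine ⟨m, n, U', χ, χ', fun i => ?_, hv⟩
  obtain ⟨L, hL, hLU, hx⟩ := ho i
  obtain ⟨L', hL', -, hx'⟩ := ho' i
  rw [show L = M from hL] at hLU hx
  rw [show L' = M from hL'] at hx'
  exact ⟨hLU, hx, hx'⟩

/-- Integral combinations of induced linear characters. -/
def Mon (D : Sys Γ) (P : Subgroup Γ → Prop) (v : Γ → ℂ) : Prop :=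
  ∃ (m : ℕ) (n : Fin m → ℤ) (U : Fin m → Subgroup Γ) (χ : ∀ i, U i →* ℂˣ),
    (∀ i, P (U i)) ∧ (∀ i, OpC D (U i) (χ i)) ∧ ∀ g, v g = ∑ i, (n i : ℂ) * Ind (U i) (ext (U i) (χ i)) g

theorem mon_of_fintype (D : Sys Γ) (P : Subgroup Γ → Prop) {v : Γ → ℂ} {ι : Type} [Fintype ι]
    (n : ι → ℤ) (U : ι → Subgroup Γ) (χ : ∀ i, U i →* ℂˣ) (hP : ∀ i, P (U i)) (hχ : ∀ i, OpC D (U i) (χ i))
    (hv : ∀ g, v g = ∑ i, (n i : ℂ) * Ind (U i) (ext (U i) (χ i)) g) : Mon D P v := by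
  let e := (Fintype.equivFin ι).symm
  refine ⟨Fintype.card ι, fun i => n (e i), fun i => U (e i), fun i => χ (e i), fun i => hP _, fun i => hχ _,
    fun g => ?_⟩
  rw [hv g]
  exact (e.sum_comp (fun i => (n i : ℂ) * Ind (U i) (ext (U i) (χ i)) g)).symm

theorem mon_congr {D : Sys Γ} {P : Subgroup Γ → Prop} {v w : Γ → ℂ} (h : Mon D P v) (e : ∀ g, w g = v g) :
    Mon D P w := by
  have : w = v := funext e
  rw [this]; exact h

theorem mon_zero (D : Sys Γ) (P : Subgroup Γ → Prop) : Mon D P (fun _ => 0) :=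
  mon_of_fintype D P (ι := Empty) (fun i => i.elim) (fun i => i.elim) (fun i => i.elim) (fun i => i.elim)
    (fun i => i.elim) fun g => by simp

theorem mon_add (D : Sys Γ) (P : Subgroup Γ → Prop) {v w : Γ → ℂ} (hv : Mon D P v) (hw : Mon D P w) :
    Mon D P (fun g => v g + w g) := by
  obtain ⟨m, n, U, χ, h1, h2, h3⟩ := hv
  obtain ⟨m', n', U', χ', h1', h2', h3'⟩ := hw
  refine mon_of_fintype D P (ι := Fin m ⊕ Fin m') (Sum.elim n n') (Sum.elim U U')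
    (fun i => Sum.rec (fun i => χ i) (fun i => χ' i) i) (fun i => ?_) (fun i => ?_) fun g => ?_
  · rcases i with i | i
    exacts [h1 i, h1' i]
  · rcases i with i | i
    exacts [h2 i, h2' i]
  · rw [Fintype.sum_sum_type, h3 g, h3' g]
    rfl

theorem mon_zmul (D : Sys Γ) (P : Subgroup Γ → Prop) {v : Γ → ℂ} (n : ℤ) (hv : Mon D P v) :
    Mon D P (fun g => (n : ℂ) * v g) := by
  obtain ⟨m, n', U, χ, h1, h2, h3⟩ := hv
  refine ⟨m, fun i => n * n' i, U, χ, h1, h2, fun g => ?_⟩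
  beta_reduce
  rw [h3 g, Finset.mul_sum]
  refine Finset.sum_congr rfl fun i _ => ?_
  push_cast
  ring

theorem mon_sum (D : Sys Γ) (P : Subgroup Γ → Prop) {m : ℕ} (a : Fin m → ℤ) (w : Fin m → Γ → ℂ)
    (h : ∀ i, Mon D P (w i)) : Mon D P (fun g => ∑ i, (a i : ℂ) * w i g) := by
  induction m with
  | zero => simpa using mon_zero D P
  | succ m ih =>
    simp only [Fin.sum_univ_castSucc]
    exact mon_add D P (ih (fun i => a i.castSucc) (fun i => w i.castSucc) fun i => h _)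
      (mon_zmul D P (a (Fin.last m)) (h (Fin.last m)))

theorem mon_single (D : Sys Γ) (P : Subgroup Γ → Prop) {U : Subgroup Γ} {χ : U →* ℂˣ} (hP : P U)
    (hχ : OpC D U χ) : Mon D P (Ind U (ext U χ)) :=
  mon_of_fintype D P (ι := Unit) (fun _ => 1) (fun _ => U) (fun _ => χ) (fun _ => hP) (fun _ => hχ) fun g => by simp

theorem mon_of_fam {D : Sys Γ} {P : Subgroup Γ → Prop} {v : Γ → ℂ} (h : Fam D P v) : Mon D P v := by
  obtain ⟨m, n, U, χ, χ', h1, h2, h3, -, h4⟩ := h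
  refine mon_congr (mon_add D P (mon_sum D P n (fun i => Ind (U i) (ext (U i) (χ i)))
    fun i => mon_single D P (h1 i) (h2 i)) (mon_zmul D P (-1) (mon_sum D P n (fun i => Ind (U i) (ext (U i) (χ' i)))
      fun i => mon_single D P (h1 i) (h3 i)))) fun g => ?_
  rw [h4 g]
  push_cast
  rw [neg_one_mul, ← sub_eq_add_neg, ← Finset.sum_sub_distrib]
  exact Finset.sum_congr rfl fun i _ => by ring

end

end SB
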