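import Pool.Agent.Helper21.CC.Base

namespace SB

universe u

variable {Γ : Type u} [Group Γ]

/-- CC-F. Transitivity of induction with a twist by a linear character of `U`. -/
theorem ind_exz_ind {U : Subgroup Γ} (hU : U.FiniteIndex) (χ : U →* ℂˣ) (W : Subgroup U) (hW : W.FiniteIndex)
    (η : W →* ℂˣ) :
    ∃ θ : (W.map U.subtype) →* ℂˣ,
      (∀ (x : Γ) (hx : x ∈ W.map U.subtype) (hU' : x ∈ U) (hW' : (⟨x, hU'⟩ : U) ∈ W),
        θ ⟨x, hx⟩ = χ ⟨x, hU'⟩ * η ⟨⟨x, hU'⟩, hW'⟩) ∧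
      ∀ g, Ind U (exz U (fun u => ((χ u : ℂˣ) : ℂ) * Ind W (ext W η) u)) g = Ind (W.map U.subtype) (ext _ θ) g := by
  classical
  have hmemU : ∀ x ∈ W.map U.subtype, x ∈ U := fun x hx => Subgroup.map_subtype_le W hx
  have hiff : ∀ x : U, (x : Γ) ∈ W.map U.subtype ↔ x ∈ W := by
    intro x
    rw [Subgroup.mem_map]
    constructor
    · rintro ⟨y, hy, hyx⟩
      have : y = x := Subtype.ext hyx
      rwa [← this]
    · intro h
      exact ⟨x, h, rfl⟩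
  have hmemW : ∀ (x : Γ) (hx : x ∈ W.map U.subtype), (⟨x, hmemU x hx⟩ : U) ∈ W := fun x hx =>
    (hiff ⟨x, hmemU x hx⟩).1 hx
  let θ : (W.map U.subtype) →* ℂˣ :=
    { toFun := fun x => χ ⟨x.1, hmemU _ x.2⟩ * η ⟨⟨x.1, hmemU _ x.2⟩, hmemW _ x.2⟩
      map_one' := by
        have h1 : χ ⟨((1 : (W.map U.subtype)) : Γ), hmemU _ (1 : (W.map U.subtype)).2⟩ = 1 := map_one χ
        have h2 : η ⟨⟨((1 : (W.map U.subtype)) : Γ), hmemU _ (1 : (W.map U.subtype)).2⟩,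
            hmemW _ (1 : (W.map U.subtype)).2⟩ = 1 := map_one η
        rw [h1, h2, mul_one]
      map_mul' := fun a b => by
        have h1 : χ ⟨((a * b : (W.map U.subtype)) : Γ), hmemU _ (a * b).2⟩ =
            χ ⟨a.1, hmemU _ a.2⟩ * χ ⟨b.1, hmemU _ b.2⟩ := by
          rw [← map_mul]
          rfl
        have h2 : η ⟨⟨((a * b : (W.map U.subtype)) : Γ), hmemU _ (a * b).2⟩, hmemW _ (a * b).2⟩ =
            η ⟨⟨a.1, hmemU _ a.2⟩, hmemW _ a.2⟩ * η ⟨⟨b.1, hmemU _ b.2⟩, hmemW _ b.2⟩ := by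
          rw [← map_mul]
          rfl
        rw [h1, h2]
        exact mul_mul_mul_comm _ _ _ _ }
  have hθ : ∀ (x : Γ) (hx : x ∈ W.map U.subtype) (hU' : x ∈ U) (hW' : (⟨x, hU'⟩ : U) ∈ W),
      θ ⟨x, hx⟩ = χ ⟨x, hU'⟩ * η ⟨⟨x, hU'⟩, hW'⟩ := fun x hx hU' hW' => rfl
  refine ⟨θ, hθ, fun g => ?_⟩
  rw [ind_trans_B4 hU W hW (cls_ext _ θ) g]
  show ∑ᶠ q : Γ ⧸ U, exz U (fun u => ((χ u : ℂˣ) : ℂ) * Ind W (ext W η) u) (q.out⁻¹ * g * q.out) = _
  refine finsum_congr fun q => ?_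
  unfold exz
  by_cases h : q.out⁻¹ * g * q.out ∈ U
  · rw [dif_pos h, dif_pos h]
    have hfW : Finite (U ⧸ W) := W.finite_quotient_of_finiteIndex
    have hft : Fintype (U ⧸ W) := Fintype.ofFinite _
    unfold Ind
    set y : U := ⟨q.out⁻¹ * g * q.out, h⟩ with hy
    show ((χ y : ℂˣ) : ℂ) * ∑ᶠ r : U ⧸ W, ext W η (r.out⁻¹ * y * r.out) =
      ∑ᶠ r : U ⧸ W, ext (W.map U.subtype) θ ((r.out⁻¹ * y * r.out : U) : Γ)
    rw [finsum_eq_sum_of_fintype, finsum_eq_sum_of_fintype, Finset.mul_sum]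
    refine Finset.sum_congr rfl fun r _ => ?_
    by_cases hr : r.out⁻¹ * y * r.out ∈ W
    · have hr' : ((r.out⁻¹ * y * r.out : U) : Γ) ∈ W.map U.subtype := (hiff _).2 hr
      rw [ext_mem _ hr, ext_mem _ hr', hθ _ hr' (r.out⁻¹ * y * r.out).2 hr, Units.val_mul]
      congr 2
      have : χ (r.out⁻¹ * y * r.out) = χ y := by
        rw [map_mul, map_mul, map_inv, mul_comm, mul_inv_cancel_left]
      rw [← this]
    · have hr' : ((r.out⁻¹ * y * r.out : U) : Γ) ∉ W.map U.subtype := fun h' => hr ((hiff _).1 h')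
      rw [ext_not_mem _ hr, ext_not_mem _ hr', mul_zero]
  · rw [dif_neg h, dif_neg h]

end SB
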