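import Pool.Agent.Helper21.CC.Base

/-!
# Project CC, module H: operators of finite order with maximal trace; commutators
-/

open Polynomial

namespace SB

universe u v

variable {Γ : Type u} [Group Γ]

private theorem roots_CCH {V : Type v} [AddCommGroup V] [Module ℂ V] [FiniteDimensional ℂ V] (f : V →ₗ[ℂ] V)
    {n : ℕ} (hf : f ^ n = 1) {z : ℂ} (hz : z ∈ f.charpoly.roots) : z ^ n = 1 := by
  have h0 : f.charpoly ≠ 0 := (LinearMap.charpoly_monic f).ne_zero
  have h1 : Module.End.HasEigenvalue f z :=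
    (Module.End.hasEigenvalue_iff_isRoot_charpoly f z).2 ((mem_roots h0).1 hz)
  obtain ⟨v, hv⟩ := h1.exists_hasEigenvector
  have h2 : (f ^ n) v = z ^ n • v := hv.pow_apply n
  rw [hf, Module.End.one_apply] at h2
  have h3 : (z ^ n - 1) • v = 0 := by rw [sub_smul, one_smul, ← h2, sub_self]
  rcases smul_eq_zero.1 h3 with h | h
  · exact sub_eq_zero.1 h
  · exact absurd h hv.2

/-- CC-H1. An operator of finite order whose trace is the dimension is the identity. -/
theorem eq_one_of_trace {V : Type v} [AddCommGroup V] [Module ℂ V] [FiniteDimensional ℂ V] (f : V →ₗ[ℂ] V) {n : ℕ}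
    (hn : 0 < n) (hf : f ^ n = 1) (ht : LinearMap.trace ℂ V f = Module.finrank ℂ V) : f = 1 := by
  have hsplit : f.charpoly.Splits := IsAlgClosed.splits _
  have htr : LinearMap.trace ℂ V f = f.charpoly.roots.sum :=
    Module.End.trace_eq_sum_roots_charpoly_of_splits hsplit
  have hcard : f.charpoly.roots.card = Module.finrank ℂ V := by
    rw [← hsplit.natDegree_eq_card_roots, LinearMap.charpoly_natDegree]
  have hnorm : ∀ z ∈ f.charpoly.roots, ‖z‖ = 1 := fun z hz =>
    Complex.norm_eq_one_of_pow_eq_one (roots_CCH f hf hz) hn.ne'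
  have hre : ∀ z ∈ f.charpoly.roots, z.re ≤ 1 := fun z hz =>
    (Complex.re_le_norm z).trans (hnorm z hz).le
  have hone : ∀ z ∈ f.charpoly.roots, z = 1 := by
    by_contra hcon
    push Not at hcon
    obtain ⟨z, hz, hz1⟩ := hcon
    have hlt : z.re < 1 := by
      refine lt_of_le_of_ne (hre z hz) fun h => hz1 ?_
      have h1 := hnorm z hz
      have h2 : z.re ^ 2 + z.im ^ 2 = 1 := by
        have h3 := Complex.sq_norm z
        rw [h1, Complex.normSq_apply] at h3
        nlinarith [h3]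
      have h3 : z.im = 0 := by
        have h4 : z.im ^ 2 = 0 := by rw [h] at h2; linarith
        exact pow_eq_zero_iff (two_ne_zero) |>.1 h4
      exact Complex.ext h h3
    have h1 : (f.charpoly.roots.map (fun z => z.re)).sum < (f.charpoly.roots.map (fun _ => (1 : ℝ))).sum :=
      Multiset.sum_lt_sum hre ⟨z, hz, hlt⟩
    have h2 : (f.charpoly.roots.map (fun z => z.re)).sum = (f.charpoly.roots.sum).re :=
      (map_multiset_sum Complex.reAddGroupHom _).symm
    rw [h2, ← htr, ht, Multiset.map_const', Multiset.sum_replicate, hcard] at h1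
    simp at h1
  have hroots : f.charpoly.roots = Multiset.replicate (Module.finrank ℂ V) (1 : ℂ) :=
    Multiset.eq_replicate.2 ⟨hcard, hone⟩
  have hchar : f.charpoly = (X - C (1 : ℂ)) ^ Module.finrank ℂ V := by
    have h1 := hsplit.eq_prod_roots_of_monic (LinearMap.charpoly_monic f)
    rw [hroots, Multiset.map_replicate, Multiset.prod_replicate] at h1
    exact h1
  have hnil : IsNilpotent (f - 1) := by
    refine ⟨Module.finrank ℂ V, ?_⟩
    have h1 := LinearMap.aeval_self_charpoly f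
    rw [hchar] at h1
    simpa using h1
  have hss : Module.End.IsSemisimple f := by
    refine Module.End.isSemisimple_of_squarefree_aeval_eq_zero (p := X ^ n - C (1 : ℂ)) ?_ ?_
    · exact (separable_X_pow_sub_C (1 : ℂ) (by exact_mod_cast hn.ne') one_ne_zero).squarefree
    · simp [hf]
  have hss' : Module.End.IsSemisimple (f - 1) := by
    have h1 := (Module.End.isSemisimple_sub_algebraMap_iff (f := f) (μ := (1 : ℂ))).2 hss
    simpa using h1
  exact sub_eq_zero.1 (Module.End.eq_zero_of_isNilpotent_isSemisimple hnil hss')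

private theorem ext_comm_CCH {U : Subgroup Γ} (χ : U →* ℂˣ) {a b : Γ} (ha : a ∈ U) (hb : b ∈ U) :
    ext U χ (a * b * a⁻¹ * b⁻¹) = 1 := by
  have h : a * b * a⁻¹ * b⁻¹ ∈ U := U.mul_mem (U.mul_mem (U.mul_mem ha hb) (U.inv_mem ha)) (U.inv_mem hb)
  unfold ext
  rw [dif_pos h]
  have h1 : (⟨a * b * a⁻¹ * b⁻¹, h⟩ : U) = ⟨a, ha⟩ * ⟨b, hb⟩ * ⟨a, ha⟩⁻¹ * ⟨b, hb⟩⁻¹ := rfl
  rw [h1, map_mul, map_mul, map_mul, map_inv, map_inv]
  have h2 : χ ⟨a, ha⟩ * χ ⟨b, hb⟩ * (χ ⟨a, ha⟩)⁻¹ * (χ ⟨b, hb⟩)⁻¹ = 1 := by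
    rw [mul_comm (χ ⟨a, ha⟩) (χ ⟨b, hb⟩), mul_inv_cancel_right, mul_inv_cancel]
  rw [h2, Units.val_one]

private theorem ext_one_CCH {U : Subgroup Γ} (χ : U →* ℂˣ) : ext U χ 1 = 1 := by
  unfold ext
  rw [dif_pos U.one_mem]
  have h1 : (⟨1, U.one_mem⟩ : U) = 1 := rfl
  rw [h1, map_one, Units.val_one]

/-- CC-H2. Characters induced from linear characters of subgroups containing `S` take the same value at `1` and at the
commutators of elements of `S`. -/
theorem ind_comm (D : Sys Γ) {U : Subgroup Γ} (hS : D.S ⊆ U) (χ : U →* ℂˣ) {s s' : Γ}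
    (hs : s ∈ D.S) (hs' : s' ∈ D.S) : Ind U (ext U χ) (s * s' * s⁻¹ * s'⁻¹) = Ind U (ext U χ) 1 := by
  unfold Ind
  refine finsum_congr fun q => ?_
  have h1 : q.out⁻¹ * (s * s' * s⁻¹ * s'⁻¹) * q.out =
      (q.out⁻¹ * s * q.out) * (q.out⁻¹ * s' * q.out) * (q.out⁻¹ * s * q.out)⁻¹ *
        (q.out⁻¹ * s' * q.out)⁻¹ := by
    group
  have h2 : q.out⁻¹ * 1 * q.out = (1 : Γ) := by group
  have h3 : q.out⁻¹ * s * q.out ∈ U := by
    have := D.conj s hs q.out⁻¹
    rw [inv_inv] at this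
    exact hS this
  have h4 : q.out⁻¹ * s' * q.out ∈ U := by
    have := D.conj s' hs' q.out⁻¹
    rw [inv_inv] at this
    exact hS this
  rw [h1, h2, ext_comm_CCH χ h3 h4, ext_one_CCH]

end SB
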