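import Pool.Agent.Helper21.CC.E
import Pool.Agent.Helper21.CC.A1
import Pool.Agent.Helper21.CC.A3
import Pool.Agent.Helper21.CC.C1
import Pool.Agent.Helper21.CC.C5
import Pool.Agent.Helper21.CC.D
import Pool.Agent.Helper21.CC.F

/-!
# CC-I: decomposition by the weights of the group generated by `S`
-/

namespace SB

universe u v

section
variable {Γ : Type u} [Group Γ]

theorem closure_normal (D : Sys Γ) : (Subgroup.closure D.S).Normal := by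
  constructor
  intro n hn g
  refine Subgroup.closure_induction (p := fun x _ => g * x * g⁻¹ ∈ Subgroup.closure D.S) ?_ ?_ ?_ ?_ hn
  · intro x hx
    exact Subgroup.subset_closure (D.conj x hx g)
  · simp
  · intro x y _ _ hx hy
    have := Subgroup.mul_mem _ hx hy
    have e : g * x * g⁻¹ * (g * y * g⁻¹) = g * (x * y) * g⁻¹ := by group
    rwa [e] at this
  · intro x _ hx
    have := Subgroup.inv_mem _ hx
    have e : (g * x * g⁻¹)⁻¹ = g * x⁻¹ * g⁻¹ := by group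
    rwa [e] at this

theorem cjh_apply {C : Subgroup Γ} (hC : C.Normal) (g : Γ) (ε : C →* ℂˣ) (c : C)
    (h : g⁻¹ * (c : Γ) * g ∈ C) : cjh hC g ε c = ε ⟨g⁻¹ * c * g, h⟩ := rfl

theorem cjh_one {C : Subgroup Γ} (hC : C.Normal) (ε : C →* ℂˣ) : cjh hC 1 ε = ε := by
  apply MonoidHom.ext
  intro c
  change ε _ = ε c
  congr 1
  apply Subtype.ext
  simp

theorem cjh_mul {C : Subgroup Γ} (hC : C.Normal) (g h : Γ) (ε : C →* ℂˣ) :
    cjh hC (g * h) ε = cjh hC g (cjh hC h ε) := by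
  apply MonoidHom.ext
  intro c
  change ε _ = ε _
  congr 1
  apply Subtype.ext
  simp [mul_assoc]

/-- An element of `C` fixes the characters of `C`. -/
theorem cjh_self {C : Subgroup Γ} (hC : C.Normal) {g : Γ} (hg : g ∈ C) (ε : C →* ℂˣ) : cjh hC g ε = ε := by
  apply MonoidHom.ext
  intro c
  have h : g⁻¹ * (c : Γ) * g ∈ C := C.mul_mem (C.mul_mem (C.inv_mem hg) c.2) hg
  rw [cjh_apply hC g ε c h]
  have e : (⟨g⁻¹ * (c : Γ) * g, h⟩ : C) = (⟨g, hg⟩ : C)⁻¹ * c * ⟨g, hg⟩ := Subtype.ext (by simp)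
  rw [e, map_mul, map_mul, map_inv, mul_comm (ε _)⁻¹, inv_mul_cancel_right]

/-- The action on a stable set of characters. -/
def wtPerm {C : Subgroup Γ} (hC : C.Normal) (E : Set (C →* ℂˣ)) (hE : ∀ g, ∀ ε ∈ E, cjh hC g ε ∈ E) :
    Γ →* Equiv.Perm E where
  toFun g :=
    { toFun := fun ε => ⟨cjh hC g ε, hE g ε ε.2⟩
      invFun := fun ε => ⟨cjh hC g⁻¹ ε, hE g⁻¹ ε ε.2⟩
      left_inv := fun ε => Subtype.ext (by
        change cjh hC g⁻¹ (cjh hC g ε) = ε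
        rw [← cjh_mul, inv_mul_cancel, cjh_one])
      right_inv := fun ε => Subtype.ext (by
        change cjh hC g (cjh hC g⁻¹ ε) = ε
        rw [← cjh_mul, mul_inv_cancel, cjh_one]) }
  map_one' := by
    ext ε : 1
    exact Subtype.ext (cjh_one hC _)
  map_mul' g h := by
    ext ε : 1
    exact Subtype.ext (cjh_mul hC g h _)

theorem wtPerm_apply {C : Subgroup Γ} (hC : C.Normal) (E : Set (C →* ℂˣ)) (hE : ∀ g, ∀ ε ∈ E, cjh hC g ε ∈ E)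
    (g : Γ) (ε : E) : ((wtPerm hC E hE g ε : E) : C →* ℂˣ) = cjh hC g ε := rfl

/-- Representatives of the orbits. -/
theorem exists_transversal {ι : Type*} [Finite ι] (σ : Γ →* Equiv.Perm ι) :
    ∃ (m : ℕ) (r : Fin m → ι), ∀ x, ∃! j, ∃ g, σ g (r j) = x := by
  classical
  let s : Setoid ι :=
    { r := fun x y => ∃ g, σ g x = y
      iseqv := ⟨fun x => ⟨1, by simp⟩, fun {x y} ⟨g, h⟩ => ⟨g⁻¹, by rw [← h, map_inv]; exact (σ g).symm_apply_apply x⟩,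
        fun {x y z} ⟨g, h⟩ ⟨g', h'⟩ => ⟨g' * g, by rw [map_mul, Equiv.Perm.mul_apply, h, h']⟩⟩ }
  obtain ⟨m, ⟨e⟩⟩ := Finite.exists_equiv_fin (Quotient s)
  refine ⟨m, fun j => (e.symm j).out, fun x => ⟨e (Quotient.mk s x), ?_, ?_⟩⟩
  · have h : s.r (Quotient.mk s x).out x := Quotient.mk_out x
    obtain ⟨g, hg⟩ := h
    exact ⟨g, by simpa using hg⟩
  · rintro j ⟨g, hg⟩
    have h : Quotient.mk s (e.symm j).out = Quotient.mk s x := Quotient.sound ⟨g, hg⟩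
    rw [Quotient.out_eq] at h
    rw [← h, Equiv.apply_symm_apply]

variable {V : Type v} [AddCommGroup V] [Module ℂ V]

/-- The representation of `U` on `X` twisted by `χ`. -/
noncomputable def twRep (ρ : Γ →* (V →ₗ[ℂ] V)) (U : Subgroup Γ) (X : Submodule ℂ V) (h : Stb ρ U X) (χ : U →* ℂˣ) :
    U →* (X →ₗ[ℂ] X) where
  toFun u := ((χ u : ℂˣ) : ℂ) • resRep ρ U X h u
  map_one' := by rw [map_one, map_one, Units.val_one, one_smul]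
  map_mul' a b := by
    rw [map_mul, map_mul, Units.val_mul, smul_mul_smul_comm]

theorem twRep_apply (ρ : Γ →* (V →ₗ[ℂ] V)) (U : Subgroup Γ) (X : Submodule ℂ V) (h : Stb ρ U X) (χ : U →* ℂˣ)
    (u : U) : twRep ρ U X h χ u = ((χ u : ℂˣ) : ℂ) • resRep ρ U X h u := rfl

theorem trx_eq_exz (ρ : Γ →* (V →ₗ[ℂ] V)) (U : Subgroup Γ) (X : Submodule ℂ V) (h : Stb ρ U X) (χ : U →* ℂˣ)
    (hχ : ∀ u, χ u ^ 2 = 1) :
    trx ρ U X = exz U (fun u => ((χ u : ℂˣ) : ℂ) * LinearMap.trace ℂ X (twRep ρ U X h χ u)) := by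
  classical
  funext g
  by_cases hg : g ∈ U
  · have h1 : g ∈ U ∧ ∀ v ∈ X, ρ g v ∈ X := ⟨hg, h g hg⟩
    rw [trx, dif_pos h1, exz, dif_pos hg, twRep_apply, map_smul, smul_eq_mul, ← mul_assoc]
    have h2 : ((χ ⟨g, hg⟩ : ℂˣ) : ℂ) * ((χ ⟨g, hg⟩ : ℂˣ) : ℂ) = 1 := by
      rw [← Units.val_mul, ← pow_two, hχ, Units.val_one]
    rw [h2, one_mul]
    rfl
  · have h1 : ¬ (g ∈ U ∧ ∀ v ∈ X, ρ g v ∈ X) := fun h => hg h.1
    rw [trx, dif_neg h1, exz, dif_neg hg]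

theorem wt_cjh_ne {C : Subgroup Γ} (hC : C.Normal) (ρ : Γ →* (V →ₗ[ℂ] V)) (g : Γ) {ε : C →* ℂˣ}
    (h : Wt ρ C ε ≠ ⊥) : Wt ρ C (cjh hC g ε) ≠ ⊥ := by
  obtain ⟨v, hv, hv0⟩ := Submodule.exists_mem_ne_zero_of_ne_bot h
  intro hbot
  have h1 := wt_move ρ hC g ε v hv
  rw [hbot, Submodule.mem_bot] at h1
  apply hv0
  have h2 : ρ g⁻¹ (ρ g v) = v := by
    rw [← Module.End.mul_apply, ← map_mul, inv_mul_cancel, map_one]
    rfl
  rw [← h2, h1, map_zero]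

/-- If `g` acts trivially in a representation where the weight `ε` occurs, then `g` fixes `ε`. -/
theorem cjh_of_triv {C : Subgroup Γ} (hC : C.Normal) (ρ : Γ →* (V →ₗ[ℂ] V)) {g : Γ} (hg : ρ g = 1) {ε : C →* ℂˣ}
    (h : Wt ρ C ε ≠ ⊥) : cjh hC g ε = ε := by
  obtain ⟨v, hv, hv0⟩ := Submodule.exists_mem_ne_zero_of_ne_bot h
  have hg' : ρ g⁻¹ = 1 := by
    have h1 : ρ g⁻¹ * ρ g = 1 := by rw [← map_mul, inv_mul_cancel, map_one]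
    rw [hg, mul_one] at h1
    exact h1
  apply MonoidHom.ext
  intro c
  have hm : g⁻¹ * (c : Γ) * g ∈ C := by
    have := hC.conj_mem c c.2 g⁻¹
    rwa [inv_inv] at this
  rw [cjh_apply hC g ε c hm]
  have h1 := hv c
  have h2 := hv ⟨g⁻¹ * (c : Γ) * g, hm⟩
  have h3 : ρ (g⁻¹ * (c : Γ) * g) = ρ c := by rw [map_mul, map_mul, hg, hg', one_mul, mul_one]
  change ρ (g⁻¹ * (c : Γ) * g) v = _ at h2
  rw [h3, h1] at h2
  apply Units.ext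
  exact (smul_left_injective ℂ hv0 h2).symm

theorem weights_common (D : Sys Γ) (hnt : NtU D) {M : Subgroup Γ} (hM : M ∈ D.N)
    {V₁ : Type v} [AddCommGroup V₁] [Module ℂ V₁] [FiniteDimensional ℂ V₁]
    {V₂ : Type v} [AddCommGroup V₂] [Module ℂ V₂] [FiniteDimensional ℂ V₂]
    (ρ₁ : Γ →* (V₁ →ₗ[ℂ] V₁)) (ρ₂ : Γ →* (V₂ →ₗ[ℂ] V₂)) (h₁ : ∀ g ∈ M, ρ₁ g = 1) (h₂ : ∀ g ∈ M, ρ₂ g = 1)
    (s₁ : ⨆ ε : Subgroup.closure D.S →* ℂˣ, Wt ρ₁ (Subgroup.closure D.S) ε = ⊤)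
    (s₂ : ⨆ ε : Subgroup.closure D.S →* ℂˣ, Wt ρ₂ (Subgroup.closure D.S) ε = ⊤) :
    ∃ (m : ℕ) (U : Fin m → Subgroup Γ) (ε : Fin m → (Subgroup.closure D.S →* ℂˣ)) (χ : ∀ j, U j →* ℂˣ),
      (∀ j, D.S ⊆ U j ∧ M ≤ U j ∧ OpC D (U j) (χ j) ∧ (∀ u, χ j u ^ 2 = 1) ∧
        (∀ c (hc : c ∈ Subgroup.closure D.S) (hU : c ∈ U j), χ j ⟨c, hU⟩ = ε j ⟨c, hc⟩) ∧
        Stb ρ₁ (U j) (Wt ρ₁ (Subgroup.closure D.S) (ε j)) ∧ Stb ρ₂ (U j) (Wt ρ₂ (Subgroup.closure D.S) (ε j))) ∧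
      (∀ g, LinearMap.trace ℂ V₁ (ρ₁ g) =
        ∑ j, Ind (U j) (trx ρ₁ (U j) (Wt ρ₁ (Subgroup.closure D.S) (ε j))) g) ∧
      (∀ g, LinearMap.trace ℂ V₂ (ρ₂ g) =
        ∑ j, Ind (U j) (trx ρ₂ (U j) (Wt ρ₂ (Subgroup.closure D.S) (ε j))) g) := by
  set C := Subgroup.closure D.S with hCdef
  have hC : C.Normal := closure_normal D
  let E : Set (C →* ℂˣ) := {ε | Wt ρ₁ C ε ≠ ⊥} ∪ {ε | Wt ρ₂ C ε ≠ ⊥}
  have hEfin : E.Finite := (wt_finite ρ₁ C).union (wt_finite ρ₂ C)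
  have hfE : Finite E := hEfin
  have hE : ∀ g, ∀ ε ∈ E, cjh hC g ε ∈ E := by
    rintro g ε (h | h)
    · exact Or.inl (wt_cjh_ne hC ρ₁ g h)
    · exact Or.inr (wt_cjh_ne hC ρ₂ g h)
  let σ := wtPerm hC E hE
  obtain ⟨m, r, hr⟩ := exists_transversal σ
  have hsup₁ : ⨆ i : E, Wt ρ₁ C (i : C →* ℂˣ) = ⊤ := by
    rw [eq_top_iff, ← s₁]
    refine iSup_le fun ε => ?_
    by_cases h : Wt ρ₁ C ε = ⊥
    · rw [h]; exact bot_le
    · exact le_iSup (fun i : E => Wt ρ₁ C (i : C →* ℂˣ)) ⟨ε, Or.inl h⟩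
  have hsup₂ : ⨆ i : E, Wt ρ₂ C (i : C →* ℂˣ) = ⊤ := by
    rw [eq_top_iff, ← s₂]
    refine iSup_le fun ε => ?_
    by_cases h : Wt ρ₂ C ε = ⊥
    · rw [h]; exact bot_le
    · exact le_iSup (fun i : E => Wt ρ₂ C (i : C →* ℂˣ)) ⟨ε, Or.inr h⟩
  have hmv₁ : ∀ g (i : E), ∀ v ∈ Wt ρ₁ C (i : C →* ℂˣ), ρ₁ g v ∈ Wt ρ₁ C ((σ g i : E) : C →* ℂˣ) :=
    fun g i v hv => wt_move ρ₁ hC g i v hv
  have hmv₂ : ∀ g (i : E), ∀ v ∈ Wt ρ₂ C (i : C →* ℂˣ), ρ₂ g v ∈ Wt ρ₂ C ((σ g i : E) : C →* ℂˣ) :=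
    fun g i v hv => wt_move ρ₂ hC g i v hv
  have hst : ∀ (i : E) (g : Γ), g ∈ Stz σ i ↔ cjh hC g i = i := by
    intro i g
    rw [mem_Stz]
    exact ⟨fun h => congrArg Subtype.val h, fun h => Subtype.ext h⟩
  have hSU : ∀ i : E, D.S ⊆ Stz σ i := by
    intro i s hs
    rw [SetLike.mem_coe, hst]
    exact cjh_self hC (Subgroup.subset_closure hs) _
  have hMU : ∀ i : E, M ≤ Stz σ i := by
    intro i g hg
    rw [hst]
    rcases i.2 with h | h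
    · exact cjh_of_triv hC ρ₁ (h₁ g hg) h
    · exact cjh_of_triv hC ρ₂ (h₂ g hg) h
  have hχ : ∀ i : E, ∃ χ : Stz σ i →* ℂˣ, OpC D (Stz σ i) χ ∧ (∀ u, χ u ^ 2 = 1) ∧
      ∀ c (hc : c ∈ C) (hU : c ∈ Stz σ i), χ ⟨c, hU⟩ = (i : C →* ℂˣ) ⟨c, hc⟩ := by
    intro i
    refine ext_sign D hnt hM (hMU i) (hSU i) (i : C →* ℂˣ) fun u hu s hs => ?_
    have h := (hst i u).1 hu
    have h2 : u⁻¹ * (u * s * u⁻¹) * u = s := by group
    conv_lhs => rw [← h]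
    rw [cjh_apply hC u _ _ (by rw [h2]; exact Subgroup.subset_closure hs)]
    congr 1
    exact Subtype.ext h2
  choose χ hχ1 hχ2 hχ3 using hχ
  refine ⟨m, fun j => Stz σ (r j), fun j => (r j : C →* ℂˣ), fun j => χ (r j), fun j => ⟨hSU _, hMU _, hχ1 _,
    hχ2 _, hχ3 _, ?_, ?_⟩, ?_, ?_⟩
  · intro u hu v hv
    have := hmv₁ u (r j) v hv
    rwa [mem_Stz.1 hu] at this
  · intro u hu v hv
    have := hmv₂ u (r j) v hv
    rwa [mem_Stz.1 hu] at this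
  · intro g
    rw [block_trace ρ₁ σ (fun i : E => Wt ρ₁ C (i : C →* ℂˣ)) ((wt_indep ρ₁ C).comp Subtype.val_injective) hsup₁
      hmv₁ g]
    exact orbit_ind σ (fun i => trx ρ₁ (Stz σ i) (Wt ρ₁ C (i : C →* ℂˣ)))
      (fun h g i => trx_conj ρ₁ σ (fun i : E => Wt ρ₁ C (i : C →* ℂˣ)) hmv₁ h g i) r hr g
  · intro g
    rw [block_trace ρ₂ σ (fun i : E => Wt ρ₂ C (i : C →* ℂˣ)) ((wt_indep ρ₂ C).comp Subtype.val_injective) hsup₂
      hmv₂ g]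
    exact orbit_ind σ (fun i => trx ρ₂ (Stz σ i) (Wt ρ₂ C (i : C →* ℂˣ)))
      (fun h g i => trx_conj ρ₂ σ (fun i : E => Wt ρ₂ C (i : C →* ℂˣ)) hmv₂ h g i) r hr g

end

end SB
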