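import Pool.Agent.Helper21.CC.I
import Pool.Agent.Helper21.CC.H

/-!
# CC-J: the generic theorems
-/

namespace SB

universe u v

section
variable {Γ : Type u} [Group Γ]

theorem Ind_lin {U : Subgroup Γ} (hU : U.FiniteIndex) {m : ℕ} (n : Fin m → ℤ) {φ₁ φ₂ : Γ → ℂ} {A B : Fin m → Γ → ℂ}
    (h : ∀ x, φ₁ x - φ₂ x = ∑ i, (n i : ℂ) * (A i x - B i x)) (g : Γ) :
    Ind U φ₁ g - Ind U φ₂ g = ∑ i, (n i : ℂ) * (Ind U (A i) g - Ind U (B i) g) := by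
  have : Finite (Γ ⧸ U) := U.finite_quotient_of_finiteIndex
  have : Fintype (Γ ⧸ U) := Fintype.ofFinite _
  unfold Ind
  simp only [finsum_eq_sum_of_fintype]
  simp only [← Finset.sum_sub_distrib, h]
  rw [Finset.sum_comm]
  exact Finset.sum_congr rfl fun i _ => by rw [Finset.mul_sum]

theorem exz_mem {U : Subgroup Γ} (f : U → ℂ) {g : Γ} (h : g ∈ U) : exz U f g = f ⟨g, h⟩ := by
  simp [exz, h]

theorem exz_not_mem {U : Subgroup Γ} (f : U → ℂ) {g : Γ} (h : g ∉ U) : exz U f g = 0 := by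
  simp [exz, h]

/-- Deligne's theorem over `U ⊇ S`, twisted by a linear character `χ` of `U`. -/
theorem tw_fam (D : Sys Γ) (hup : ∀ M ∈ D.N, ∀ M' : Subgroup Γ, M'.Normal → M ≤ M' → M' ∈ D.N)
    {M U : Subgroup Γ} (hM : M ∈ D.N) (hSU : D.S ⊆ U) (hMU : M ≤ U) (χ : U →* ℂˣ)
    (hχ : ∀ g (h : g ∈ U), g ∈ M → χ ⟨g, h⟩ = 1)
    {V₁ : Type v} [AddCommGroup V₁] [Module ℂ V₁] [FiniteDimensional ℂ V₁]
    {V₂ : Type v} [AddCommGroup V₂] [Module ℂ V₂] [FiniteDimensional ℂ V₂]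
    (τ₁ : U →* (V₁ →ₗ[ℂ] V₁)) (τ₂ : U →* (V₂ →ₗ[ℂ] V₂))
    (h₁ : ∀ g (h : g ∈ U), g ∈ D.S ∨ g ∈ M → τ₁ ⟨g, h⟩ = 1)
    (h₂ : ∀ g (h : g ∈ U), g ∈ D.S ∨ g ∈ M → τ₂ ⟨g, h⟩ = 1)
    (hdim : Module.finrank ℂ V₁ = Module.finrank ℂ V₂) :
    Fam D (fun U => D.S ⊆ U) (fun g => Ind U (exz U (fun u => ((χ u : ℂˣ) : ℂ) * LinearMap.trace ℂ V₁ (τ₁ u))) g -
      Ind U (exz U (fun u => ((χ u : ℂˣ) : ℂ) * LinearMap.trace ℂ V₂ (τ₂ u))) g) := by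
  have hMn : M.Normal := D.normal M hM
  have hCn : (Subgroup.closure D.S).Normal := closure_normal D
  set L : Subgroup Γ := Subgroup.closure D.S ⊔ M with hL
  have hLn : L.Normal := Subgroup.sup_normal _ _
  have hLN : L ∈ D.N := hup M hM L hLn le_sup_right
  have hCU : Subgroup.closure D.S ≤ U := (Subgroup.closure_le U).2 hSU
  have hLU : L ≤ U := sup_le hCU hMU
  have hLf : L.FiniteIndex := D.fin L hLN
  have hUf : U.FiniteIndex := Subgroup.finiteIndex_of_le hLU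
  have hLUn : (L.subgroupOf U).Normal := inferInstance
  have hLUf : (L.subgroupOf U).FiniteIndex := inferInstance
  have htriv : ∀ {W : Type v} [AddCommGroup W] [Module ℂ W] (τ : U →* (W →ₗ[ℂ] W)),
      (∀ g (h : g ∈ U), g ∈ D.S ∨ g ∈ M → τ ⟨g, h⟩ = 1) → ∀ u ∈ L.subgroupOf U, τ u = 1 := by
    intro W _ _ τ hτ u hu
    have h1 : L ≤ (τ.ker).map U.subtype := by
      refine sup_le ((Subgroup.closure_le _).2 fun s hs => ?_) fun g hg => ?_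
      · exact ⟨⟨s, hSU hs⟩, hτ s (hSU hs) (Or.inl hs), rfl⟩
      · exact ⟨⟨g, hMU hg⟩, hτ g (hMU hg) (Or.inr hg), rfl⟩
    obtain ⟨u', hu', he⟩ := h1 (Subgroup.mem_subgroupOf.1 hu)
    have : u' = u := Subtype.ext he
    rw [← this]
    exact hu'
  obtain ⟨m, n, W, η, η', hW, hsum⟩ := deligne_rel hLUn hLUf τ₁ τ₂ (htriv τ₁ h₁) (htriv τ₂ h₂) hdim
  have hWf : ∀ i, (W i).FiniteIndex := fun i => Subgroup.finiteIndex_of_le (hW i).1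
  choose θ hθ1 hθ2 using fun i => ind_exz_ind hUf χ (W i) (hWf i) (η i)
  choose θ' hθ1' hθ2' using fun i => ind_exz_ind hUf χ (W i) (hWf i) (η' i)
  have hmem : ∀ i, ∀ g ∈ L, ∃ h : g ∈ U, (⟨g, h⟩ : U) ∈ W i := fun i g hg =>
    ⟨hLU hg, (hW i).1 (Subgroup.mem_subgroupOf.2 hg)⟩
  have hML : M ≤ L := le_sup_right
  have hSL : D.S ⊆ L := fun s hs => (le_sup_left : Subgroup.closure D.S ≤ L) (Subgroup.subset_closure hs)
  refine ⟨m, n, fun i => (W i).map U.subtype, θ, θ', fun i s hs => ?_, fun i => ?_, fun i => ?_,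
    fun i s h hs => ?_, fun g => ?_⟩
  · obtain ⟨h, hh⟩ := hmem i s (hSL hs)
    exact ⟨⟨s, h⟩, hh, rfl⟩
  · refine ⟨M, hM, fun g hg => ?_, fun g hg hgM => ?_⟩
    · obtain ⟨h, hh⟩ := hmem i g (hML hg)
      exact ⟨⟨g, h⟩, hh, rfl⟩
    · obtain ⟨h, hh⟩ := hmem i g (hML hgM)
      rw [hθ1 i g hg h hh, hχ g h hgM, (hW i).2.1 ⟨g, h⟩ hh (Subgroup.mem_subgroupOf.2 (hML hgM)), one_mul]
  · refine ⟨M, hM, fun g hg => ?_, fun g hg hgM => ?_⟩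
    · obtain ⟨h, hh⟩ := hmem i g (hML hg)
      exact ⟨⟨g, h⟩, hh, rfl⟩
    · obtain ⟨h, hh⟩ := hmem i g (hML hgM)
      rw [hθ1' i g hg h hh, hχ g h hgM, (hW i).2.2 ⟨g, h⟩ hh (Subgroup.mem_subgroupOf.2 (hML hgM)), one_mul]
  · obtain ⟨h', hh⟩ := hmem i s (hSL hs)
    rw [hθ1 i s h h' hh, hθ1' i s h h' hh, (hW i).2.1 ⟨s, h'⟩ hh (Subgroup.mem_subgroupOf.2 (hSL hs)),
      (hW i).2.2 ⟨s, h'⟩ hh (Subgroup.mem_subgroupOf.2 (hSL hs))]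
  · beta_reduce
    rw [Ind_lin hUf n (A := fun i => exz U (fun u => ((χ u : ℂˣ) : ℂ) * Ind (W i) (ext (W i) (η i)) u))
      (B := fun i => exz U (fun u => ((χ u : ℂˣ) : ℂ) * Ind (W i) (ext (W i) (η' i)) u)) (fun x => ?_) g]
    · exact Finset.sum_congr rfl fun i _ => by rw [hθ2 i g, hθ2' i g]
    · by_cases hx : x ∈ U
      · simp only [exz_mem _ hx]
        rw [← mul_sub, hsum, Finset.mul_sum]
        exact Finset.sum_congr rfl fun i _ => by ring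
      · simp only [exz_not_mem _ hx, sub_self, mul_zero, Finset.sum_const_zero]

variable {V : Type v} [AddCommGroup V] [Module ℂ V]

theorem twRep_triv (D : Sys Γ) (ρ : Γ →* (V →ₗ[ℂ] V)) {M M' U : Subgroup Γ} (hρ : ∀ g ∈ M, ρ g = 1)
    (ε : Subgroup.closure D.S →* ℂˣ) (χ : U →* ℂˣ) (hχM : ∀ g (h : g ∈ U), g ∈ M' → χ ⟨g, h⟩ = 1)
    (hχ2 : ∀ u, χ u ^ 2 = 1)
    (hχε : ∀ c (hc : c ∈ Subgroup.closure D.S) (hU : c ∈ U), χ ⟨c, hU⟩ = ε ⟨c, hc⟩)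
    (hst : Stb ρ U (Wt ρ (Subgroup.closure D.S) ε)) :
    ∀ g (h : g ∈ U), g ∈ D.S ∨ g ∈ M ⊓ M' → twRep ρ U (Wt ρ (Subgroup.closure D.S) ε) hst χ ⟨g, h⟩ = 1 := by
  rintro g h (hg | hg)
  · apply LinearMap.ext
    intro x
    apply Subtype.ext
    have hgC : g ∈ Subgroup.closure D.S := Subgroup.subset_closure hg
    change ((χ ⟨g, h⟩ : ℂˣ) : ℂ) • (ρ g (x : V)) = x
    have h1 := x.2 ⟨g, hgC⟩
    change ρ g (x : V) = _ at h1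
    rw [h1, smul_smul, ← hχε g hgC h, ← Units.val_mul, ← pow_two, hχ2, Units.val_one, one_smul]
  · apply LinearMap.ext
    intro x
    apply Subtype.ext
    change ((χ ⟨g, h⟩ : ℂˣ) : ℂ) • (ρ g (x : V)) = x
    rw [hχM g h hg.2, hρ g hg.1, Units.val_one, one_smul]
    rfl

/-- Equality of the traces on the group generated by `S`. -/
theorem comm_pair (D : Sys Γ) (hup : ∀ M ∈ D.N, ∀ M' : Subgroup Γ, M'.Normal → M ≤ M' → M' ∈ D.N)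
    (hnt : NtU D) {M : Subgroup Γ} (hM : M ∈ D.N)
    {V₁ : Type v} [AddCommGroup V₁] [Module ℂ V₁] [FiniteDimensional ℂ V₁]
    {V₂ : Type v} [AddCommGroup V₂] [Module ℂ V₂] [FiniteDimensional ℂ V₂]
    (ρ₁ : Γ →* (V₁ →ₗ[ℂ] V₁)) (ρ₂ : Γ →* (V₂ →ₗ[ℂ] V₂)) (h₁ : ∀ g ∈ M, ρ₁ g = 1) (h₂ : ∀ g ∈ M, ρ₂ g = 1)
    (s₁ : ⨆ ε : Subgroup.closure D.S →* ℂˣ, Wt ρ₁ (Subgroup.closure D.S) ε = ⊤)
    (s₂ : ⨆ ε : Subgroup.closure D.S →* ℂˣ, Wt ρ₂ (Subgroup.closure D.S) ε = ⊤)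
    (htr : ∀ c ∈ Subgroup.closure D.S, LinearMap.trace ℂ V₁ (ρ₁ c) = LinearMap.trace ℂ V₂ (ρ₂ c)) :
    Fam D (fun U => D.S ⊆ U) (fun g => LinearMap.trace ℂ V₁ (ρ₁ g) - LinearMap.trace ℂ V₂ (ρ₂ g)) := by
  obtain ⟨m, U, ε, χ, hj, e₁, e₂⟩ := weights_common D hnt hM ρ₁ ρ₂ h₁ h₂ s₁ s₂
  have key : ∀ j, Fam D (fun U => D.S ⊆ U) (fun g =>
      Ind (U j) (trx ρ₁ (U j) (Wt ρ₁ (Subgroup.closure D.S) (ε j))) g -
      Ind (U j) (trx ρ₂ (U j) (Wt ρ₂ (Subgroup.closure D.S) (ε j))) g) := by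
    intro j
    obtain ⟨hSU, hMU, ⟨M', hM', hM'U, hχM⟩, hχ2, hχε, st₁, st₂⟩ := hj j
    rw [trx_eq_exz ρ₁ (U j) _ st₁ (χ j) hχ2, trx_eq_exz ρ₂ (U j) _ st₂ (χ j) hχ2]
    exact tw_fam D hup (D.inf M hM M' hM') hSU (inf_le_left.trans hMU) (χ j) (fun g h hg => hχM g h hg.2) _ _
      (twRep_triv D ρ₁ h₁ (ε j) (χ j) hχM hχ2 hχε st₁) (twRep_triv D ρ₂ h₂ (ε j) (χ j) hχM hχ2 hχε st₂)
      (wt_dim ρ₁ ρ₂ _ s₁ s₂ htr (ε j))
  refine fam_congr (fam_sum D _ (fun _ => 1) _ key) fun g => ?_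
  rw [e₁ g, e₂ g, ← Finset.sum_sub_distrib]
  exact Finset.sum_congr rfl fun j _ => by push_cast; ring

theorem exz_smul_ext (U : Subgroup Γ) (χ : U →* ℂˣ) (d : ℕ) :
    exz U (fun u => ((χ u : ℂˣ) : ℂ) * (d : ℂ)) = (d : ℤ) • ext U χ := by
  funext g
  by_cases h : g ∈ U
  · rw [exz_mem _ h, Pi.smul_apply, ext_mem _ h, zsmul_eq_mul]
    push_cast
    ring
  · rw [exz_not_mem _ h, Pi.smul_apply, ext_not_mem _ h, smul_zero]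

/-- A representation which is diagonalizable on the group generated by `S`. -/
theorem comm_mon (D : Sys Γ) (hup : ∀ M ∈ D.N, ∀ M' : Subgroup Γ, M'.Normal → M ≤ M' → M' ∈ D.N)
    (hnt : NtU D) {M : Subgroup Γ} (hM : M ∈ D.N) [FiniteDimensional ℂ V]
    (ρ : Γ →* (V →ₗ[ℂ] V)) (h : ∀ g ∈ M, ρ g = 1)
    (s : ⨆ ε : Subgroup.closure D.S →* ℂˣ, Wt ρ (Subgroup.closure D.S) ε = ⊤) :
    Mon D (fun U => D.S ⊆ U) (fun g => LinearMap.trace ℂ V (ρ g)) := by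
  obtain ⟨m, U, ε, χ, hj, e, -⟩ := weights_common D hnt hM ρ ρ h h s s
  have key : ∀ j, Mon D (fun U => D.S ⊆ U) (fun g =>
      Ind (U j) (trx ρ (U j) (Wt ρ (Subgroup.closure D.S) (ε j))) g) := by
    intro j
    obtain ⟨hSU, hMU, hop, hχ2, hχε, st, -⟩ := hj j
    obtain ⟨M', hM', hM'U, hχM⟩ := id hop
    rw [trx_eq_exz ρ (U j) _ st (χ j) hχ2]
    have hf := tw_fam D hup (D.inf M hM M' hM') hSU (inf_le_left.trans hMU) (χ j) (fun g h hg => hχM g h hg.2)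
      (twRep ρ (U j) _ st (χ j)) (1 : U j →* (Wt ρ (Subgroup.closure D.S) (ε j) →ₗ[ℂ] _))
      (twRep_triv D ρ h (ε j) (χ j) hχM hχ2 hχε st) (fun _ _ _ => rfl) rfl
    refine mon_congr (mon_add D _ (mon_of_fam hf) (mon_zmul D _
      (Module.finrank ℂ (Wt ρ (Subgroup.closure D.S) (ε j)) : ℤ) (mon_single D _ hSU hop))) fun g => ?_
    have h1 : (fun u => ((χ j u : ℂˣ) : ℂ) * LinearMap.trace ℂ (Wt ρ (Subgroup.closure D.S) (ε j))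
        ((1 : U j →* (Wt ρ (Subgroup.closure D.S) (ε j) →ₗ[ℂ] _)) u)) =
        fun u => ((χ j u : ℂˣ) : ℂ) * (Module.finrank ℂ (Wt ρ (Subgroup.closure D.S) (ε j)) : ℂ) := by
      funext u
      rw [MonoidHom.one_apply, LinearMap.trace_one]
    rw [h1, exz_smul_ext, Ind_smul]
    push_cast
    ring
  refine mon_congr (mon_sum D _ (fun _ => 1) _ key) fun g => ?_
  rw [e g]
  exact Finset.sum_congr rfl fun j _ => by push_cast; ring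

end

end SB
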