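import Pool.Agent.Helper21.CT.Stmt3
import Pool.Agent.Helper21.CC.Base

namespace SB

/-! The definitions used in the statement of the theorem on commuting complex conjugations. -/

variable {Γ : Type*} [Group Γ]

/-- The images under `ρ` of the elements of `S` commute. -/
def CommOn (S : Set Γ) {d : ℕ} (ρ : Rp Γ d) : Prop := ∀ c ∈ S, ∀ c' ∈ S, ρ c * ρ c' = ρ c' * ρ c

/-- The function `Ind (χ tr τ)` induced from the twist by `χ` of the representation `τ` of `U`. -/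
noncomputable def IndTw (U : Subgroup Γ) (χ : U →* ℂˣ) {e : ℕ} (τ : Rp U e) : Γ → ℂ :=
  Ind U (exz U fun u => ((χ u : ℂˣ) : ℂ) * chr τ u)

/-- `χ² = 1`, and `τ` is trivial on `S`; both are trivial on `N ≤ U`, and `S ⊆ U`. -/
def RealPair (S : Set Γ) (N U : Subgroup Γ) (χ : U →* ℂˣ) {e : ℕ} (τ : Rp U e) : Prop :=
  S ⊆ U ∧ N ≤ U ∧ TrivOn N χ ∧ (∀ u, χ u ^ 2 = 1) ∧ ∀ g (h : g ∈ U), g ∈ S ∨ g ∈ N → τ ⟨g, h⟩ = 1

/-- The character of `ρ` is a sum of characters `Ind (χᵢ tr τᵢ)`, with `χᵢ`, `τᵢ` as in `RealPair`. -/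
def RealDecomp (S : Set Γ) (N : Subgroup Γ) {d : ℕ} (ρ : Rp Γ d) : Prop :=
  ∃ (m : ℕ) (U : Fin m → Subgroup Γ) (χ : ∀ i, U i →* ℂˣ) (e : Fin m → ℕ) (τ : ∀ i, Rp (U i) (e i)),
    (∀ i, RealPair S N (U i) (χ i) (τ i)) ∧ ∀ g, chr ρ g = ∑ i, IndTw (U i) (χ i) (τ i) g

/-- Some finite Galois extension `K` of `ℚ` is such that its absolute Galois group has property `P`. -/
def SomeGal (P : Subgroup Gal → Prop) : Prop := ∃ K : IntermediateField ℚ Qb, FinGal ℚ K ∧ P (GalOver K)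

end SB
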