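import Pool.Agent.Helper21.CC.J
import Pool.Agent.Helper21.CC.Stmt
import Pool.Agent.Helper21.CT.K11
import Pool.Agent.Helper21.SB.Parts

/-!
# CC-K: the absolute Galois group
-/

namespace SB

universe u v

section
variable {Γ : Type u} [Group Γ]

/-- Generators with commuting images. -/
theorem comm_closure {S : Set Γ} {R : Type*} [Group R] (f : Γ →* R) (h : ∀ c ∈ S, ∀ c' ∈ S, f c * f c' = f c' * f c) :
    ∀ a ∈ Subgroup.closure S, ∀ b ∈ Subgroup.closure S, f a * f b = f b * f a := by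
  have h1 : ∀ c ∈ S, ∀ b ∈ Subgroup.closure S, f c * f b = f b * f c := by
    intro c hc b hb
    have : Subgroup.closure S ≤ (Subgroup.centralizer {f c}).comap f := by
      rw [Subgroup.closure_le]
      intro s hs
      rw [SetLike.mem_coe, Subgroup.mem_comap, Subgroup.mem_centralizer_singleton_iff]
      exact h s hs c hc
    have h2 := this hb
    rw [Subgroup.mem_comap, Subgroup.mem_centralizer_singleton_iff] at h2
    exact h2.symm
  intro a ha b hb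
  have : Subgroup.closure S ≤ (Subgroup.centralizer {f b}).comap f := by
    rw [Subgroup.closure_le]
    intro s hs
    rw [SetLike.mem_coe, Subgroup.mem_comap, Subgroup.mem_centralizer_singleton_iff]
    exact h1 s hs b hb
  have h2 := this ha
  rw [Subgroup.mem_comap, Subgroup.mem_centralizer_singleton_iff] at h2
  exact h2

/-- Characters induced from linear characters equal on `S` are equal on the group generated by `S`. -/
theorem ind_closure_eq (D : Sys Γ) {U : Subgroup Γ} (hS : D.S ⊆ U) (χ χ' : U →* ℂˣ)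
    (h : ∀ s (hs : s ∈ U), s ∈ D.S → χ ⟨s, hs⟩ = χ' ⟨s, hs⟩) {g : Γ} (hg : g ∈ Subgroup.closure D.S) :
    Ind U (ext U χ) g = Ind U (ext U χ') g := by
  have hCU : Subgroup.closure D.S ≤ U := (Subgroup.closure_le U).2 hS
  have hCn := closure_normal D
  have h1 : ∀ c (hc : c ∈ Subgroup.closure D.S), χ ⟨c, hCU hc⟩ = χ' ⟨c, hCU hc⟩ := by
    intro c hc
    have h2 : Subgroup.closure D.S ≤ (χ.eqLocus χ').map U.subtype := by
      rw [Subgroup.closure_le]
      intro s hs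
      exact ⟨⟨s, hS hs⟩, h s (hS hs) hs, rfl⟩
    obtain ⟨u, hu, rfl⟩ := h2 hc
    exact hu
  unfold Ind
  refine finsum_congr fun q => ?_
  have h3 : q.out⁻¹ * g * q.out ∈ Subgroup.closure D.S := by
    have := hCn.conj_mem g hg q.out⁻¹
    rwa [inv_inv] at this
  rw [ext_mem _ (hCU h3), ext_mem _ (hCU h3), h1 _ h3]

/-- `Ind 1 - [Γ : U]` for `U ⊇ S`. -/
theorem ind_one_fam (D : Sys Γ) (hup : ∀ M ∈ D.N, ∀ M' : Subgroup Γ, M'.Normal → M ≤ M' → M' ∈ D.N)
    {M U : Subgroup Γ} (hM : M ∈ D.N) (hMU : M ≤ U) (hS : D.S ⊆ U) :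
    Fam D (fun U => D.S ⊆ U) (fun g => Ind U (ext U 1) g - (U.index : ℂ)) := by
  have hMn : M.Normal := D.normal M hM
  have hML : M ≤ U.normalCore := Subgroup.normal_le_normalCore.2 hMU
  have hLn : U.normalCore.Normal := U.normalCore_normal
  have hLN : U.normalCore ∈ D.N := hup M hM _ hLn hML
  have hLf : U.normalCore.FiniteIndex := D.fin _ hLN
  have hUf : U.FiniteIndex := fin_of_le D hM hMU
  have hSL : D.S ⊆ U.normalCore := by
    intro s hs g
    exact hS (D.conj s hs g)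
  obtain ⟨d, ρ, h1, h2⟩ := exists_lrep U.normalCore U hLn U.normalCore_le hUf 1 (fun _ _ _ => rfl)
  have hd : (d : ℂ) = (U.index : ℂ) := by
    rw [← ind_ext_one_one_B1 hUf, ← h2 1, map_one, LinearMap.trace_one]
    simp
  obtain ⟨m, n, W, χ, χ', hW, hv⟩ := deligne_rel hLn hLf ρ (1 : Γ →* ((Fin d → ℂ) →ₗ[ℂ] (Fin d → ℂ))) h1
    (fun _ _ => rfl) rfl
  refine ⟨m, n, W, χ, χ', fun i s hs => (hW i).1 (hSL hs), fun i => ⟨_, hLN, (hW i).1, (hW i).2.1⟩,
    fun i => ⟨_, hLN, (hW i).1, (hW i).2.2⟩, fun i s h hs => ?_, fun g => ?_⟩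
  · rw [(hW i).2.1 s h (hSL hs), (hW i).2.2 s h (hSL hs)]
  · rw [← hv g, h2 g, MonoidHom.one_apply, LinearMap.trace_one]
    simp [hd]

end

theorem pow_mem_fin {Γ : Type*} [Group Γ] {M : Subgroup Γ} (hM : M.Normal) (hf : M.FiniteIndex) (g : Γ) :
    ∃ n, 0 < n ∧ g ^ n ∈ M := by
  refine ⟨M.index, Nat.pos_of_ne_zero hf.index_ne_zero, ?_⟩
  exact Subgroup.pow_index_mem M g

/-- A continuous representation whose values at the complex conjugations commute is diagonalizable on the group they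
generate. -/
theorem wt_top {d : ℕ} (ρ : Rp GQ d) (h : CommOn CC ρ) {M : Subgroup GQ} (hM : M ∈ NAll) (hρ : ∀ g ∈ M, ρ g = 1) :
    ⨆ ε : Subgroup.closure CC →* ℂˣ, Wt (lrep ρ) (Subgroup.closure CC) ε = ⊤ := by
  have hcomm := comm_closure ρ h
  refine wt_sup (lrep ρ) _ (fun a ha b hb => ?_) fun g => ?_
  · rw [← map_mul, ← map_mul]
    apply LinearMap.ext
    intro x
    change Matrix.toLin' (ρ (a * b) : Matrix (Fin d) (Fin d) ℂ) x = Matrix.toLin' (ρ (b * a) : Matrix _ _ ℂ) x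
    rw [map_mul, map_mul, hcomm a ha b hb]
  · obtain ⟨n, hn, hg⟩ := pow_mem_fin (nAll_normal hM) (nAll_fin hM) g
    exact ⟨n, hn, by rw [← map_pow]; exact lrep_one ρ _ (hρ _ hg)⟩

theorem exists_M {d : ℕ} (ρ : Rp GQ d) (h : Continuous ρ) : ∃ M ∈ NAll, ∀ g ∈ M, ρ g = 1 := by
  have hM := exists_K ρ ρ h h
  exact ⟨_, hM, fun g hg => hg.1⟩

theorem eq_one_of_lrep {d : ℕ} (ρ : Rp GQ d) {g : GQ} (h : lrep ρ g = 1) : ρ g = 1 := by
  apply Units.ext
  apply Matrix.toLin'.injective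
  change lrep ρ g = _
  rw [h, Units.val_one, Matrix.toLin'_one]
  rfl

/-- If the trace at `g` is the dimension, `g` acts trivially. -/
theorem eq_one_of_chr {d : ℕ} (ρ : Rp GQ d) (h : Continuous ρ) {g : GQ} (hg : chr ρ g = chr ρ 1) : ρ g = 1 := by
  obtain ⟨M, hM, hρ⟩ := exists_M ρ h
  obtain ⟨n, hn, hgn⟩ := pow_mem_fin (nAll_normal hM) (nAll_fin hM) g
  refine eq_one_of_lrep ρ (eq_one_of_trace (lrep ρ g) hn (by rw [← map_pow]; exact lrep_one ρ _ (hρ _ hgn)) ?_)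
  rw [trace_lrep]
  change chr ρ g = _
  rw [hg, chr, map_one, Units.val_one, Matrix.trace_one, Fintype.card_fin, Module.finrank_fin_fun]

theorem comm_of_commutator {d : ℕ} (ρ : Rp GQ d) {a b : GQ} (h : ρ (a * b * a⁻¹ * b⁻¹) = 1) :
    ρ a * ρ b = ρ b * ρ a := by
  rw [map_mul, map_mul, map_mul, map_inv, map_inv] at h
  have := mul_inv_eq_one.1 h
  rw [mul_inv_eq_iff_eq_mul] at this
  exact this

theorem comb_of_mon {P : Subgroup GQ → Prop} {v : GQ → ℂ} (h : Mon sysAll P v) :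
    ∃ K : IntermediateField ℚ Qb, FinGal ℚ K ∧ MonComb (Γ := GQ) K.fixingSubgroup P v := by
  obtain ⟨m, n, U, χ, h1, h2, h3⟩ := h
  choose M hM hMU hχ using h2
  obtain ⟨M', hM', -, hcom⟩ := exists_common sysAll (M := ⊤) top_nAll M hM
  obtain ⟨K, hfd, hn, rfl⟩ := hM'
  exact ⟨K, ⟨hfd, isGalois_iff.2 ⟨inferInstance, hn⟩⟩, m, n, U, χ, fun i => ⟨h1 i, (hcom i).trans (hMU i),
    fun g hg hgN => hχ i g hg (hcom i hgN)⟩, h3⟩

theorem mon_chr {d : ℕ} (ρ : Rp GQ d) (hρ : Continuous ρ) (h : CommOn CC ρ) :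
    Mon sysAll (fun U => CC ⊆ U) (chr ρ) := by
  obtain ⟨M, hM, hM1⟩ := exists_M ρ hρ
  refine mon_congr (comm_mon sysAll up_all ntU_all hM (lrep ρ) (fun g hg => lrep_one ρ g (hM1 g hg))
    (wt_top ρ h hM hM1)) fun g => ?_
  rw [trace_lrep]
  rfl

theorem cc_iff {d : ℕ} (ρ : Rp GQ d) (hρ : Continuous ρ) :
    CommOn CC ρ ↔ ∃ K : IntermediateField ℚ Qb, FinGal ℚ K ∧
      MonComb (Γ := GQ) K.fixingSubgroup (fun U => CC ⊆ U) (chr ρ) := by
  constructor
  · exact fun h => comb_of_mon (mon_chr ρ hρ h)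
  · rintro ⟨K, -, m, n, U, χ, h1, h2⟩ c hc c' hc'
    refine comm_of_commutator ρ (eq_one_of_chr ρ hρ ?_)
    rw [h2, h2]
    refine Finset.sum_congr rfl fun i _ => ?_
    congr 1
    exact ind_comm sysAll (h1 i).1 (χ i) hc hc'

theorem cc_pair {d : ℕ} (ρ ρ' : Rp GQ d) (hρ : Continuous ρ) (hρ' : Continuous ρ') (h : CommOn CC ρ) :
    (∀ g ∈ Subgroup.closure CC, chr ρ g = chr ρ' g) ↔ ∃ K : IntermediateField ℚ Qb, FinGal ℚ K ∧
      Decomp (Γ := GQ) CC K.fixingSubgroup (fun U => CC ⊆ U) ρ ρ' := by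
  constructor
  · intro htr
    have h' : CommOn CC ρ' := by
      intro c hc c' hc'
      refine comm_of_commutator ρ' (eq_one_of_chr ρ' hρ' ?_)
      have hm : c * c' * c⁻¹ * c'⁻¹ ∈ Subgroup.closure CC := by
        have e1 : c ∈ Subgroup.closure CC := Subgroup.subset_closure hc
        have e2 : c' ∈ Subgroup.closure CC := Subgroup.subset_closure hc'
        exact Subgroup.mul_mem _ (Subgroup.mul_mem _ (Subgroup.mul_mem _ e1 e2) (Subgroup.inv_mem _ e1))
          (Subgroup.inv_mem _ e2)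
      have e3 : ρ (c * c' * c⁻¹ * c'⁻¹) = ρ 1 := by
        rw [map_mul, map_mul, map_mul, map_inv, map_inv, h c hc c' hc', map_one]
        group
      rw [← htr _ hm, ← htr 1 (Subgroup.one_mem _), chr, chr, e3]
    obtain ⟨M₁, hM₁, hM₁'⟩ := exists_M ρ hρ
    obtain ⟨M₂, hM₂, hM₂'⟩ := exists_M ρ' hρ'
    have hM := nAll_inf hM₁ hM₂
    have hf := comm_pair sysAll up_all ntU_all hM (lrep ρ) (lrep ρ')
      (fun g hg => lrep_one ρ g (hM₁' g hg.1)) (fun g hg => lrep_one ρ' g (hM₂' g hg.2))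
      (wt_top ρ h hM₁ hM₁') (wt_top ρ' h' hM₂ hM₂') (fun c hc => by
        rw [trace_lrep, trace_lrep]
        exact htr c hc)
    obtain ⟨K, hfd, hn, hK⟩ := top_nAll
    obtain ⟨K', -, hfd', hn', -, hfam⟩ :=
      famQ_of_fam sysAll rfl (fun M hM => hM) (K := K) (by rw [← hK]; exact top_nAll) hf
    simp only [trace_lrep] at hfam
    exact ⟨K', ⟨hfd', isGalois_iff.2 ⟨inferInstance, hn'⟩⟩, decomp_of_famQ K' _ _ (fun _ h => h) ρ ρ' hfam⟩
  · rintro ⟨K, -, m, n, U, χ, χ', h1, h2⟩ g hg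
    have h3 := h2 g
    rw [← sub_eq_zero, h3]
    refine Finset.sum_eq_zero fun i _ => ?_
    have h4 := ind_closure_eq sysAll (h1 i).1 (χ i) (χ' i) (fun s hs hsS => (h1 i).2.2.2.2 s hs hsS) hg
    change (n i : ℂ) * (Ind (U i) (ext (U i) (χ i)) g - Ind (U i) (ext (U i) (χ' i)) g) = 0
    rw [h4, sub_self, mul_zero]

theorem cc_tower {d : ℕ} (ρ ρ' : Rp GQ d) (hρ : Continuous ρ) (hρ' : Continuous ρ') (h : CommOn CC ρ)
    (h' : CommOn CC ρ') (hc : ∀ c ∈ CC, chr ρ c = chr ρ' c) :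
    ∃ (k : ℕ) (K : IntermediateField ℚ Qb), 0 < k ∧ FinGal ℚ K ∧
      SigTower (Γ := GQ) CC K.fixingSubgroup (fun g => (k : ℂ) * (chr ρ g - chr ρ' g)) := by
  have h1 := mon_add sysAll _ (mon_chr ρ hρ h) (mon_zmul sysAll _ (-1) (mon_chr ρ' hρ' h'))
  obtain ⟨K, ⟨hfd, hgal⟩, m, n, U, χ, h2, h3⟩ := comb_of_mon h1
  refine ct3_one (fun g => chr ρ g - chr ρ' g) K.fixingSubgroup (IntermediateField.fixingSubgroup_isOpen K) ?_
    (fun c hcc => sub_eq_zero.2 (hc c hcc)) ⟨1, one_pos, m, n, U, χ,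
      fun i => ⟨TTower.base (h2 i).1, (h2 i).2.1, (h2 i).2.2⟩, fun g => ?_⟩
  · simp only [chr, map_one, sub_self]
  · rw [← h3 g]
    push_cast
    ring

theorem cc_unit {d : ℕ} (ρ : Rp GQ d) (hρ : Continuous ρ) (h : CommOn CC ρ) :
    ∃ K : IntermediateField ℚ Qb, FinGal ℚ K ∧ UnitComb (Γ := GQ) K.fixingSubgroup (fun U => CC ⊆ U) (fun g => chr ρ g - d) := by
  obtain ⟨m, n, U, χ, h1, h2, h3⟩ := mon_chr ρ hρ h
  have hfin : ∀ i, (U i).FiniteIndex := fun i => by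
    obtain ⟨M, hM, hMU, -⟩ := h2 i
    exact fin_of_N sysAll hM hMU
  have e1 : (d : ℂ) = ∑ i, (n i : ℂ) * ((U i).index : ℂ) := by
    have h4 := h3 1
    rw [chr, map_one, Units.val_one, Matrix.trace_one, Fintype.card_fin] at h4
    rw [h4]
    refine Finset.sum_congr rfl fun i _ => ?_
    rw [← ind_ext_one_one_B1 (hfin i)]
    congr 1
    unfold Ind
    refine finsum_congr fun q => ?_
    have e : q.out⁻¹ * 1 * q.out = 1 := by group
    rw [e, ext_mem _ (U i).one_mem, ext_mem _ (U i).one_mem]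
    have h5 : (⟨1, (U i).one_mem⟩ : U i) = 1 := rfl
    rw [h5, map_one, map_one]
  have k1 : ∀ i, Fam sysE (fun U => CC ⊆ U) (fun g => Ind (U i) (ext (U i) (χ i)) g - Ind (U i) (ext (U i) 1) g) := by
    intro i
    refine fam_of_fintype_A2 sysE _ (ι := Unit) (fun _ => 1) (fun _ => U i) (fun _ => χ i) (fun _ => 1)
      (fun _ => h1 i) (fun _ => h2 i) (fun _ => ?_) (fun _ s _ hs => absurd hs (Set.notMem_empty s)) fun g => by simp
    obtain ⟨M, hM, hMU, -⟩ := h2 i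
    exact ⟨M, hM, hMU, fun _ _ _ => rfl⟩
  have k2 : ∀ i, Fam sysE (fun U => CC ⊆ U) (fun g => Ind (U i) (ext (U i) 1) g - ((U i).index : ℂ)) := by
    intro i
    obtain ⟨M, hM, hMU, -⟩ := h2 i
    exact famE_of_fam (D := sysAll) rfl (ind_one_fam sysAll up_all hM hMU (h1 i))
  refine unit_of_famE (fam_congr (fam_add sysE _ (fam_sum sysE _ n _ k1) (fam_sum sysE _ n _ k2)) fun g => ?_)
  rw [h3 g, e1, ← Finset.sum_add_distrib, ← Finset.sum_sub_distrib]
  exact Finset.sum_congr rfl fun i _ => by ring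

/-- The matrix representation attached to a linear representation. -/
noncomputable def matRep {G : Type*} [Group G] {X : Type*} [AddCommGroup X] [Module ℂ X] [FiniteDimensional ℂ X]
    (τ : G →* (X →ₗ[ℂ] X)) : Rp G (Module.finrank ℂ X) :=
  MonoidHom.toHomUnits (((LinearMap.toMatrixAlgEquiv (Module.finBasis ℂ X)).toMonoidHom).comp τ)

theorem chr_matRep {G : Type*} [Group G] {X : Type*} [AddCommGroup X] [Module ℂ X] [FiniteDimensional ℂ X]
    (τ : G →* (X →ₗ[ℂ] X)) (g : G) : chr (matRep τ) g = LinearMap.trace ℂ X (τ g) := by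
  rw [LinearMap.trace_eq_matrix_trace ℂ (Module.finBasis ℂ X)]
  rfl

theorem matRep_one {G : Type*} [Group G] {X : Type*} [AddCommGroup X] [Module ℂ X] [FiniteDimensional ℂ X]
    (τ : G →* (X →ₗ[ℂ] X)) {g : G} (h : τ g = 1) : matRep τ g = 1 := by
  apply Units.ext
  change LinearMap.toMatrixAlgEquiv (Module.finBasis ℂ X) (τ g) = 1
  rw [h]
  exact map_one _

theorem cc_real {d : ℕ} (ρ : Rp GQ d) (hρ : Continuous ρ) (h : CommOn CC ρ) :
    ∃ K : IntermediateField ℚ Qb, FinGal ℚ K ∧ RealDecomp (Γ := GQ) CC K.fixingSubgroup ρ := by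
  obtain ⟨M, hM, hM1⟩ := exists_M ρ hρ
  obtain ⟨m, U, ε, χ, hj, e₁, -⟩ := weights_common sysAll ntU_all hM (lrep ρ) (lrep ρ)
    (fun g hg => lrep_one ρ g (hM1 g hg)) (fun g hg => lrep_one ρ g (hM1 g hg)) (wt_top ρ h hM hM1)
    (wt_top ρ h hM hM1)
  choose a1 a2 a3 a4 a5 a6 a7 using hj
  choose M' hM' hM'U hχM using a3
  obtain ⟨N, hN, hNM, hcom⟩ := exists_common sysAll hM M' hM'
  obtain ⟨K, hfd, hn, rfl⟩ := hN
  refine ⟨K, ⟨hfd, isGalois_iff.2 ⟨inferInstance, hn⟩⟩, m, U, χ, fun j => Module.finrank ℂ _,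
    fun j => matRep (twRep (lrep ρ) (U j) _ (a6 j) (χ j)), fun j => ⟨a1 j, hNM.trans (a2 j),
      fun g hg hgN => hχM j g hg (hcom j hgN), a4 j, fun g hg hor => ?_⟩, fun g => ?_⟩
  · apply matRep_one
    exact twRep_triv sysAll (lrep ρ) (fun g hg => lrep_one ρ g (hM1 g hg)) (ε j) (χ j) (hχM j) (a4 j) (a5 j) (a6 j) g hg
      (hor.imp id fun hgN => ⟨hNM hgN, hcom j hgN⟩)
  · have h1 := e₁ g
    rw [trace_lrep] at h1
    change chr ρ g = _ at h1
    rw [h1]
    refine Finset.sum_congr rfl fun j _ => ?_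
    rw [trx_eq_exz (lrep ρ) (U j) _ (a6 j) (χ j) (a4 j)]
    unfold IndTw
    simp only [chr_matRep]

end SB
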