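import Pool.Agent.Helper21.CT.B2
import Pool.Agent.Helper21.CT.K4
import Pool.Agent.Helper21.CC.Base
import Pool.Agent.Helper21.SB.Fin

/-!
# CC-N1: functions on `U ⊇ S` vanishing on `S`: one step of index two suffices
-/

namespace SB

universe u

/-- `U` is contained with index one or two in a subgroup which contains `S`. -/
def QuadOver {Γ : Type*} [Group Γ] (S : Set Γ) (U : Subgroup Γ) : Prop :=
  ∃ W : Subgroup Γ, S ⊆ W ∧ U ≤ W ∧ (U = W ∨ U.relIndex W = 2)

section
variable {Γ : Type u} [Group Γ]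

theorem quadOver_self {S : Set Γ} {U : Subgroup Γ} (h : S ⊆ U) : QuadOver S U := ⟨U, h, le_rfl, Or.inl rfl⟩

theorem quadOver_step {S : Set Γ} {W U : Subgroup Γ} {t : Γ} (hS : S ⊆ U) (h : IsStep 2 W U t) : QuadOver S W := by
  refine ⟨U, hS, h.le, Or.inr ?_⟩
  exact relIndex_of_isStep_two h

/-- The function `φ` of `U` has an induced function in the family. -/
def GQ2 (D : Sys Γ) (U : Subgroup Γ) (φ : Γ → ℂ) : Prop := Fam D (QuadOver D.S) (Ind U φ)

theorem gq_add {D : Sys Γ} {U : Subgroup Γ} (hU : U.FiniteIndex) {φ ψ : Γ → ℂ} (h : GQ2 D U φ) (h' : GQ2 D U ψ) :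
    GQ2 D U (φ + ψ) :=
  fam_congr (fam_add D _ h h') fun g => Ind_add_A2 hU φ ψ g

theorem gq_zsmul {D : Sys Γ} {U : Subgroup Γ} (n : ℤ) {φ : Γ → ℂ} (h : GQ2 D U φ) : GQ2 D U (n • φ) :=
  fam_congr (fam_zmul D _ n h) fun g => Ind_smul U n φ g

theorem gq_sub {D : Sys Γ} {U : Subgroup Γ} (hU : U.FiniteIndex) {φ ψ : Γ → ℂ} (h : GQ2 D U φ) (h' : GQ2 D U ψ) :
    GQ2 D U (φ - ψ) := by
  have := gq_add hU h (gq_zsmul (-1) h')
  rwa [neg_one_smul, ← sub_eq_add_neg] at this

theorem gq_zero (D : Sys Γ) (U : Subgroup Γ) : GQ2 D U 0 :=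
  fam_congr (fam_zero D _) fun g => by
    unfold Ind
    simp

theorem gq_sum {D : Sys Γ} {U : Subgroup Γ} (hU : U.FiniteIndex) {ι : Type*} (s : Finset ι) (φ : ι → Γ → ℂ)
    (h : ∀ i ∈ s, GQ2 D U (φ i)) : GQ2 D U (∑ i ∈ s, φ i) := by
  classical
  induction s using Finset.induction_on with
  | empty => simpa using gq_zero D U
  | insert a s ha ih =>
    rw [Finset.sum_insert ha]
    exact gq_add hU (h a (Finset.mem_insert_self a s)) (ih fun i hi => h i (Finset.mem_insert_of_mem hi))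

theorem gq_pair {D : Sys Γ} {U : Subgroup Γ} (hU : U.FiniteIndex) (hP : QuadOver D.S U) {χ χ' : U →* ℂˣ}
    (h : OpC D U χ) (h' : OpC D U χ') (hs : Sig D U χ χ') : GQ2 D U (ext U χ - ext U χ') := by
  refine fam_of_fintype_A2 D _ (ι := Unit) (fun _ => 1) (fun _ => U) (fun _ => χ) (fun _ => χ') (fun _ => hP)
    (fun _ => h) (fun _ => h') (fun _ => hs) fun g => ?_
  rw [Ind_sub_A2 hU]
  simp

open Daux in
/-- The relation between sign characters without common negative place. -/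
theorem addit2 (D : Sys Γ) {U : Subgroup Γ} (hU : U.FiniteIndex) (hSU : D.S ⊆ U) (x y : U →* ℤˣ)
    (hx : OpC D U (qc x)) (hy : OpC D U (qc y))
    (hdis : ∀ s (h : s ∈ U), s ∈ D.S → ¬ (x ⟨s, h⟩ = -1 ∧ y ⟨s, h⟩ = -1)) :
    GQ2 D U (ext U 1 + ext U (qc (x * y)) - ext U (qc x) - ext U (qc y)) := by
  by_cases hxy : ∀ u : U, x u = y u
  · have hB : GQ2 D U (ext U 1 - ext U (qc x)) := by
      refine gq_pair hU (quadOver_self hSU) ?_ hx ?_
      · obtain ⟨M, hM, hMU, _⟩ := hx
        exact ⟨M, hM, hMU, fun g h _ => rfl⟩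
      · intro s h hs
        have h1 : x ⟨s, h⟩ = 1 := by
          apply one_of_not_neg
          intro h2
          exact hdis s h hs ⟨h2, by rw [← hxy]; exact h2⟩
        rw [(qc_eq_one x ⟨s, h⟩).2 h1]
        rfl
    have hT : GQ2 D U (ext U 1 - ext U (qc x) + (ext U 1 - ext U (qc x))) := gq_add hU hB hB
    convert hT using 1
    funext g
    simp only [Pi.add_apply, Pi.sub_apply]
    by_cases hg : g ∈ U
    · rw [ext_mem _ hg, ext_mem _ hg, ext_mem _ hg, ext_mem _ hg, qc_val, qc_val, qc_val,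
        MonoidHom.mul_apply, ← hxy ⟨g, hg⟩]
      rcases Int.units_eq_one_or (x ⟨g, hg⟩) with a | a
      · rw [a]; simp
      · rw [a]; simp; ring
    · rw [ext_not_mem _ hg, ext_not_mem _ hg, ext_not_mem _ hg, ext_not_mem _ hg]
      ring
  · push Not at hxy
    obtain ⟨⟨t, ht⟩, hxy⟩ := hxy
    have hstep := step_agree ht hxy
    set W := agree U x y with hW
    have hWU : W ≤ U := hstep.le
    have hWf : W.FiniteIndex := finiteIndex_step hstep hU
    let z : W →* ℂˣ := (qc x).comp (Subgroup.inclusion hWU)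
    have hz : ∀ g (h : g ∈ W), z ⟨g, h⟩ = qc x ⟨g, hWU h⟩ := fun g h => rfl
    have hB : GQ2 D W (ext W 1 - ext W z) := by
      obtain ⟨M, hM, hMU, hM2⟩ := hx
      obtain ⟨M', hM', hMU', hM2'⟩ := hy
      have hMW : M ⊓ M' ≤ W := by
        intro g hg
        refine ⟨hMU hg.1, ?_⟩
        have h1 := (qc_eq_one x ⟨g, hMU hg.1⟩).1 (hM2 g (hMU hg.1) hg.1)
        have h2 := (qc_eq_one y ⟨g, hMU hg.1⟩).1 (hM2' g (hMU hg.1) hg.2)
        rw [h1, h2]
      refine gq_pair hWf (quadOver_step hSU hstep) ⟨M ⊓ M', D.inf M hM M' hM', hMW, fun g h _ => rfl⟩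
        ⟨M ⊓ M', D.inf M hM M' hM', hMW, ?_⟩ ?_
      · intro g h hg
        rw [hz]
        exact hM2 g (hWU h) hg.1
      · intro s h hs
        rw [hz]
        obtain ⟨h1, h2⟩ := h
        have h3 : x ⟨s, h1⟩ = 1 := by
          apply one_of_not_neg
          intro h4
          exact hdis s h1 hs ⟨h4, by rw [← h2]; exact h4⟩
        rw [(qc_eq_one x ⟨s, h1⟩).2 h3]
        rfl
    have hcls : Cls W (ext W 1 - ext W z) := by
      rw [sub_eq_add_neg]
      exact cls_add_A2 (cls_ext _ _) (cls_neg_A2 (cls_ext _ _))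
    have hT : GQ2 D U (∑ k ∈ Finset.range 2, cj (t ^ k) (ext W 1 - ext W z)) := by
      unfold GQ2 at hB ⊢
      rw [Ind_step (by norm_num) hU hstep hcls]
      exact hB
    convert hT using 1
    funext g
    rw [Finset.sum_range_succ, Finset.sum_range_one]
    simp only [Pi.add_apply, Pi.sub_apply, cj_apply, pow_zero, pow_one, inv_one, one_mul, mul_one]
    by_cases hg : g ∈ U
    · have hgt : t⁻¹ * g * t ∈ U := U.mul_mem (U.mul_mem (U.inv_mem ht) hg) ht
      rw [ext_mem _ hg, ext_mem _ hg, ext_mem _ hg, ext_mem _ hg, qc_val, qc_val, qc_val,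
        MonoidHom.mul_apply]
      by_cases hgW : g ∈ W
      · have hgtW : t⁻¹ * g * t ∈ W := by
          refine ⟨hgt, ?_⟩
          obtain ⟨h1, h2⟩ := hgW
          rw [conj_val' x ht hg, conj_val' y ht hg]
          exact h2
        rw [ext_mem _ hgW, ext_mem _ hgW, ext_mem _ hgtW, ext_mem _ hgtW, hz, hz, qc_val, qc_val,
          conj_val' x ht hg]
        have h2 : x ⟨g, hg⟩ = y ⟨g, hg⟩ := by
          obtain ⟨_, h2⟩ := hgW
          exact h2
        rw [← h2]
        rcases Int.units_eq_one_or (x ⟨g, hg⟩) with a | a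
        · rw [a]; simp
        · rw [a]; simp; ring
      · have hgtW : t⁻¹ * g * t ∉ W := by
          rintro ⟨h1, h2⟩
          apply hgW
          refine ⟨hg, ?_⟩
          rw [conj_val' x ht hg, conj_val' y ht hg] at h2
          exact h2
        rw [ext_not_mem _ hgW, ext_not_mem _ hgW, ext_not_mem _ hgtW, ext_not_mem _ hgtW]
        have h2 : x ⟨g, hg⟩ ≠ y ⟨g, hg⟩ := fun h => hgW ⟨hg, h⟩
        rcases Int.units_eq_one_or (x ⟨g, hg⟩) with a | a <;>
          rcases Int.units_eq_one_or (y ⟨g, hg⟩) with b | b <;> rw [a, b] at h2 ⊢ <;> simp_all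
    · have hgt : t⁻¹ * g * t ∉ U := by
        intro h
        apply hg
        have h1 := U.mul_mem (U.mul_mem ht h) (U.inv_mem ht)
        have h2 : t * (t⁻¹ * g * t) * t⁻¹ = g := by group
        rwa [h2] at h1
      have hgW : g ∉ W := fun h => hg (hWU h)
      have hgtW : t⁻¹ * g * t ∉ W := fun h => hgt (hWU h)
      rw [ext_not_mem _ hg, ext_not_mem _ hg, ext_not_mem _ hg, ext_not_mem _ hg,
        ext_not_mem _ hgW, ext_not_mem _ hgW, ext_not_mem _ hgtW, ext_not_mem _ hgtW]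
      ring

end

end SB
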