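import Pool.Agent.Helper21.CC.E
import Pool.Agent.Helper21.CT.Stmt
import Pool.Agent.Helper21.SB.Fin

/-!
# CC-N10: a congruence for families over towers of cyclic steps of prime degree
-/

namespace SB

universe u

/-- A function with integral values, invariant under a permutation of order a power of `p` and zero at the fixed
points, has sum divisible by `p`. -/
theorem n10_sum {X : Type*} [Fintype X] {p : ℕ} (hp : p.Prime) {a : ℕ} (π : Equiv.Perm X) (hπ : π ^ (p ^ a) = 1)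
    (F : X → ℂ) (hF : ∀ q, F (π q) = F q) (hint : ∀ q, IsIntegral ℤ (F q)) (h0 : ∀ q, π q = q → F q = 0) :
    ∃ y : ℂ, IsIntegral ℤ y ∧ ∑ q, F q = p * y := by
  classical
  have hfact : Fact p.Prime := ⟨hp⟩
  have hdvd : ∀ w : ℂ, w ≠ 0 → p ∣ (Finset.univ.filter fun q => F q = w).card := by
    intro w hw
    let σ : Equiv.Perm {q // F q = w} := π.subtypePerm fun x => by rw [hF]
    have hσv : ∀ x, ((σ x : {q // F q = w}) : X) = π x := fun x => rfl
    have hσ : σ ^ (p ^ a) = 1 := by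
      have h1 : ∀ (n : ℕ) x, (((σ ^ n) x : {q // F q = w}) : X) = (π ^ n) x := by
        intro n
        induction n with
        | zero => intro x; rfl
        | succ n ih =>
          intro x
          rw [pow_succ, pow_succ, Equiv.Perm.mul_apply, Equiv.Perm.mul_apply, ih, hσv]
      ext x
      rw [h1, hπ]
      rfl
    have h2 := Equiv.Perm.card_compl_support_modEq hσ
    have h3 : σ.supportᶜ = ∅ := by
      rw [Finset.eq_empty_iff_forall_notMem]
      intro x hx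
      rw [Finset.mem_compl, Equiv.Perm.mem_support, not_not] at hx
      have h4 := h0 x (by rw [← hσv, hx])
      rw [x.2] at h4
      exact hw h4
    rw [h3, Finset.card_empty, Fintype.card_subtype] at h2
    exact (Nat.modEq_zero_iff_dvd).1 h2.symm
  have h1 := Finset.sum_comp (fun w : ℂ => w) F (s := Finset.univ)
  refine ⟨∑ w ∈ Finset.univ.image F, (((Finset.univ.filter fun q => F q = w).card / p : ℕ) : ℂ) * w, ?_, ?_⟩
  · refine IsIntegral.sum _ fun w hw => ?_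
    obtain ⟨q, -, rfl⟩ := Finset.mem_image.1 hw
    refine IsIntegral.mul ?_ (hint q)
    exact isIntegral_algebraMap (R := ℤ) (A := ℂ) (x := ((Finset.univ.filter fun q' => F q' = F q).card / p : ℕ))
  · rw [h1, Finset.mul_sum]
    refine Finset.sum_congr rfl fun w _ => ?_
    rw [nsmul_eq_mul]
    by_cases hw : w = 0
    · rw [hw, mul_zero, mul_zero, mul_zero]
    · obtain ⟨k, hk⟩ := hdvd w hw
      rw [hk, Nat.mul_div_cancel_left _ hp.pos]
      push_cast
      ring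

section
variable {Γ : Type u} [Group Γ]

theorem n10_tower {D : Sys Γ} {p : ℕ} (hp : p.Prime) (hp2 : p ≠ 2) {M U : Subgroup Γ} (hU : CycTower D.S U) :
    M ≤ U → ∀ {c σ : Γ} {a : ℕ}, c ∈ D.S → σ ^ (p ^ a) ∈ M → c * σ ∈ U → c ∈ U ∧ σ ∈ U := by
  induction hU with
  | base hS =>
    intro _ c σ a hc _ h
    refine ⟨hS hc, ?_⟩
    have h1 := Subgroup.mul_mem _ (Subgroup.inv_mem _ (hS hc)) h
    rwa [inv_mul_cancel_left] at h1
  | @step W U hU hst ih =>
    intro hM c σ a hc hσ h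
    obtain ⟨hle, hn, hprime⟩ := hst
    obtain ⟨hcU, hσU⟩ := ih (hM.trans hle) hc hσ (hle h)
    obtain ⟨t, ht⟩ := exists_isStep hle hn hprime
    by_cases h2 : W.relIndex U = 2
    · rw [h2] at ht
      have hσW : σ ∈ W := by
        have hsq : σ * σ ∈ W := (f1_mul_mem_iff ht hσU hσU).2 Iff.rfl
        obtain ⟨k, hk⟩ := (hp.odd_of_ne_two hp2).pow (n := a)
        have h3 := hM hσ
        rw [hk, pow_succ, pow_mul, pow_two] at h3
        have h4 := W.mul_mem (W.inv_mem (W.pow_mem hsq k)) h3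
        rwa [inv_mul_cancel_left] at h4
      refine ⟨?_, hσW⟩
      have h3 := W.mul_mem h (W.inv_mem hσW)
      rwa [mul_inv_cancel_right] at h3
    · have hcW := mem_of_odd hprime h2 ht (D.sq c hc) hcU
      refine ⟨hcW, ?_⟩
      have h1 := W.mul_mem (W.inv_mem hcW) h
      rwa [inv_mul_cancel_left] at h1

theorem n10_int {D : Sys Γ} {M U : Subgroup Γ} (hM : M ∈ D.N) (χ : U →* ℂˣ)
    (h1 : ∀ g (h : g ∈ U), g ∈ M → χ ⟨g, h⟩ = 1) (g : Γ) : IsIntegral ℤ (ext U χ g) := by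
  by_cases hg : g ∈ U
  · rw [ext_mem χ hg]
    have hMn := D.normal M hM
    obtain ⟨n, hn, hgn⟩ : ∃ n, 0 < n ∧ g ^ n ∈ M :=
      ⟨M.index, Nat.pos_of_ne_zero (D.fin M hM).index_ne_zero, Subgroup.pow_index_mem M g⟩
    refine IsIntegral.of_pow hn ?_
    have h2 : χ ⟨g, hg⟩ ^ n = 1 := by
      rw [← map_pow]
      exact h1 (g ^ n) (U.pow_mem hg n) hgn
    rw [← Units.val_pow_eq_pow_val, h2, Units.val_one]
    exact isIntegral_one
  · rw [ext_not_mem χ hg]
    exact isIntegral_zero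

theorem n10_one (D : Sys Γ) {p : ℕ} (hp : p.Prime) (hp2 : p ≠ 2) {M U : Subgroup Γ} (hM : M ∈ D.N) (hMU : M ≤ U)
    (hU : CycTower D.S U) (χ χ' : U →* ℂˣ) (h1 : ∀ g (h : g ∈ U), g ∈ M → χ ⟨g, h⟩ = 1)
    (h1' : ∀ g (h : g ∈ U), g ∈ M → χ' ⟨g, h⟩ = 1) (hs : Sig D U χ χ') {c σ : Γ} {a r t : ℕ} (hc : c ∈ D.S)
    (hσ : σ ^ (p ^ a) ∈ M) (hr : ¬ p ∣ r) (hr2 : 2 ∣ r) (hτ : (c * σ) ^ (p ^ a * r) ∈ M) (ht : p ^ a ∣ t)
    (ht1 : t ≡ 1 [MOD r]) :
    ∃ y : ℂ, IsIntegral ℤ y ∧ Ind U (ext U χ) ((c * σ) ^ t) - Ind U (ext U χ') ((c * σ) ^ t) = p * y := by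
  classical
  have hMn := D.normal M hM
  have hUf := fin_of_N D hM hMU
  have : Finite (Γ ⧸ U) := U.finite_quotient_of_finiteIndex
  have : Fintype (Γ ⧸ U) := Fintype.ofFinite _
  set τ := c * σ with hτdef
  have hr0 : 0 < r := Nat.pos_of_ne_zero fun h => hr (h ▸ dvd_zero p)
  have hcop : Nat.Coprime (p ^ a) r := Nat.Coprime.pow_left a ((Nat.Prime.coprime_iff_not_dvd hp).2 hr)
  obtain ⟨t', ht'1, ht'0⟩ := Nat.chineseRemainder hcop 1 0
  have hrt' : r ∣ t' := (Nat.modEq_zero_iff_dvd).1 ht'0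
  have hsum : 1 ≡ t + t' [MOD p ^ a * r] := by
    rw [← Nat.modEq_and_modEq_iff_modEq_mul hcop]
    constructor
    · have h2 : 0 ≡ t [MOD p ^ a] := ((Nat.modEq_zero_iff_dvd).2 ht).symm
      have h3 := h2.add ht'1.symm
      rwa [zero_add] at h3
    · have h3 := ht1.symm.add ht'0.symm
      rwa [add_zero] at h3
  have hge : 1 ≤ t + t' := by
    by_contra h2
    have h3 : t + t' = 0 := by omega
    rw [h3] at hsum
    have h4 : p ^ a * r ∣ 1 := (Nat.modEq_zero_iff_dvd).1 hsum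
    have h5 : r ∣ 1 := dvd_trans (dvd_mul_left _ _) h4
    have h6 : 2 ∣ 1 := dvd_trans hr2 h5
    omega
  obtain ⟨k, hk⟩ := (Nat.modEq_iff_dvd' hge).1 hsum
  have htt : t + t' = 1 + p ^ a * r * k := by omega
  -- the `p`-part
  set π := MulAction.toPermHom Γ (Γ ⧸ U) (τ ^ t') with hπ
  have hπ1 : π ^ (p ^ a) = 1 := by
    rw [hπ, ← map_pow, ← pow_mul]
    obtain ⟨s, hs'⟩ := hrt'
    have h2 : τ ^ (t' * p ^ a) ∈ M := by
      have h3 : t' * p ^ a = p ^ a * r * s := by rw [hs']; ring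
      rw [h3, pow_mul]
      exact M.pow_mem hτ s
    ext q
    obtain ⟨x, rfl⟩ := QuotientGroup.mk_surjective q
    rw [Equiv.Perm.one_apply]
    change ((τ ^ (t' * p ^ a) * x : Γ) : Γ ⧸ U) = (x : Γ ⧸ U)
    rw [QuotientGroup.eq]
    apply hMU
    have h4 := hMn.conj_mem _ (M.inv_mem h2) x⁻¹
    have h5 : x⁻¹ * (τ ^ (t' * p ^ a))⁻¹ * x⁻¹⁻¹ = (τ ^ (t' * p ^ a) * x)⁻¹ * x := by group
    rwa [h5] at h4
  have hcls : Cls U (ext U χ - ext U χ') := by
    rw [sub_eq_add_neg]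
    exact cls_add_A2 (cls_ext _ _) (cls_neg_A2 (cls_ext _ _))
  obtain ⟨y, hy, hsumy⟩ := n10_sum hp π hπ1
    (fun q : Γ ⧸ U => (ext U χ - ext U χ') (q.out⁻¹ * τ ^ t * q.out)) (fun q => by
      have h2 : (τ ^ t' * q.out)⁻¹ * (π q).out ∈ U := by
        rw [← QuotientGroup.eq, QuotientGroup.out_eq']
        conv_rhs => rw [hπ, ← QuotientGroup.out_eq' q]
        rfl
      rw [cls_coset_A1 hcls h2]
      refine congrArg _ ?_
      have h3 : (τ ^ t')⁻¹ * τ ^ t * τ ^ t' = τ ^ t := by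
        rw [mul_assoc, ← pow_add, add_comm, pow_add, inv_mul_cancel_left]
      calc (τ ^ t' * q.out)⁻¹ * τ ^ t * (τ ^ t' * q.out)
          = q.out⁻¹ * ((τ ^ t')⁻¹ * τ ^ t * τ ^ t') * q.out := by group
        _ = q.out⁻¹ * τ ^ t * q.out := by rw [h3]) (fun q => by
      rw [Pi.sub_apply]
      exact (n10_int hM χ h1 _).sub (n10_int hM χ' h1' _)) (fun q hq => by
      set g := q.out with hg
      have hfix : g⁻¹ * τ ^ t' * g ∈ U := by
        have h2 : ((τ ^ t' * g : Γ) : Γ ⧸ U) = (g : Γ ⧸ U) := by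
          have h3 : (g : Γ ⧸ U) = q := QuotientGroup.out_eq' q
          rw [h3]
          conv_rhs => rw [← hq]
          rw [hπ]
          conv_rhs => rw [← h3]
          rfl
        rw [QuotientGroup.eq] at h2
        have h3 := U.inv_mem h2
        have h4 : ((τ ^ t' * g)⁻¹ * g)⁻¹ = g⁻¹ * τ ^ t' * g := by group
        rwa [h4] at h3
      rw [Pi.sub_apply]
      by_cases hz : g⁻¹ * τ ^ t * g ∈ U
      · have hτg : g⁻¹ * τ * g ∈ U := by
          have h2 := U.mul_mem hz hfix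
          have h3 : g⁻¹ * τ ^ t * g * (g⁻¹ * τ ^ t' * g) = (g⁻¹ * τ * g) * (g⁻¹ * (τ ^ (p ^ a * r)) ^ k * g) := by
            have h4 : τ ^ t * τ ^ t' = τ * (τ ^ (p ^ a * r)) ^ k := by
              rw [← pow_add, htt, pow_add, pow_one, pow_mul]
            calc g⁻¹ * τ ^ t * g * (g⁻¹ * τ ^ t' * g) = g⁻¹ * (τ ^ t * τ ^ t') * g := by group
              _ = _ := by rw [h4]; group
          rw [h3] at h2
          have h5 : g⁻¹ * (τ ^ (p ^ a * r)) ^ k * g ∈ U := by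
            apply hMU
            have h6 := hMn.conj_mem _ (M.pow_mem hτ k) g⁻¹
            rwa [inv_inv] at h6
          have h6 := U.mul_mem h2 (U.inv_mem h5)
          rwa [mul_inv_cancel_right] at h6
        have hcS : g⁻¹ * c * g ∈ D.S := by
          have h2 := D.conj c hc g⁻¹
          rwa [inv_inv] at h2
        have hconj : ∀ n : ℕ, (g⁻¹ * σ * g) ^ n = g⁻¹ * σ ^ n * g := by
          intro n
          have h2 := conj_pow (a := g⁻¹) (b := σ) (i := n)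
          rwa [inv_inv] at h2
        have hσM : (g⁻¹ * σ * g) ^ (p ^ a) ∈ M := by
          rw [hconj]
          have h2 := hMn.conj_mem _ hσ g⁻¹
          rwa [inv_inv] at h2
        have hprod : g⁻¹ * c * g * (g⁻¹ * σ * g) = g⁻¹ * τ * g := by
          rw [hτdef]
          group
        obtain ⟨hcU, hσU⟩ := n10_tower hp hp2 hU hMU hcS hσM (by rw [hprod]; exact hτg)
        have hval : ∀ θ : U →* ℂˣ, (∀ g (h : g ∈ U), g ∈ M → θ ⟨g, h⟩ = 1) →
            θ ⟨g⁻¹ * τ ^ t * g, hz⟩ = θ ⟨g⁻¹ * c * g, hcU⟩ ^ t := by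
          intro θ hθ
          have h2 : (⟨g⁻¹ * τ ^ t * g, hz⟩ : U) = (⟨g⁻¹ * c * g, hcU⟩ * ⟨g⁻¹ * σ * g, hσU⟩) ^ t := by
            apply Subtype.ext
            rw [Subgroup.coe_pow, Subgroup.coe_mul, hprod]
            have h3 := conj_pow (a := g⁻¹) (b := τ) (i := t)
            rw [inv_inv] at h3
            exact h3.symm
          rw [h2, map_pow, map_mul, mul_pow]
          have h3 : θ ⟨g⁻¹ * σ * g, hσU⟩ ^ t = 1 := by
            obtain ⟨s, hs'⟩ := ht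
            rw [hs', pow_mul, ← map_pow]
            have h4 : θ (⟨g⁻¹ * σ * g, hσU⟩ ^ (p ^ a)) = 1 :=
              hθ _ (U.pow_mem hσU _) hσM
            rw [h4, one_pow]
          rw [h3, mul_one]
        rw [ext_mem χ hz, ext_mem χ' hz, hval χ h1, hval χ' h1', hs _ hcU hcS, sub_self]
      · rw [ext_not_mem χ hz, ext_not_mem χ' hz, sub_self])
  refine ⟨y, hy, ?_⟩
  rw [← hsumy, ← Ind_sub_A2 hUf]
  unfold Ind
  rw [finsum_eq_sum_of_fintype]

theorem fam_tau (D : Sys Γ) {p : ℕ} (hp : p.Prime) (hp2 : p ≠ 2) {v : Γ → ℂ} (hv : Fam D (CycTower D.S) v)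
    {M : Subgroup Γ} (hM : M ∈ D.N) : ∃ M' ∈ D.N, M' ≤ M ∧ ∀ (c σ : Γ) (a r t : ℕ), c ∈ D.S →
      σ ^ (p ^ a) ∈ M' → ¬ p ∣ r → 2 ∣ r → (c * σ) ^ (p ^ a * r) ∈ M' → p ^ a ∣ t → t ≡ 1 [MOD r] →
      ∃ y : ℂ, IsIntegral ℤ y ∧ v ((c * σ) ^ t) = p * y := by
  obtain ⟨m, n, U, χ, χ', h1, h2, h3, h4, h5⟩ := hv
  choose M1 hM1 hM1U hM1χ using h2
  choose M2 hM2 hM2U hM2χ using h3
  obtain ⟨M', hM', hle, hcom⟩ := exists_common D hM (fun i => M1 i ⊓ M2 i) fun i => D.inf _ (hM1 i) _ (hM2 i)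
  refine ⟨M', hM', hle, fun c σ a r t hc hσ hr hr2 hτ ht ht1 => ?_⟩
  have key := fun i => n10_one D hp hp2 hM' ((hcom i).trans (inf_le_left.trans (hM1U i))) (h1 i) (χ i) (χ' i)
    (fun g h hg => hM1χ i g h (hcom i hg).1) (fun g h hg => hM2χ i g h (hcom i hg).2) (h4 i) hc hσ hr hr2 hτ ht ht1
  choose y hy hyv using key
  refine ⟨∑ i, (n i : ℂ) * y i, IsIntegral.sum _ fun i _ => ?_, ?_⟩
  · exact (isIntegral_algebraMap (R := ℤ) (A := ℂ) (x := n i)).mul (hy i)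
  · rw [h5, Finset.mul_sum]
    refine Finset.sum_congr rfl fun i _ => ?_
    rw [hyv]
    ring

end

end SB
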