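import Pool.Agent.Helper21.CC.N7
import Pool.Agent.Helper21.CC.N10

/-!
# CC-N11: the odd multiple is necessary
-/

namespace SB

universe u

section
variable {Γ : Type u} [Group Γ]

/-- The order modulo `U`. -/
theorem order_mod {U : Subgroup Γ} (hU : U.Normal) {p : ℕ} (hp : p.Prime) {σ : Γ} (hσ : σ ∉ U) (hσp : σ ^ p ∈ U) :
    orderOf (QuotientGroup.mk σ : Γ ⧸ U) = p := by
  have h1 : (QuotientGroup.mk σ : Γ ⧸ U) ≠ 1 := fun h => hσ ((QuotientGroup.eq_one_iff σ).1 h)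
  have h2 : orderOf (QuotientGroup.mk σ : Γ ⧸ U) ∣ p := by
    rw [orderOf_dvd_iff_pow_eq_one, ← QuotientGroup.mk_pow]
    exact (QuotientGroup.eq_one_iff _).2 hσp
  rcases (Nat.dvd_prime hp).1 h2 with h3 | h3
  · exact absurd (orderOf_eq_one_iff.1 h3) h1
  · exact h3

theorem pow_mem_iff_mk {U : Subgroup Γ} (hU : U.Normal) (σ γ : Γ) (l : ℕ) :
    σ ^ l * γ⁻¹ ∈ U ↔ (QuotientGroup.mk σ : Γ ⧸ U) ^ l = QuotientGroup.mk γ := by
  rw [← QuotientGroup.eq_one_iff, QuotientGroup.mk_mul, QuotientGroup.mk_pow, QuotientGroup.mk_inv,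
    mul_inv_eq_one]

theorem pow_unique {U : Subgroup Γ} (hU : U.Normal) {p : ℕ} (hp : p.Prime) {σ : Γ} (hσ : σ ∉ U) (hσp : σ ^ p ∈ U)
    (γ : Γ) {l l' : ℕ} (hl : l < p) (hl' : l' < p) (h : σ ^ l * γ⁻¹ ∈ U) (h' : σ ^ l' * γ⁻¹ ∈ U) : l = l' := by
  rw [pow_mem_iff_mk hU] at h h'
  have h4 : (QuotientGroup.mk σ : Γ ⧸ U) ^ l = (QuotientGroup.mk σ : Γ ⧸ U) ^ l' := by rw [h, h']
  rw [pow_eq_pow_iff_modEq, order_mod hU hp hσ hσp] at h4
  have h5 : l % p = l' % p := h4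
  rwa [Nat.mod_eq_of_lt hl, Nat.mod_eq_of_lt hl'] at h5

/-- The value of the character of `U` at the conjugates of a power of `τ`. -/
theorem val_tau (D : Sys Γ) (hcent : ∀ s ∈ D.S, ∀ g, g * s * g⁻¹ = s → g = 1 ∨ g = s) {p : ℕ} (hp : p.Prime)
    {U : Subgroup Γ} (hU : U.Normal) (hS : D.S ⊆ U) (x : U →* ℂˣ) {c₀ : Γ} (hc₀ : c₀ ∈ D.S)
    (hx : ∀ c (h : c ∈ U), c ∈ D.S → (x ⟨c, h⟩ = -1 ↔ ∃ u ∈ U, c = u * c₀ * u⁻¹))
    {M' : Subgroup Γ} (hM' : M'.Normal) (hMU : M' ≤ U) (hxM : ∀ g (h : g ∈ U), g ∈ M' → x ⟨g, h⟩ = 1)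
    {σ : Γ} {a t : ℕ} (hσ : σ ∉ U) (hσp : σ ^ p ∈ U) (hσM : σ ^ (p ^ a) ∈ M') (hta : p ^ a ∣ t) (ht : Odd t) (γ : Γ) :
    ext U x (γ⁻¹ * (c₀ * σ) ^ t * γ) = -1 ∧ (∃ l < p, σ ^ l * γ⁻¹ ∈ U) ∨
      ext U x (γ⁻¹ * (c₀ * σ) ^ t * γ) = 1 ∧ ¬ ∃ l < p, σ ^ l * γ⁻¹ ∈ U := by
  obtain ⟨c', hc'⟩ : ∃ c', c' = γ⁻¹ * c₀ * γ := ⟨_, rfl⟩
  obtain ⟨σ', hσ'⟩ : ∃ σ', σ' = γ⁻¹ * σ * γ := ⟨_, rfl⟩
  have hc'S : c' ∈ D.S := by
    have := D.conj c₀ hc₀ γ⁻¹
    rw [inv_inv] at this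
    rw [hc']; exact this
  have hpow : ∀ l : ℕ, σ' ^ l = γ⁻¹ * σ ^ l * γ := by
    intro l
    have := conj_pow (i := l) (a := γ⁻¹) (b := σ)
    rw [inv_inv] at this
    rw [hσ', this]
  have hσ'U : σ' ∉ U := by
    intro h
    apply hσ
    have := hU.conj_mem _ h γ
    have e : γ * σ' * γ⁻¹ = σ := by rw [hσ']; group
    rwa [e] at this
  have hσ'M : σ' ^ (p ^ a) ∈ M' := by
    have := hM'.conj_mem _ hσM γ⁻¹
    rw [inv_inv] at this
    rw [hpow]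
    exact this
  have hpU : σ' ^ p ∈ U := by
    have := hU.conj_mem _ hσp γ⁻¹
    rw [inv_inv] at this
    rw [hpow]
    exact this
  have hiff : ∀ l : ℕ, σ' ^ l * γ⁻¹ ∈ U ↔ σ ^ l * γ⁻¹ ∈ U := by
    intro l
    have e1 : σ' ^ l * γ⁻¹ = γ⁻¹ * (σ ^ l * γ⁻¹) * γ := by rw [hpow]; group
    rw [e1]
    constructor
    · intro h
      have := hU.conj_mem _ h γ
      have e2 : γ * (γ⁻¹ * (σ ^ l * γ⁻¹) * γ) * γ⁻¹ = σ ^ l * γ⁻¹ := by group
      rwa [e2] at this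
    · intro h
      have := hU.conj_mem _ h γ⁻¹
      rwa [inv_inv] at this
  have e0 : γ⁻¹ * (c₀ * σ) ^ t * γ = (c' * σ') ^ t := by
    have h1 := conj_pow (i := t) (a := γ⁻¹) (b := c₀ * σ)
    rw [inv_inv] at h1
    rw [← h1, hc', hσ']
    congr 1
    group
  -- the partial products
  have hmem : ∀ n : ℕ, (c' * σ') ^ n * (σ' ^ n)⁻¹ ∈ U := by
    intro n
    induction n with
    | zero => simp
    | succ n ih =>
      have e : (c' * σ') ^ (n + 1) * (σ' ^ (n + 1))⁻¹ =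
          ((c' * σ') ^ n * (σ' ^ n)⁻¹) * (σ' ^ n * c' * (σ' ^ n)⁻¹) := by
        rw [pow_succ, pow_succ]
        group
      rw [e]
      exact U.mul_mem ih (hS (D.conj c' hc'S _))
  have hcl : ∀ n : ℕ, σ' ^ n * c' * (σ' ^ n)⁻¹ ∈ U := fun n => hS (D.conj c' hc'S _)
  have hprod : ∀ n : ℕ, x ⟨_, hmem n⟩ = ∏ l ∈ Finset.range n, x ⟨_, hcl l⟩ := by
    intro n
    induction n with
    | zero =>
      have e : (⟨_, hmem 0⟩ : U) = 1 := Subtype.ext (by simp)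
      rw [e, map_one, Finset.prod_range_zero]
    | succ n ih =>
      rw [Finset.prod_range_succ, ← ih, ← map_mul]
      congr 1
      apply Subtype.ext
      change (c' * σ') ^ (n + 1) * (σ' ^ (n + 1))⁻¹ = ((c' * σ') ^ n * (σ' ^ n)⁻¹) * (σ' ^ n * c' * (σ' ^ n)⁻¹)
      rw [pow_succ, pow_succ]
      group
  -- the factors
  have hneg : ∀ l, x ⟨_, hcl l⟩ = -1 ↔ σ' ^ l * γ⁻¹ ∈ U := by
    intro l
    rw [hx _ (hcl l) (D.conj c' hc'S _)]
    constructor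
    · rintro ⟨u, hu, he⟩
      have h2 : (u⁻¹ * σ' ^ l * γ⁻¹) * c₀ * (u⁻¹ * σ' ^ l * γ⁻¹)⁻¹ = c₀ := by
        have e1 : (u⁻¹ * σ' ^ l * γ⁻¹) * c₀ * (u⁻¹ * σ' ^ l * γ⁻¹)⁻¹ =
            u⁻¹ * (σ' ^ l * (γ⁻¹ * c₀ * γ) * (σ' ^ l)⁻¹) * u := by group
        rw [e1, ← hc', he]
        group
      have h3 : u⁻¹ * σ' ^ l * γ⁻¹ ∈ U := by
        rcases hcent c₀ hc₀ _ h2 with h4 | h4
        · rw [h4]; exact U.one_mem
        · rw [h4]; exact hS hc₀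
      have e2 : σ' ^ l * γ⁻¹ = u * (u⁻¹ * σ' ^ l * γ⁻¹) := by group
      rw [e2]
      exact U.mul_mem hu h3
    · intro h
      refine ⟨σ' ^ l * γ⁻¹, h, ?_⟩
      rw [hc']
      group
  have hpos : ∀ l, ¬ σ' ^ l * γ⁻¹ ∈ U → x ⟨_, hcl l⟩ = 1 := by
    intro l hne
    have h5 : x ⟨_, hcl l⟩ * x ⟨_, hcl l⟩ = 1 := by
      rw [← map_mul]
      have : (⟨_, hcl l⟩ : U) * ⟨_, hcl l⟩ = 1 := Subtype.ext (D.sq _ (D.conj c' hc'S _))
      rw [this, map_one]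
    have h6 : ((x ⟨_, hcl l⟩ : ℂˣ) : ℂ) * ((x ⟨_, hcl l⟩ : ℂˣ) : ℂ) = 1 := by
      rw [← Units.val_mul, h5, Units.val_one]
    rcases mul_self_eq_one_iff.1 h6 with h7 | h7
    · exact Units.ext h7
    · exact absurd ((hneg l).1 (Units.ext h7)) hne
  -- the power
  have ha : a ≠ 0 := by
    rintro rfl
    rw [pow_zero, pow_one] at hσ'M
    exact hσ'U (hMU hσ'M)
  obtain ⟨b, rfl⟩ := Nat.exists_eq_succ_of_ne_zero ha
  have hpt : p ∣ t := (Dvd.intro_left _ (pow_succ p b).symm).trans hta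
  obtain ⟨t₁, rfl⟩ := hpt
  have hbt : p ^ b ∣ t₁ := by
    rw [Nat.succ_eq_add_one, pow_succ, mul_comm (p ^ b)] at hta
    exact Nat.dvd_of_mul_dvd_mul_left hp.pos hta
  have hodd : Odd t₁ := (Nat.odd_mul.1 ht).2
  have hcpU : (c' * σ') ^ p ∈ U := by
    have e : (c' * σ') ^ p = (c' * σ') ^ p * (σ' ^ p)⁻¹ * σ' ^ p := by group
    rw [e]
    exact U.mul_mem (hmem p) hpU
  have hxp : x ⟨_, hcpU⟩ = x ⟨_, hmem p⟩ * x ⟨_, hpU⟩ := by
    rw [← map_mul]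
    congr 1
    exact Subtype.ext (by
      change (c' * σ') ^ p = (c' * σ') ^ p * (σ' ^ p)⁻¹ * σ' ^ p
      group)
  have hx1 : x ⟨_, hpU⟩ ^ (p ^ b) = 1 := by
    rw [← map_pow]
    have hm : σ' ^ (p ^ (b + 1)) ∈ U := hMU hσ'M
    have e : (⟨_, hpU⟩ : U) ^ (p ^ b) = ⟨_, hm⟩ := Subtype.ext (by
      change (σ' ^ p) ^ (p ^ b) = σ' ^ (p ^ (b + 1))
      rw [← pow_mul, pow_succ, mul_comm p])
    rw [e]
    exact hxM _ hm hσ'M
  have hxt : x ⟨_, hpU⟩ ^ t₁ = 1 := by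
    obtain ⟨w, rfl⟩ := hbt
    rw [pow_mul, hx1, one_pow]
  have htU : (c' * σ') ^ (p * t₁) ∈ U := by
    rw [pow_mul]
    exact U.pow_mem hcpU t₁
  have hfin : ext U x ((c' * σ') ^ (p * t₁)) = ((x ⟨_, hmem p⟩ : ℂˣ) : ℂ) ^ t₁ := by
    rw [ext_mem _ htU]
    have e : (⟨_, htU⟩ : U) = ⟨_, hcpU⟩ ^ t₁ := Subtype.ext (by
      change (c' * σ') ^ (p * t₁) = ((c' * σ') ^ p) ^ t₁
      rw [pow_mul])
    rw [e, map_pow, hxp, mul_pow, hxt, mul_one, Units.val_pow_eq_pow_val]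
  rw [e0, hfin]
  by_cases hex : ∃ l < p, σ ^ l * γ⁻¹ ∈ U
  · left
    obtain ⟨l₀, hl₀, hl₀U⟩ := id hex
    refine ⟨?_, hex⟩
    have hyp : x ⟨_, hmem p⟩ = -1 := by
      rw [hprod p, Finset.prod_eq_single l₀, (hneg l₀).2 ((hiff l₀).2 hl₀U)]
      · intro l hl hne
        refine hpos l fun h => hne ?_
        exact pow_unique hU hp hσ hσp γ (Finset.mem_range.1 hl) hl₀ ((hiff l).1 h) hl₀U
      · intro h
        exact absurd (Finset.mem_range.2 hl₀) h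
    rw [hyp]
    simp only [Units.val_neg, Units.val_one]
    exact hodd.neg_one_pow
  · right
    refine ⟨?_, hex⟩
    have hyp : x ⟨_, hmem p⟩ = 1 := by
      rw [hprod p]
      refine Finset.prod_eq_one fun l hl => hpos l fun h => hex ⟨l, Finset.mem_range.1 hl, (hiff l).1 h⟩
    rw [hyp, Units.val_one, one_pow]

/-- If `j (Ind x - (n - 1) - θ)` is in the family with cyclic towers, then every odd prime divisor of `n` divides `j`. -/
theorem lower_bound (D : Sys Γ) (hcent : ∀ s ∈ D.S, ∀ g, g * s * g⁻¹ = s → g = 1 ∨ g = s) {p : ℕ} (hp : p.Prime)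
    (hp2 : p ≠ 2) (θ : Γ →* ℂˣ) {Mθ : Subgroup Γ} (hMθ : Mθ ∈ D.N) (hθ : ∀ g ∈ Mθ, θ g = 1)
    (hθS : ∀ s ∈ D.S, θ s = -1)
    {U : Subgroup Γ} (hU : U.Normal) (hpn : p ∣ U.index) (hS : D.S ⊆ U) {x : U →* ℂˣ} (hxo : OpC D U x)
    {c₀ : Γ} (hc₀ : c₀ ∈ D.S)
    (hx : ∀ c (h : c ∈ U), c ∈ D.S → (x ⟨c, h⟩ = -1 ↔ ∃ u ∈ U, c = u * c₀ * u⁻¹)) {j : ℤ}
    (h : Fam D (CycTower D.S) (fun g => (j : ℂ) * (Ind U (ext U x) g - (U.index - 1) - (θ g : ℂ)))) :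
    (p : ℤ) ∣ j := by
  classical
  have hfact : Fact p.Prime := ⟨hp⟩
  have hodd : Odd p := hp.odd_of_ne_two hp2
  obtain ⟨Mx, hMx, hMxU, hxM⟩ := hxo
  obtain ⟨M', hM', hle, hfam⟩ := fam_tau D hp hp2 h (D.inf Mx hMx Mθ hMθ)
  have hM'n := D.normal M' hM'
  have hM'f := D.fin M' hM'
  have hM'U : M' ≤ U := hle.trans (inf_le_left.trans hMxU)
  have hUf : U.FiniteIndex := fin_of_N D hM' hM'U
  have hfin : Finite (Γ ⧸ U) := U.finite_quotient_of_finiteIndex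
  have hfint : Fintype (Γ ⧸ U) := Fintype.ofFinite _
  have hcard : Nat.card (Γ ⧸ U) = U.index := rfl
  -- an element of order `p` modulo `U`
  obtain ⟨s', hs'⟩ := exists_prime_orderOf_dvd_card' (G := Γ ⧸ U) p (by rw [hcard]; exact hpn)
  obtain ⟨s, rfl⟩ := QuotientGroup.mk_surjective s'
  have hsp : s ^ p ∈ U := by
    rw [← QuotientGroup.eq_one_iff, QuotientGroup.mk_pow, ← hs']
    exact pow_orderOf_eq_one _
  have hs : s ∉ U := by
    intro hsU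
    rw [(QuotientGroup.eq_one_iff s).2 hsU, orderOf_one] at hs'
    exact hp.one_lt.ne hs'
  have he0 : M'.index ≠ 0 := hM'f.index_ne_zero
  obtain ⟨a, m, hm, he⟩ := Nat.exists_eq_pow_mul_and_not_dvd he0 p hp.ne_one
  have hσM : (s ^ m) ^ (p ^ a) ∈ M' := by
    rw [← pow_mul, mul_comm, ← he]
    exact Subgroup.pow_index_mem M' s
  have hσp : (s ^ m) ^ p ∈ U := by
    rw [← pow_mul, mul_comm, pow_mul]
    exact U.pow_mem hsp m
  have hσU : s ^ m ∉ U := by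
    intro hsm
    apply hs
    have hcop : Nat.Coprime m p := by
      rw [Nat.coprime_comm, Nat.Prime.coprime_iff_not_dvd hp]
      exact hm
    have h1 := Int.gcd_eq_gcd_ab m p
    rw [Int.gcd_natCast_natCast, hcop.gcd_eq_one] at h1
    have h2 : s = (s ^ m) ^ (Int.gcdA m p) * (s ^ p) ^ (Int.gcdB m p) := by
      rw [← zpow_natCast s m, ← zpow_natCast s p, ← zpow_mul, ← zpow_mul, ← zpow_add, ← h1]
      simp
    rw [h2]
    exact U.mul_mem (U.zpow_mem hsm _) (U.zpow_mem hsp _)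
  set σ := s ^ m with hσdef
  -- the exponent
  have hr : ¬ p ∣ 2 * m := by
    intro h1
    rcases (Nat.Prime.dvd_mul hp).1 h1 with h2 | h2
    · exact hp2 ((Nat.prime_dvd_prime_iff_eq hp Nat.prime_two).1 h2)
    · exact hm h2
  have hcop : Nat.Coprime (p ^ a) (2 * m) := by
    apply Nat.Coprime.pow_left
    rw [Nat.Prime.coprime_iff_not_dvd hp]
    exact hr
  obtain ⟨t, ht0, ht1⟩ := Nat.chineseRemainder hcop 0 1
  have hta : p ^ a ∣ t := (Nat.modEq_zero_iff_dvd).1 ht0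
  have htodd : Odd t := by
    have h1 : t ≡ 1 [MOD 2] := ht1.of_dvd (Dvd.intro m rfl)
    exact Nat.odd_iff.2 h1
  have hτM : (c₀ * σ) ^ (p ^ a * (2 * m)) ∈ M' := by
    have e : p ^ a * (2 * m) = M'.index * 2 := by rw [he]; ring
    rw [e, pow_mul]
    exact M'.pow_mem (Subgroup.pow_index_mem M' _) 2
  obtain ⟨y, hy, hval⟩ := hfam c₀ σ a (2 * m) t hc₀ hσM hr (Dvd.intro m rfl) hτM hta ht1
  -- the value
  have hind : Ind U (ext U x) ((c₀ * σ) ^ t) = U.index - 2 * p := by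
    unfold Ind
    have key : ∀ q : Γ ⧸ U, ext U x (q.out⁻¹ * (c₀ * σ) ^ t * q.out) =
        if q ∈ (Finset.range p).image (fun l => (QuotientGroup.mk σ : Γ ⧸ U) ^ l) then -1 else 1 := by
      intro q
      have hq : q ∈ (Finset.range p).image (fun l => (QuotientGroup.mk σ : Γ ⧸ U) ^ l) ↔
          ∃ l < p, σ ^ l * q.out⁻¹ ∈ U := by
        rw [Finset.mem_image]
        constructor
        · rintro ⟨l, hl, he⟩
          refine ⟨l, Finset.mem_range.1 hl, ?_⟩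
          rw [pow_mem_iff_mk hU, he]
          exact (QuotientGroup.out_eq' q).symm
        · rintro ⟨l, hl, he⟩
          refine ⟨l, Finset.mem_range.2 hl, ?_⟩
          rw [pow_mem_iff_mk hU] at he
          rw [he]
          exact QuotientGroup.out_eq' q
      rcases val_tau D hcent hp hU hS x hc₀ hx hM'n hM'U
        (fun g hg hgM => hxM g hg (hle hgM).1) hσU hσp hσM hta htodd q.out with ⟨h1, h2⟩ | ⟨h1, h2⟩
      · rw [h1, if_pos (hq.2 h2)]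
      · rw [h1, if_neg fun h3 => h2 (hq.1 h3)]
    rw [finsum_eq_sum_of_fintype, Finset.sum_congr rfl fun q _ => key q, Finset.sum_ite]
    have hcardA : (Finset.univ.filter fun q : Γ ⧸ U =>
        q ∈ (Finset.range p).image (fun l => (QuotientGroup.mk σ : Γ ⧸ U) ^ l)).card = p := by
      rw [Finset.filter_mem_eq_inter, Finset.univ_inter, Finset.card_image_of_injOn, Finset.card_range]
      intro l hl l' hl' he
      have h4 : (QuotientGroup.mk σ : Γ ⧸ U) ^ l = (QuotientGroup.mk σ : Γ ⧸ U) ^ l' := he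
      rw [pow_eq_pow_iff_modEq, order_mod hU hp hσU hσp] at h4
      have h5 : l % p = l' % p := h4
      rwa [Nat.mod_eq_of_lt (Finset.mem_range.1 hl), Nat.mod_eq_of_lt (Finset.mem_range.1 hl')] at h5
    have hcardB := Finset.card_filter_add_card_filter_not (s := (Finset.univ : Finset (Γ ⧸ U)))
      (p := fun q => q ∈ (Finset.range p).image (fun l => (QuotientGroup.mk σ : Γ ⧸ U) ^ l))
    rw [hcardA, Finset.card_univ, ← Nat.card_eq_fintype_card, hcard] at hcardB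
    rw [Finset.sum_const, Finset.sum_const, hcardA, nsmul_eq_mul, nsmul_eq_mul, ← hcardB]
    push_cast
    ring
  have hθv : θ ((c₀ * σ) ^ t) = -1 := by
    rw [map_pow, map_mul, hθS c₀ hc₀, mul_pow, htodd.neg_one_pow]
    have h1 : θ σ ^ (p ^ a) = 1 := by
      rw [← map_pow]
      exact hθ _ (hle hσM).2
    obtain ⟨w, rfl⟩ := hta
    rw [pow_mul, h1, one_pow, mul_one]
  rw [hind, hθv] at hval
  -- `2 j` is `p` times an algebraic integer
  have h1 : (2 * j : ℂ) = p * (y + 2 * j) := by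
    simp only [Units.val_neg, Units.val_one] at hval
    linear_combination hval
  have hp0 : (p : ℂ) ≠ 0 := by exact_mod_cast hp.ne_zero
  have h2 : IsIntegral ℤ (algebraMap ℚ ℂ ((2 * j : ℚ) / p)) := by
    have e : algebraMap ℚ ℂ ((2 * j : ℚ) / p) = y + 2 * j := by
      rw [map_div₀]
      simp only [map_mul, map_intCast, map_natCast, map_ofNat]
      rw [div_eq_iff hp0]
      linear_combination h1
    rw [e]
    have h3 : IsIntegral ℤ ((2 * j : ℤ) : ℂ) := isIntegral_algebraMap (R := ℤ) (A := ℂ) (x := 2 * j)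
    have h4 := hy.add h3
    push_cast at h4
    exact h4
  have h3 : IsIntegral ℤ ((2 * j : ℚ) / p) :=
    (isIntegral_algebraMap_iff (algebraMap ℚ ℂ).injective).1 h2
  obtain ⟨w, hw⟩ := IsIntegrallyClosed.isIntegral_iff.1 h3
  have h4 : (p : ℤ) * w = 2 * j := by
    have hp0' : (p : ℚ) ≠ 0 := by exact_mod_cast hp.ne_zero
    have h5 : (w : ℚ) = (2 * j : ℚ) / p := by simpa using hw
    have h6 : (p : ℚ) * w = 2 * j := by
      rw [h5]
      field_simp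
    exact_mod_cast h6
  have h5 : (p : ℤ) ∣ 2 * j := Dvd.intro w h4
  have hpi : Prime (p : ℤ) := Nat.prime_iff_prime_int.1 hp
  rcases hpi.dvd_or_dvd h5 with h6 | h6
  · exfalso
    have h7 : p ∣ 2 := by exact_mod_cast h6
    exact hp2 ((Nat.prime_dvd_prime_iff_eq hp Nat.prime_two).1 h7)
  · exact h6

end

end SB
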