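import Pool.Agent.Helper21.CC.N14

/-!
# CC-N15: the radical of the index, arithmetic
-/

namespace SB

universe u

section
variable {Γ : Type u} [Group Γ]

theorem exists_sylow_p {p : ℕ} (hp : p.Prime) {Z : Subgroup Γ} (hZ : Z.Normal) (hf : Z.FiniteIndex) :
    ∃ P : Subgroup Γ, Z ≤ P ∧ (∃ n, Z.relIndex P = p ^ n) ∧ Nat.Coprime P.index p := by
  have hfin : Finite (Γ ⧸ Z) := Z.finite_quotient_of_finiteIndex
  have h2 : Fact p.Prime := ⟨hp⟩
  let Q : Sylow p (Γ ⧸ Z) := default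
  let P : Subgroup Γ := (Q : Subgroup (Γ ⧸ Z)).comap (QuotientGroup.mk' Z)
  have hZP : Z ≤ P := by
    intro z hz
    rw [Subgroup.mem_comap]
    have : (QuotientGroup.mk' Z) z = 1 := (QuotientGroup.eq_one_iff z).2 hz
    rw [this]
    exact Subgroup.one_mem _
  have hidx : P.index = (Q : Subgroup (Γ ⧸ Z)).index :=
    Subgroup.index_comap_of_surjective _ (QuotientGroup.mk'_surjective Z)
  obtain ⟨n, hn⟩ := IsPGroup.iff_card.1 Q.isPGroup'
  refine ⟨P, hZP, ⟨n, ?_⟩, ?_⟩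
  · have h1 := Subgroup.relIndex_mul_index hZP
    have h3 := (Q : Subgroup (Γ ⧸ Z)).card_mul_index
    have h4 : Z.index = Nat.card (Γ ⧸ Z) := rfl
    have h5 : P.index ≠ 0 := (Subgroup.finiteIndex_of_le (H := Z) hZP).index_ne_zero
    rw [h4, ← h3, ← hidx, hn] at h1
    exact Nat.eq_of_mul_eq_mul_right (Nat.pos_of_ne_zero h5) h1
  · rw [hidx, Nat.coprime_comm, Nat.Prime.coprime_iff_not_dvd hp]
    exact Q.not_dvd_index

/-- A subgroup of the integers which contains an odd divisor of `n`, and for every odd prime `p` the product of `p`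
and a number prime to `p`, contains every `k` divisible by all odd prime divisors of `n`. -/
theorem rad_mem (I : AddSubgroup ℤ) {n m₂ : ℕ} (h0 : m₂ ≠ 0) (hn : m₂ ∣ n) (h2 : Nat.Coprime m₂ 2) (hI : (m₂ : ℤ) ∈ I)
    (h : ∀ p : ℕ, p.Prime → p ≠ 2 → ∃ m : ℕ, Nat.Coprime m p ∧ ((p * m : ℕ) : ℤ) ∈ I)
    {k : ℕ} (hk : ∀ p : ℕ, p.Prime → p ≠ 2 → p ∣ n → p ∣ k) : (k : ℤ) ∈ I := by
  obtain ⟨a, ha⟩ := Int.subgroup_cyclic I
  have hmem : ∀ j : ℕ, (j : ℤ) ∈ I ↔ a.natAbs ∣ j := by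
    intro j
    rw [ha, AddSubgroup.mem_closure_singleton]
    constructor
    · rintro ⟨l, hl⟩
      rw [← Int.natCast_dvd_natCast, Int.natAbs_dvd, ← hl]
      simp
    · intro hj
      rw [← Int.natCast_dvd_natCast, Int.natAbs_dvd] at hj
      obtain ⟨l, hl⟩ := hj
      exact ⟨l, by rw [hl, smul_eq_mul, mul_comm]⟩
  rw [hmem] at hI ⊢
  set T := a.natAbs
  have hT0 : T ≠ 0 := by
    intro hT
    rw [hT] at hI
    exact h0 (Nat.zero_dvd.1 hI)
  have hprime : ∀ p : ℕ, p.Prime → p ∣ T → p ≠ 2 := by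
    rintro p hp hpT rfl
    exact hp.one_lt.ne' (Nat.Coprime.eq_one_of_dvd (Nat.coprime_comm.1 h2) (hpT.trans hI))
  have hsq : Squarefree T := by
    rw [Nat.squarefree_iff_prime_squarefree]
    intro p hp hpp
    have hp2 : p ≠ 2 := hprime p hp ((Dvd.intro _ rfl).trans hpp)
    obtain ⟨m, hm, hmI⟩ := h p hp hp2
    rw [hmem] at hmI
    have h3 : p ∣ m := Nat.dvd_of_mul_dvd_mul_left hp.pos (hpp.trans hmI)
    exact hp.one_lt.ne' (Nat.Coprime.eq_one_of_dvd (Nat.coprime_comm.1 hm) h3)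
  rw [← Nat.prod_primeFactors_of_squarefree hsq]
  refine Finset.prod_primes_dvd k (fun p hp => (Nat.prime_of_mem_primeFactors hp).prime) fun p hp => ?_
  have hpp := Nat.prime_of_mem_primeFactors hp
  have hpT := Nat.dvd_of_mem_primeFactors hp
  exact hk p hpp (hprime p hpp hpT) (hpT.trans (hI.trans hn))

/-- The multiples of `v` in the family. -/
theorem rad_fam (D : Sys Γ) (Pr : Subgroup Γ → Prop) {v : Γ → ℂ} {Z : Subgroup Γ} (hZ : Z.Normal)
    (hf : Z.FiniteIndex)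
    (h : ∀ p : ℕ, p.Prime → ∀ P : Subgroup Γ, Z ≤ P → (∃ n, Z.relIndex P = p ^ n) →
      Fam D Pr (fun g => ((fp p * P.index : ℕ) : ℂ) * v g)) {k : ℕ}
    (hk : ∀ p : ℕ, p.Prime → p ≠ 2 → p ∣ Z.index → p ∣ k) : Fam D Pr (fun g => (k : ℂ) * v g) := by
  let I : AddSubgroup ℤ :=
    { carrier := {j | Fam D Pr (fun g => (j : ℂ) * v g)}
      zero_mem' := fam_congr (fam_zero D _) fun g => by simp
      add_mem' := fun {a b} ha hb => fam_congr (fam_add D _ ha hb) fun g => by push_cast; ring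
      neg_mem' := fun {a} ha => fam_congr (fam_zmul D _ (-1) ha) fun g => by push_cast; ring }
  have hI : ∀ j : ℕ, (j : ℤ) ∈ I ↔ Fam D Pr (fun g => (j : ℂ) * v g) := by
    intro j
    constructor
    · intro hj
      exact fam_congr (show Fam D Pr (fun g => ((j : ℤ) : ℂ) * v g) from hj) fun g => by push_cast; rfl
    · intro hj
      exact show Fam D Pr (fun g => ((j : ℤ) : ℂ) * v g) from fam_congr hj fun g => by push_cast; rfl
  rw [← hI]
  obtain ⟨P₂, hZP₂, hn₂, hcop₂⟩ := exists_sylow_p Nat.prime_two hZ hf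
  have h2 : (P₂.index : ℤ) ∈ I := by
    rw [hI]
    refine fam_congr (h 2 Nat.prime_two P₂ hZP₂ hn₂) fun g => ?_
    rw [fp_two, one_mul]
  refine rad_mem I (Subgroup.finiteIndex_of_le (H := Z) hZP₂).index_ne_zero
    (Dvd.intro_left _ (Subgroup.relIndex_mul_index hZP₂)) hcop₂ h2 (fun p hp hp2 => ?_) hk
  obtain ⟨P, hZP, hn, hcop⟩ := exists_sylow_p hp hZ hf
  refine ⟨P.index, hcop, ?_⟩
  rw [hI]
  refine fam_congr (h p hp P hZP hn) fun g => ?_
  rw [fp_odd hp2]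

end

end SB
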