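import Pool.Agent.Helper21.CC.N11
import Pool.Agent.Helper21.CC.N15

/-!
# CC-N12: sharpness, the absolute Galois group
-/

namespace SB

universe u

section
variable {Γ : Type u} [Group Γ]

/-- `χ` is a linear character, trivial on `N ≤ U`, of the normal subgroup `U ⊇ S` of index `n`; it is `-1` on exactly
one conjugacy class of `U` in `S`. -/
def OnePlace (S : Set Γ) (N : Subgroup Γ) (n : ℕ) (U : Subgroup Γ) (χ : U →* ℂˣ) : Prop :=
  U.Normal ∧ U.index = n ∧ S ⊆ U ∧ N ≤ U ∧ TrivOn N χ ∧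
    ∃ c₀ ∈ S, ∀ c (h : c ∈ U), c ∈ S → (χ ⟨c, h⟩ = -1 ↔ ∃ u ∈ U, c = u * c₀ * u⁻¹)

/-- `ε` is a linear character of the group, trivial on `N` and `-1` on `S`. -/
def OddChar (S : Set Γ) (N : Subgroup Γ) (ε : Γ →* ℂˣ) : Prop := (∀ g ∈ N, ε g = 1) ∧ ∀ c ∈ S, ε c = -1

/-- The function `j (Ind χ - (n - 1) - ε)`. -/
noncomputable def OneDiff (n : ℕ) (U : Subgroup Γ) (χ : U →* ℂˣ) (ε : Γ →* ℂˣ) (j : ℕ) (g : Γ) : ℂ :=
  (j : ℂ) * (IndChr U χ g - (n - 1) - ((ε g : ℂˣ) : ℂ))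

/-- Every odd prime divisor of `n` divides `k`. -/
def OddRad (n k : ℕ) : Prop := ∀ p : ℕ, p.Prime → p ≠ 2 → p ∣ n → p ∣ k

theorem cyc_of_quad {S : Set Γ} {U : Subgroup Γ} (h : QuadOver S U) : CycTower S U := by
  obtain ⟨W, hS, hle, rfl | h2⟩ := h
  · exact CycTower.base hS
  · refine CycTower.step (CycTower.base hS) ⟨hle, fun u hu w hw => ?_, by rw [h2]; exact Nat.prime_two⟩
    have hn : (U.subgroupOf W).Normal := Subgroup.normal_of_index_eq_two h2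
    exact hn.conj_mem ⟨w, hle hw⟩ hw ⟨u, hu⟩

/-- The value of `Ind χ` at the elements of `S`. -/
theorem one_place_val (D : Sys Γ) (hcent : ∀ s ∈ D.S, ∀ g, g * s * g⁻¹ = s → g = 1 ∨ g = s)
    (hone : ∀ s ∈ D.S, ∀ s' ∈ D.S, ∃ g, s' = g * s * g⁻¹) {p : ℕ} (hp : p ≠ 0)
    {U : Subgroup Γ} (hU : U.Normal) (hidx : U.index = p) (hS : D.S ⊆ U) (x : U →* ℂˣ) {c₀ : Γ} (hc₀ : c₀ ∈ D.S)
    (hx : ∀ c (h : c ∈ U), c ∈ D.S → (x ⟨c, h⟩ = -1 ↔ ∃ u ∈ U, c = u * c₀ * u⁻¹)) {c : Γ} (hc : c ∈ D.S) :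
    Ind U (ext U x) c = p - 2 := by
  have hUf : U.FiniteIndex := ⟨by rw [hidx]; exact hp⟩
  have : Finite (Γ ⧸ U) := U.finite_quotient_of_finiteIndex
  have : Fintype (Γ ⧸ U) := Fintype.ofFinite _
  classical
  have h0 : Ind U (ext U x) c = Ind U (ext U x) c₀ := by
    obtain ⟨g, rfl⟩ := hone c₀ hc₀ c hc
    have := Ind_conj (cls_ext U x) c₀ g⁻¹
    rwa [inv_inv] at this
  have key : ∀ q : Γ ⧸ U, ext U x (q.out⁻¹ * c₀ * q.out) = if q = 1 then -1 else 1 := by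
    intro q
    have hm : q.out⁻¹ * c₀ * q.out ∈ D.S := by
      have := D.conj c₀ hc₀ q.out⁻¹
      rwa [inv_inv] at this
    have hq : q = 1 ↔ q.out ∈ U := by
      conv_lhs => rw [← QuotientGroup.out_eq' q]
      exact QuotientGroup.eq_one_iff _
    have hiff : x ⟨_, hS hm⟩ = -1 ↔ q.out ∈ U := by
      rw [hx _ (hS hm) hm]
      constructor
      · rintro ⟨u, hu, he⟩
        have h2 : (u⁻¹ * q.out⁻¹) * c₀ * (u⁻¹ * q.out⁻¹)⁻¹ = c₀ := by
          have e1 : (u⁻¹ * q.out⁻¹) * c₀ * (u⁻¹ * q.out⁻¹)⁻¹ = u⁻¹ * (q.out⁻¹ * c₀ * q.out) * u := by group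
          rw [e1, he]
          group
        have h3 : u⁻¹ * q.out⁻¹ ∈ U := by
          rcases hcent c₀ hc₀ _ h2 with h4 | h4
          · rw [h4]; exact U.one_mem
          · rw [h4]; exact hS hc₀
        have e2 : q.out = (u * (u⁻¹ * q.out⁻¹))⁻¹ := by group
        rw [e2]
        exact U.inv_mem (U.mul_mem hu h3)
      · intro h
        exact ⟨q.out⁻¹, U.inv_mem h, by group⟩
    rw [ext_mem _ (hS hm)]
    by_cases h1 : q = 1
    · rw [if_pos h1, hiff.2 (hq.1 h1)]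
      simp
    · rw [if_neg h1]
      rcases val_S D x hm (hS hm) with h2 | h2
      · rw [h2, Units.val_one]
      · exact absurd (hq.2 (hiff.1 h2)) h1
  rw [h0]
  unfold Ind
  rw [finsum_eq_sum_of_fintype, Finset.sum_congr rfl fun q _ => key q, Finset.sum_ite]
  have e1 : (Finset.univ.filter fun q : Γ ⧸ U => q = 1).card = 1 := by
    rw [Finset.filter_eq' Finset.univ (1 : Γ ⧸ U), if_pos (Finset.mem_univ _), Finset.card_singleton]
  have e3 : (Finset.univ.filter fun q : Γ ⧸ U => q = 1).card + (Finset.univ.filter fun q : Γ ⧸ U => ¬ q = 1).card =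
      p := by
    rw [Finset.card_filter_add_card_filter_not, Finset.card_univ, ← Nat.card_eq_fintype_card]
    exact hidx
  rw [e1] at e3
  have e4 : ((Finset.univ.filter fun q : Γ ⧸ U => ¬ q = 1).card : ℂ) = p - 1 := by
    rw [← e3]
    push_cast
    ring
  rw [Finset.sum_const, Finset.sum_const, e1, nsmul_eq_mul, nsmul_eq_mul, e4]
  push_cast
  ring

/-- The multiple of a monomial character `Ind χ` of a subgroup `U` containing the normal subgroup `L ⊇ S`. -/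
theorem ind_rad (D : Sys Γ) (hup : ∀ M ∈ D.N, ∀ M' : Subgroup Γ, M'.Normal → M ≤ M' → M' ∈ D.N)
    (hnt : NtU D) (θ : Γ →* ℂˣ) {Mθ : Subgroup Γ} (hMθ : Mθ ∈ D.N) (hθ : ∀ g ∈ Mθ, θ g = 1)
    (hθS : ∀ s ∈ D.S, θ s = -1) (hone : ∀ s ∈ D.S, ∀ s' ∈ D.S, ∃ g, s' = g * s * g⁻¹) {p : ℕ} (hp : p.Prime)
    {L P U : Subgroup Γ} (hL : L ∈ D.N) (hSL : D.S ⊆ L) (hLU : L ≤ U) {χ : U →* ℂˣ} (hχ : OpC D U χ)
    (hLP : L ≤ P) (h2 : ∃ n, L.relIndex P = p ^ n) :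
    ∃ a b : ℤ, Fam D (QuadOver D.S)
      (fun g => ((fp p * P.index : ℕ) : ℂ) * Ind U (ext U χ) g - a - b * (θ g : ℂ)) := by
  obtain ⟨M, hM, hMU, hχM⟩ := hχ
  have hLn := D.normal L hL
  have hMn := D.normal M hM
  have hUf := fin_of_N D hM hMU
  obtain ⟨d, ρ, h1, htr⟩ := exists_lrep M U hMn hMU hUf χ hχM
  obtain ⟨a, b, hf⟩ := rad_mult D hup hnt θ hMθ hθ hθS hone hp hM hL hSL ρ h1 (fun g hg c hc => by
    have h3 : ρ (g * c * g⁻¹ * c⁻¹) = 1 := by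
      obtain ⟨n, hn, hgn⟩ := pow_mem_fin hMn (D.fin M hM) (g * c * g⁻¹ * c⁻¹)
      refine eq_one_of_trace _ hn (by rw [← map_pow]; exact h1 _ hgn) ?_
      rw [htr, ind_comm_L hLn hLU χ hg (hSL hc), ← htr, map_one, LinearMap.trace_one]
    have h4 : ρ (g * c) = ρ (g * c * g⁻¹ * c⁻¹) * ρ (c * g) := by
      rw [← map_mul]
      congr 1
      group
    rw [← map_mul, h4, h3, one_mul, map_mul]) hLP h2
  exact ⟨a, b, fam_congr hf fun g => by rw [htr]⟩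

end

theorem fam_of_sigComb {P : Subgroup GQ → Prop} {K : IntermediateField ℚ Qb} (hK : FinGal ℚ K) {v : GQ → ℂ}
    (h : SigComb (Γ := GQ) CC K.fixingSubgroup P v) : Fam sysAll P v := by
  have hN : K.fixingSubgroup ∈ NAll := ⟨K, hK.1, (isGalois_iff.1 hK.2).2, rfl⟩
  obtain ⟨m, n, U, χ, χ', h1, h2⟩ := h
  exact ⟨m, n, U, χ, χ', fun i => (h1 i).1, fun i => ⟨_, hN, (h1 i).2.1, fun g hg hgN => (h1 i).2.2.1 g hg hgN⟩,
    fun i => ⟨_, hN, (h1 i).2.1, fun g hg hgN => (h1 i).2.2.2.1 g hg hgN⟩,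
    fun i s hs hsS => (h1 i).2.2.2.2 s hs hsS, h2⟩

/-- The multiple is necessary, even with cyclic towers. -/
theorem cc_sharp {n : ℕ} {K : IntermediateField ℚ Qb} (hK : FinGal ℚ K)
    {U : Subgroup GQ} {χ : U →* ℂˣ} (h : OnePlace CC K.fixingSubgroup n U χ) (θ : GQ →* ℂˣ)
    (hodd : OddChar CC K.fixingSubgroup θ) (j : ℕ) :
    List.TFAE [OddRad n j,
      ∃ K' : IntermediateField ℚ Qb, FinGal ℚ K' ∧ SigComb (Γ := GQ) CC K'.fixingSubgroup (QuadOver CC)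
        (OneDiff n U χ θ j),
      ∃ K' : IntermediateField ℚ Qb, FinGal ℚ K' ∧ SigComb (Γ := GQ) CC K'.fixingSubgroup (CycTower CC)
        (OneDiff n U χ θ j)] := by
  obtain ⟨hθ, hθS⟩ := hodd
  have hN : K.fixingSubgroup ∈ NAll := ⟨K, hK.1, (isGalois_iff.1 hK.2).2, rfl⟩
  obtain ⟨hUn, hidx, hS, hNU, htriv, c₀, hc₀, hx⟩ := h
  have hop : OpC sysAll U χ := ⟨_, hN, hNU, fun g hg hgN => htriv g hg hgN⟩
  have hUN : U ∈ NAll := nAll_up hN hUn hNU
  have hn0 : n ≠ 0 := by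
    rw [← hidx]
    exact (nAll_fin hUN).index_ne_zero
  tfae_have 1 → 2 := by
    intro hk
    have h1 : Ind U (ext U χ) 1 = n := by
      rw [← hidx, ← ind_ext_one_one_B1 (nAll_fin hUN)]
      unfold Ind
      refine finsum_congr fun q => ?_
      have e : q.out⁻¹ * 1 * q.out = 1 := by group
      rw [e, ext_mem _ U.one_mem, ext_mem _ U.one_mem]
      have h5 : (⟨1, U.one_mem⟩ : U) = 1 := rfl
      rw [h5, map_one, map_one]
    refine sigComb_of_fam (rad_fam sysAll (QuadOver CC)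
      (v := fun g => Ind U (ext U χ) g - (n - 1) - ((θ g : ℂˣ) : ℂ)) hUn (nAll_fin hUN) (fun p hp P hUP h2 => ?_)
      (by rw [hidx]; exact hk))
    obtain ⟨a, b, hf⟩ := ind_rad sysAll up_all ntU_all θ hN hθ hθS (fun s hs s' hs' => cc_one hs hs') hp hUN hS le_rfl
      hop hUP h2
    exact remove_theta (v := fun g => Ind U (ext U χ) g - (n - 1) - ((θ g : ℂˣ) : ℂ)) (N := fp p * P.index)
      (a := a - (fp p * P.index : ℕ) * (n - 1)) (b := b - (fp p * P.index : ℕ)) cc_nonempty θ hθS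
      (fam_congr hf fun g => by push_cast; ring)
      (by simp only [map_one, Units.val_one]; rw [h1]; ring) (fun s hs => by
        rw [hθS s hs, one_place_val sysAll cent_all (fun s hs s' hs' => cc_one hs hs') hn0 hUn hidx hS χ hc₀ hx hs]
        simp only [Units.val_neg, Units.val_one]
        ring)
  tfae_have 2 → 3 := by
    rintro ⟨K', hK', m, l, U', χ₁, χ₂, h1, h2⟩
    exact ⟨K', hK', m, l, U', χ₁, χ₂, fun i => ⟨cyc_of_quad (h1 i).1, (h1 i).2⟩, h2⟩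
  tfae_have 3 → 1 := by
    rintro ⟨K', hK', h3⟩ p hp hp2 hpn
    have h4 := lower_bound sysAll cent_all hp hp2 θ hN hθ hθS hUn (by rw [hidx]; exact hpn) hS hop hc₀ hx (j := j)
      (fam_congr (fam_of_sigComb hK' h3) fun g => by rw [hidx]; push_cast; rfl)
    exact_mod_cast h4
  tfae_finish

end SB
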