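import Pool.Agent.Helper21.CC.N1b
import Pool.Agent.Helper21.CT.S

/-!
# CC-N13: a step of prime degree `p` between subgroups containing `S`, up to the factor `p`
-/

namespace SB

universe u

section
variable {Γ : Type u} [Group Γ]

theorem n13_up {D : Sys Γ} {p : ℕ} (hp : 0 < p) {W U : Subgroup Γ} {t : Γ} (hU : U.FiniteIndex) (h : IsStep p W U t)
    {φ : Γ → ℂ} (hφ : Cls W φ) (hG : GQ2 D W φ) : GQ2 D U (∑ k ∈ Finset.range p, cj (t ^ k) φ) := by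
  unfold GQ2 at hG ⊢
  rw [Ind_step hp hU h hφ]
  exact hG

/-- Restriction to `W ⊇ S` followed by induction is multiplication by `p`, up to the family. -/
theorem n13_res (D : Sys Γ) {p : ℕ} (hp : p.Prime) {M W V : Subgroup Γ} {t : Γ} (hM : M ∈ D.N) (hMW : M ≤ W)
    (hS : D.S ⊆ W) (h : IsStep p W V t) {ψ : Γ → ℂ} (hψ : Lin D V ψ) :
    GQ2 D V ((∑ k ∈ Finset.range p, cj (t ^ k) (rs W ψ)) - (p : ℤ) • ψ) := by
  classical
  have : NeZero p := ⟨hp.pos.ne'⟩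
  have hV := fin_of_N D hM (hMW.trans h.le)
  obtain ⟨m, n, χ, hχ, rfl⟩ := hψ
  obtain ⟨κ, hκ⟩ := g2_kappa hp.pos h
  have hpair : ∀ i (j : ZMod p), GQ2 D V (ext V (χ i * g2eta κ j) - ext V (χ i)) := by
    intro i j
    refine gq_pair hV (quadOver_self (hS.trans h.le)) ?_ (hχ i) ?_
    · obtain ⟨M₁, hM₁, hM₁U, h1⟩ := hχ i
      refine ⟨M₁ ⊓ M, D.inf _ hM₁ _ hM, inf_le_left.trans hM₁U, fun g hg hgM => ?_⟩
      rw [MonoidHom.mul_apply, h1 g hg hgM.1, one_mul]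
      exact g2eta_ker κ j _ ((hκ g hg).2 (hMW hgM.2))
    · intro s hs hsS
      rw [MonoidHom.mul_apply, g2eta_ker κ j _ ((hκ s hs).2 (hS hsS)), mul_one]
  have key := gq_sum hV Finset.univ (fun i => n i • ∑ j : ZMod p, (ext V (χ i * g2eta κ j) - ext V (χ i)))
    fun i _ => gq_zsmul (n i) (gq_sum hV Finset.univ _ fun j _ => hpair i j)
  refine gq_congr key ?_
  have e2 : ∀ i, (∑ j : ZMod p, ext V (χ i * g2eta κ j)) =
      ∑ k ∈ Finset.range p, cj (t ^ k) (rs W (ext V (χ i))) := by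
    intro i
    rw [← g2_sum h κ hκ (χ i), rs_ext_L2 h.le]
  have e3 : (∑ k ∈ Finset.range p, cj (t ^ k) (rs W (∑ i, n i • ext V (χ i)))) =
      ∑ i, n i • ∑ k ∈ Finset.range p, cj (t ^ k) (rs W (ext V (χ i))) := by
    rw [rs_sum_L1]
    simp only [cj_sum_L1, Finset.smul_sum]
    rw [Finset.sum_comm]
  rw [e3, Finset.smul_sum, ← Finset.sum_sub_distrib]
  refine Finset.sum_congr rfl fun i _ => ?_
  rw [Finset.sum_sub_distrib, e2, Finset.sum_const, Finset.card_univ, ZMod.card, smul_sub, smul_comm (p : ℤ) (n i)]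
  congr 2

theorem p_step (D : Sys Γ) (hnt : NtU D) {p : ℕ} (hp : p.Prime) (_hp2 : p ≠ 2) {M W V : Subgroup Γ} {t : Γ}
    (hM : M ∈ D.N) (hMW : M ≤ W) (hS : D.S ⊆ W) (h : IsStep p W V t) {φ : Γ → ℂ} (hφ : Lin D W φ) :
    ∃ ψ, Lin D V ψ ∧ GQ2 D V ((p : ℤ) • ((∑ k ∈ Finset.range p, cj (t ^ k) φ) - ψ)) := by
  classical
  have hMV : M ≤ V := hMW.trans h.le
  have hV := fin_of_N D hM hMV
  have hSV : D.S ⊆ V := hS.trans h.le
  set Φ : Γ → ℂ := ∑ k ∈ Finset.range p, cj (t ^ k) φ with hΦ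
  have hΦcls : Cls V Φ := cls_step hp.pos h (cls_lin hφ)
  have hΦlin : Lin D W Φ := lin_sum_G1 _ _ fun k _ => lin_cj D hφ fun g => (g2_conj_mem h k g).symm
  obtain ⟨n, b, hbfin, h1, hs, hbi⟩ := lin_int D hΦlin
  -- the function `b` on `S` is invariant under `V`
  have hbV : ∀ s ∈ D.S, s ∈ V → ∀ u ∈ V, b (u * s * u⁻¹) = b s := by
    intro s hsS hsV u hu
    have hsS' := D.conj s hsS u
    have e1 := hs s hsS (hS hsS)
    have e2 := hs _ hsS' (hS hsS')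
    have e3 := hΦcls.2 u⁻¹ (V.inv_mem hu) s
    rw [inv_inv] at e3
    rw [e3, e1] at e2
    have e4 : (b (u * s * u⁻¹) : ℂ) = b s := by linear_combination (1 / 2 : ℂ) * e2
    exact_mod_cast e4
  obtain ⟨ψ1, hψ1, hψ11, hψ1s⟩ := exists_lin_of_sign D hnt hM hMV b hbfin hbV
  set ψ0 : Γ → ℂ := n • ext V 1 + ψ1 with hψ0def
  have hψ0 : Lin D V ψ0 := lin_add_G1 (lin_zsmul_G1 n (lin_ext (opc_one hM hMV))) hψ1
  have hψ01 : ψ0 1 = n := by
    rw [hψ0def, Pi.add_apply, Pi.smul_apply, ext_one_apply V V.one_mem, hψ11]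
    simp
  have hψ0s : ∀ s ∈ D.S, ψ0 s = n - 2 * b s := by
    intro s hsS
    rw [hψ0def, Pi.add_apply, Pi.smul_apply, ext_one_apply V (hSV hsS), hψ1s s hsS (hSV hsS)]
    simp
    ring
  have hlin : Lin D W (Φ - rs W ψ0) := lin_sub hΦlin (lin_rs D hM hMW h.le hψ0)
  have hG : GQ2 D W (Φ - rs W ψ0) := by
    refine lin_q2 D hnt hM hMW hS hlin ?_ fun s hsS => ?_
    · rw [Pi.sub_apply, rs_mem _ W.one_mem, h1, hψ01, sub_self]
    · rw [Pi.sub_apply, rs_mem _ (hS hsS), hs s hsS (hS hsS), hψ0s s hsS, sub_self]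
  have hup := n13_up hp.pos hV h (cls_lin hlin) hG
  have hres := n13_res D hp hM hMW hS h hψ0
  refine ⟨ψ0, hψ0, gq_congr (gq_add hV hup hres) ?_⟩
  rw [sum_cj_sub]
  have hc : ∑ k ∈ Finset.range p, cj (t ^ k) Φ = (p : ℤ) • Φ := by
    have e : ∀ k ∈ Finset.range p, cj (t ^ k) Φ = Φ := by
      intro k _
      funext g
      rw [cj_apply]
      exact hΦcls.2 _ (V.pow_mem h.mem k) g
    rw [Finset.sum_congr rfl e, Finset.sum_const, Finset.card_range, natCast_zsmul]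
  rw [hc, smul_sub]
  abel

end

end SB
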