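import Pool.Agent.Helper21.CC.N7

/-!
# CC-N8: monomial characters
-/

namespace SB

universe u v

section
variable {Γ : Type u} [Group Γ]

theorem ind_comm_L {L U : Subgroup Γ} (hL : L.Normal) (hLU : L ≤ U) (χ : U →* ℂˣ) {a b : Γ} (ha : a ∈ L) (hb : b ∈ L) :
    Ind U (ext U χ) (a * b * a⁻¹ * b⁻¹) = Ind U (ext U χ) 1 := by
  unfold Ind
  refine finsum_congr fun q => ?_
  have h3 : q.out⁻¹ * a * q.out ∈ U := by
    have := hL.conj_mem a ha q.out⁻¹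
    rw [inv_inv] at this
    exact hLU this
  have h4 : q.out⁻¹ * b * q.out ∈ U := by
    have := hL.conj_mem b hb q.out⁻¹
    rw [inv_inv] at this
    exact hLU this
  have h1 : q.out⁻¹ * (a * b * a⁻¹ * b⁻¹) * q.out = (q.out⁻¹ * a * q.out) * (q.out⁻¹ * b * q.out) *
      (q.out⁻¹ * a * q.out)⁻¹ * (q.out⁻¹ * b * q.out)⁻¹ := by
    group
  have h2 : q.out⁻¹ * 1 * q.out = (1 : Γ) := by group
  have h5 : (q.out⁻¹ * a * q.out) * (q.out⁻¹ * b * q.out) *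
      (q.out⁻¹ * a * q.out)⁻¹ * (q.out⁻¹ * b * q.out)⁻¹ ∈ U :=
    U.mul_mem (U.mul_mem (U.mul_mem h3 h4) (U.inv_mem h3)) (U.inv_mem h4)
  rw [h1, h2, ext_mem _ h5, ext_mem _ U.one_mem]
  congr 1
  have e1 : (⟨_, h5⟩ : U) = ⟨_, h3⟩ * ⟨_, h4⟩ * ⟨_, h3⟩⁻¹ * ⟨_, h4⟩⁻¹ := rfl
  have e2 : (⟨1, U.one_mem⟩ : U) = 1 := rfl
  rw [e1, e2, map_mul, map_mul, map_mul, map_inv, map_inv, map_one, mul_comm (χ _) (χ _), mul_inv_cancel_right,
    mul_inv_cancel]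

/-- An odd multiple of a monomial character `Ind χ` of a subgroup `U` containing the normal subgroup `L ⊇ S`. -/
theorem ind_odd (D : Sys Γ) (hup : ∀ M ∈ D.N, ∀ M' : Subgroup Γ, M'.Normal → M ≤ M' → M' ∈ D.N)
    (hnt : NtU D) (θ : Γ →* ℂˣ) {Mθ : Subgroup Γ} (hMθ : Mθ ∈ D.N) (hθ : ∀ g ∈ Mθ, θ g = 1)
    (hθS : ∀ s ∈ D.S, θ s = -1) (hone : ∀ s ∈ D.S, ∀ s' ∈ D.S, ∃ g, s' = g * s * g⁻¹)
    {L P U : Subgroup Γ} (hL : L ∈ D.N) (hSL : D.S ⊆ L) (hLU : L ≤ U) {χ : U →* ℂˣ} (hχ : OpC D U χ)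
    (hLP : L ≤ P) (h2 : ∃ n, L.relIndex P = 2 ^ n) :
    ∃ a b : ℤ, Fam D (QuadOver D.S)
      (fun g => (P.index : ℂ) * Ind U (ext U χ) g - a - b * (θ g : ℂ)) := by
  obtain ⟨M, hM, hMU, hχM⟩ := hχ
  have hLn := D.normal L hL
  have hMn := D.normal M hM
  have hUf := fin_of_N D hM hMU
  obtain ⟨d, ρ, h1, htr⟩ := exists_lrep M U hMn hMU hUf χ hχM
  obtain ⟨a, b, hf⟩ := odd_mult D hup hnt θ hMθ hθ hθS hone hM hL hSL ρ h1 (fun g hg c hc => by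
    have h3 : ρ (g * c * g⁻¹ * c⁻¹) = 1 := by
      obtain ⟨n, hn, hgn⟩ := pow_mem_fin hMn (D.fin M hM) (g * c * g⁻¹ * c⁻¹)
      refine eq_one_of_trace _ hn (by rw [← map_pow]; exact h1 _ hgn) ?_
      rw [htr, ind_comm_L hLn hLU χ hg (hSL hc), ← htr, map_one, LinearMap.trace_one]
    have h4 : ρ (g * c) = ρ (g * c * g⁻¹ * c⁻¹) * ρ (c * g) := by
      rw [← map_mul]
      congr 1
      group
    rw [← map_mul, h4, h3, one_mul, map_mul]) hLP h2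
  exact ⟨a, b, fam_congr hf fun g => by rw [htr]⟩

end

/-- The same for the absolute Galois group and a combination. -/
theorem mon_odd (θ : GQ →* ℂˣ) {Mθ : Subgroup GQ} (hMθ : Mθ ∈ NAll) (hθ : ∀ g ∈ Mθ, θ g = 1)
    (hθS : ∀ s ∈ CC, θ s = -1) {L : Subgroup GQ} (hL : L ∈ NAll) (hSL : CC ⊆ L) {k : ℕ}
    (hk : ∃ e, L.index ∣ 2 ^ e * k) {m : ℕ} (n : Fin m → ℤ) (U : Fin m → Subgroup GQ) (χ : ∀ i, U i →* ℂˣ)
    (hU : ∀ i, L ≤ U i ∧ OpC sysAll (U i) (χ i)) :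
    ∃ a b : ℤ, Fam sysAll (QuadOver CC)
      (fun g => (k : ℂ) * ∑ i, (n i : ℂ) * Ind (U i) (ext (U i) (χ i)) g - a - b * (θ g : ℂ)) := by
  obtain ⟨P, hLP, h2, hcop⟩ := exists_sylow_two (nAll_normal hL) (nAll_fin hL)
  obtain ⟨e, he⟩ := hk
  have hPk : P.index ∣ k := by
    have h3 : P.index ∣ 2 ^ e * k := (Dvd.intro_left _ (Subgroup.relIndex_mul_index hLP)).trans he
    exact (Nat.Coprime.pow_right e hcop).dvd_of_dvd_mul_left h3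
  obtain ⟨l, rfl⟩ := hPk
  choose a b hf using fun i => ind_odd sysAll up_all ntU_all θ hMθ hθ hθS (fun s hs s' hs' => cc_one hs hs') hL hSL
    (hU i).1 (hU i).2 hLP h2
  refine ⟨∑ i, l * n i * a i, ∑ i, l * n i * b i, fam_congr (fam_sum sysAll _ (fun i => l * n i) _ hf) fun g => ?_⟩
  push_cast
  rw [Finset.mul_sum, Finset.sum_mul, ← Finset.sum_sub_distrib, ← Finset.sum_sub_distrib]
  exact Finset.sum_congr rfl fun i _ => by ring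

end SB
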