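import Pool.Agent.Helper21.CC.N13
import Pool.Agent.Helper21.CC.N8

/-!
# CC-N14: the radical of the index
-/

namespace SB

universe u v

section
variable {Γ : Type u} [Group Γ]

/-- `1` for `p = 2`, and `p` for odd `p`. -/
def fp (p : ℕ) : ℕ := if p = 2 then 1 else p

theorem fp_two : fp 2 = 1 := rfl

theorem fp_odd {p : ℕ} (h : p ≠ 2) : fp p = p := if_neg h

theorem fp_pos {p : ℕ} (h : p.Prime) : 0 < fp p := by
  unfold fp
  split_ifs
  · exact one_pos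
  · exact h.pos

/-- A proper subgroup which contains a normal subgroup of index a power of `p` has index `p` in a larger one. -/
theorem exists_p_step {p : ℕ} (hp : p.Prime) {Z U : Subgroup Γ} (hZ : Z.Normal) (hZU : Z ≤ U)
    (h2 : ∃ n, Z.index = p ^ n) (hU : U ≠ ⊤) : ∃ (V : Subgroup Γ) (t : Γ), IsStep p U V t := by
  obtain ⟨N, hN⟩ := h2
  have hp0 : 0 < p := hp.pos
  have hcard : Nat.card (Γ ⧸ Z) = p ^ N := by rw [← Subgroup.index_eq_card, hN]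
  have hfin : Finite (Γ ⧸ Z) := Nat.finite_of_card_ne_zero (by rw [hcard]; positivity)
  have hF : Fact p.Prime := ⟨hp⟩
  have hUH : (U.map (QuotientGroup.mk' Z)).comap (QuotientGroup.mk' Z) = U :=
    Subgroup.comap_map_eq_self (by rw [QuotientGroup.ker_mk']; exact hZU)
  have hd : Nat.card (U.map (QuotientGroup.mk' Z)) ∣ p ^ N := by
    rw [← hcard]
    exact Subgroup.card_subgroup_dvd_card _
  obtain ⟨k, hk, hkc⟩ := (Nat.dvd_prime_pow hp).1 hd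
  have hkN : k ≠ N := by
    intro e
    apply hU
    have h1 : U.map (QuotientGroup.mk' Z) = ⊤ := by
      apply Subgroup.eq_top_of_card_eq
      rw [hkc, hcard, e]
    rw [← hUH, h1, Subgroup.comap_top]
  obtain ⟨K, hK, hHK⟩ := Sylow.exists_subgroup_card_pow_succ (p := p) (n := k)
    (H := U.map (QuotientGroup.mk' Z)) (by
      rw [hcard]
      exact pow_dvd_pow p (by omega)) hkc
  have hrel : (U.map (QuotientGroup.mk' Z)).relIndex K = p := by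
    have h1 := Subgroup.relIndex_mul_relIndex ⊥ (U.map (QuotientGroup.mk' Z)) K bot_le hHK
    rw [Subgroup.relIndex_bot_left, Subgroup.relIndex_bot_left, hK, hkc, pow_succ] at h1
    exact Nat.eq_of_mul_eq_mul_left (by positivity) h1
  have hle : U ≤ K.comap (QuotientGroup.mk' Z) := by
    conv_lhs => rw [← hUH]
    exact Subgroup.comap_mono hHK
  have hrel2 : U.relIndex (K.comap (QuotientGroup.mk' Z)) = p := by
    conv_lhs => rw [← hUH]
    rw [Subgroup.relIndex_comap, Subgroup.map_comap_eq_self_of_surjective (QuotientGroup.mk'_surjective Z), hrel]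
  have hnormK : ((U.map (QuotientGroup.mk' Z)).subgroupOf K).Normal := by
    apply Subgroup.normal_of_index_eq_minFac_card
    have h1 : ((U.map (QuotientGroup.mk' Z)).subgroupOf K).index = p := hrel
    rw [h1, hK, hp.pow_minFac (Nat.succ_ne_zero k)]
  obtain ⟨t, ht⟩ := exists_isStep hle (fun u hu w hw => by
    have hw1 : (⟨QuotientGroup.mk' Z w, hle hw⟩ : K) ∈ (U.map (QuotientGroup.mk' Z)).subgroupOf K :=
      Subgroup.mem_subgroupOf.2 ⟨w, hw, rfl⟩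
    have h1 := hnormK.conj_mem _ hw1 ⟨QuotientGroup.mk' Z u, hu⟩
    rw [← hUH]
    rw [Subgroup.mem_subgroupOf] at h1
    rw [Subgroup.mem_comap, map_mul, map_mul, map_inv]
    exact h1) (by rw [hrel2]; exact hp)
  rw [hrel2] at ht
  exact ⟨_, t, ht⟩

/-- The chain of steps of prime index. -/
theorem p_chain_of (D : Sys Γ) {p : ℕ} (hp : p.Prime) (f : ℕ)
    (hstep : ∀ {M W V : Subgroup Γ} {t : Γ}, M ∈ D.N → M ≤ W → D.S ⊆ W → IsStep p W V t →
      ∀ {φ : Γ → ℂ}, Lin D W φ →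
        ∃ ψ, Lin D V ψ ∧ GQ2 D V ((f : ℤ) • ((∑ k ∈ Finset.range p, cj (t ^ k) φ) - ψ)))
    {Z U : Subgroup Γ} (hZ : Z ∈ D.N) (hS : D.S ⊆ Z) (hZU : Z ≤ U) (h2 : ∃ n, Z.index = p ^ n)
    {φ : Γ → ℂ} (hφ : Lin D U φ) :
    ∃ ψ, Lin D ⊤ ψ ∧ Fam D (QuadOver D.S) (fun g => (f : ℂ) * (Ind U φ g - ψ g)) := by
  have key : ∀ (n : ℕ) (U : Subgroup Γ), U.index ≤ n → Z ≤ U → ∀ φ : Γ → ℂ, Lin D U φ →
      ∃ ψ, Lin D ⊤ ψ ∧ Fam D (QuadOver D.S) (fun g => (f : ℂ) * (Ind U φ g - ψ g)) := by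
    intro n
    induction n with
    | zero =>
      intro U hn hZU φ _
      exact absurd (Nat.le_zero.1 hn) (fin_of_N D hZ hZU).index_ne_zero
    | succ n ih =>
      intro U hn hZU φ hφ
      by_cases hU : U = ⊤
      · subst hU
        refine ⟨φ, hφ, fam_congr (fam_zero D _) fun g => ?_⟩
        rw [Ind_cls_top (fin_of_N D hZ hZU) (fun g x => (cls_lin hφ).2 x (Subgroup.mem_top x) g),
          Subgroup.index_top]
        simp
      · obtain ⟨V, t, ht⟩ := exists_p_step hp (D.normal Z hZ) hZU h2 hU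
        have hVf : V.FiniteIndex := fin_of_N D hZ (hZU.trans ht.le)
        obtain ⟨ψ, hψ, hG⟩ := hstep hZ hZU (hS.trans hZU) ht hφ
        have hidx : V.index ≤ n := by
          have h3 := Subgroup.relIndex_mul_index ht.le
          rw [relIndex_isStep ht] at h3
          have h4 := Nat.pos_of_ne_zero hVf.index_ne_zero
          have h5 : 2 * V.index ≤ p * V.index := Nat.mul_le_mul_right _ hp.two_le
          omega
        obtain ⟨ψ', hψ', hF⟩ := ih V hidx (hZU.trans ht.le) ψ hψ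
        refine ⟨ψ', hψ', fam_congr (fam_add D _ hG hF) fun g => ?_⟩
        rw [Ind_smul, Ind_sub_A2 hVf, Ind_step hp.pos hVf ht (cls_lin hφ)]
        push_cast
        ring
  exact key U.index U le_rfl hZU φ hφ

/-- The chain of steps of prime index. -/
theorem p_chain (D : Sys Γ) (hnt : NtU D) {p : ℕ} (hp : p.Prime) {Z U : Subgroup Γ} (hZ : Z ∈ D.N) (hS : D.S ⊆ Z)
    (hZU : Z ≤ U) (h2 : ∃ n, Z.index = p ^ n) {φ : Γ → ℂ} (hφ : Lin D U φ) :
    ∃ ψ, Lin D ⊤ ψ ∧ Fam D (QuadOver D.S) (fun g => (fp p : ℂ) * (Ind U φ g - ψ g)) := by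
  refine p_chain_of D hp (fp p) (fun {M W V t} hM hMW hSW ht φ hφ' => ?_) hZ hS hZU h2 hφ
  by_cases hp2 : p = 2
  · subst hp2
    obtain ⟨ψ, hψ, hG⟩ := quad_step D hnt hM hMW hSW ht hφ'
    refine ⟨ψ, hψ, ?_⟩
    rw [fp_two, Nat.cast_one, one_zsmul]
    exact hG
  · rw [fp_odd hp2]
    exact p_step D hnt hp hp2 hM hMW hSW ht hφ'

variable {V : Type v} [AddCommGroup V] [Module ℂ V]

/-- The case of a group which is a `p`-group modulo the centralizer of the elements of `S`. -/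
theorem p_lin (D : Sys Γ) (hup : ∀ M ∈ D.N, ∀ M' : Subgroup Γ, M'.Normal → M ≤ M' → M' ∈ D.N)
    (hnt : NtU D) {p : ℕ} (hp : p.Prime) {M Z : Subgroup Γ} (hM : M ∈ D.N) (hZN : Z ∈ D.N) (hSZ : D.S ⊆ Z)
    [FiniteDimensional ℂ V]
    (ρ : Γ →* (V →ₗ[ℂ] V)) (h : ∀ g ∈ M, ρ g = 1) (hZ : ∀ g ∈ Z, ∀ c ∈ D.S, ρ g * ρ c = ρ c * ρ g)
    (h2 : ∃ n, Z.index = p ^ n) :
    ∃ ψ, Lin D ⊤ ψ ∧ Fam D (QuadOver D.S)
      (fun g => (fp p : ℂ) * (LinearMap.trace ℂ V (ρ g) - ψ g)) := by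
  obtain ⟨m, n, U, χ, hj, hf⟩ := comm_dims D hup hnt hM ρ h
    (wt_top_gen D hM ρ h fun c hc c' hc' => hZ c (hSZ hc) c' hc') hZ
  choose ψ hψ hfψ using fun j => p_chain D hnt hp hZN hSZ (hj j).1 h2 (lin_ext (hj j).2)
  refine ⟨∑ j, n j • ψ j, lin_sum_G1 _ _ fun j _ => lin_zsmul_G1 _ (hψ j), ?_⟩
  refine fam_congr (fam_add D _ (fam_zmul D _ (fp p : ℤ) (fam_mono (fun _ h => quadOver_self h) hf))
    (fam_sum D _ n _ hfψ)) fun g => ?_
  rw [Finset.sum_apply]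
  have e : ∀ j, (n j • ψ j) g = (n j : ℂ) * ψ j g := fun j => by rw [Pi.smul_apply, zsmul_eq_mul]
  simp only [e]
  have e2 : ∑ j, (n j : ℂ) * ((fp p : ℂ) * (Ind (U j) (ext (U j) (χ j)) g - ψ j g)) =
      (fp p : ℂ) * (∑ j, (n j : ℂ) * Ind (U j) (ext (U j) (χ j)) g -
        ∑ j, (n j : ℂ) * ψ j g) := by
    rw [← Finset.sum_sub_distrib, Finset.mul_sum]
    exact Finset.sum_congr rfl fun j _ => by ring
  rw [e2]
  push_cast
  ring

/-- The multiple, for a prime `p`. -/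
theorem rad_mult (D : Sys Γ) (hup : ∀ M ∈ D.N, ∀ M' : Subgroup Γ, M'.Normal → M ≤ M' → M' ∈ D.N)
    (hnt : NtU D) (θ : Γ →* ℂˣ) {Mθ : Subgroup Γ} (hMθ : Mθ ∈ D.N) (hθ : ∀ g ∈ Mθ, θ g = 1)
    (hθS : ∀ s ∈ D.S, θ s = -1) (hone : ∀ s ∈ D.S, ∀ s' ∈ D.S, ∃ g, s' = g * s * g⁻¹)
    {p : ℕ} (hp : p.Prime)
    {M Z P : Subgroup Γ} (hM : M ∈ D.N) (hZN : Z ∈ D.N) (hSZ : D.S ⊆ Z) [FiniteDimensional ℂ V]
    (ρ : Γ →* (V →ₗ[ℂ] V)) (h : ∀ g ∈ M, ρ g = 1) (hZ : ∀ g ∈ Z, ∀ c ∈ D.S, ρ g * ρ c = ρ c * ρ g)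
    (hZP : Z ≤ P) (h2 : ∃ n, Z.relIndex P = p ^ n) :
    ∃ a b : ℤ, Fam D (QuadOver D.S)
      (fun g => ((fp p * P.index : ℕ) : ℂ) * LinearMap.trace ℂ V (ρ g) - a - b * (θ g : ℂ)) := by
  have hSP : D.S ⊆ P := fun s hs => hZP (hSZ hs)
  have hPf : P.FiniteIndex := fin_of_le D hZN hZP
  have hMn := D.normal M hM
  have hZn := D.normal Z hZN
  -- the restriction to `P`
  obtain ⟨ψ, hψ, hf⟩ := p_lin (D.sub hnt P) (sub_up D hnt P) (sub_ntU D hnt P) hp (M := (M ⊓ Z).subgroupOf P)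
    (Z := Z.subgroupOf P)
    ⟨(D.normal _ (D.inf M hM Z hZN)).subgroupOf P, M ⊓ Z, D.inf M hM Z hZN, inf_le_right.trans hZP, le_rfl⟩
    ⟨hZn.subgroupOf P, Z, hZN, hZP, le_rfl⟩ (fun s hs => Subgroup.mem_subgroupOf.2 (hSZ hs))
    (ρ.comp P.subtype) (fun g hg => h _ (Subgroup.mem_subgroupOf.1 hg).1)
    (fun g hg c hc => hZ _ (Subgroup.mem_subgroupOf.1 hg) _ hc) h2
  have hf2 := fam_of_sub D hnt hPf hSP hf
  have hlin := lin_of_sub D hnt hψ
  obtain ⟨f, hfdef⟩ : ∃ f : ℕ, fp p = f := ⟨_, rfl⟩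
  have hf0 : (f : ℂ) ≠ 0 := by
    rw [← hfdef]
    exact_mod_cast (fp_pos hp).ne'
  rw [hfdef] at hf hf2 ⊢
  -- `ψ` is constant on `S`
  have hval : ∀ s ∈ D.S, exz P ψ s = LinearMap.trace ℂ V (ρ s) := by
    intro s hs
    rw [exz_mem _ (hSP hs)]
    have h3 := (fam_vanish hf).2 ⟨s, hSP hs⟩ hs
    rcases mul_eq_zero.1 h3 with h4 | h4
    · exact absurd h4 hf0
    · rw [sub_eq_zero] at h4
      exact h4.symm
  obtain ⟨a, b, hab⟩ := base_q2 D hup hnt θ hMθ hθ hθS hZN hZP hSP hlin fun s hs s' hs' => by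
    rw [hval s hs, hval s' hs']
    obtain ⟨g, rfl⟩ := hone s' hs' s hs
    have := trace_cls ρ s' g⁻¹
    rwa [inv_inv] at this
  -- the multiple
  have hmon := comm_mon D hup hnt hM ρ h (wt_top_gen D hM ρ h fun c hc c' hc' => hZ c (hSZ hc) c' hc')
  have hp := fam_mono (fun _ h => quadOver_self h) (mon_perm D hup hZN hZP hSP hmon)
  refine ⟨f * a, f * b, fam_congr (fam_add D _ (fam_add D _ hf2 (fam_zmul D _ f hab)) (fam_zmul D _ (-f) hp))
    fun g => ?_⟩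
  have e1 := ind_exz_cls (P := P) (v := fun g => LinearMap.trace ℂ V (ρ g)) (fun g x => trace_cls ρ g x) g
  have e2 : (fun p : P => (f : ℂ) * (LinearMap.trace ℂ V ((ρ.comp P.subtype) p) - ψ p)) =
      fun p : P => (f : ℂ) * LinearMap.trace ℂ V (ρ p) - (f : ℂ) * ψ p := by
    funext p
    rw [mul_sub]
    rfl
  have e3 : exz P (fun p : P => (f : ℂ) * LinearMap.trace ℂ V (ρ p)) =
      (f : ℤ) • exz P (fun p : P => LinearMap.trace ℂ V (ρ p)) := by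
    funext g
    rw [Pi.smul_apply, zsmul_eq_mul]
    by_cases hg : g ∈ P
    · rw [exz_mem _ hg, exz_mem _ hg, Int.cast_natCast]
    · rw [exz_not_mem _ hg, exz_not_mem _ hg, mul_zero]
  have e4 : exz P (fun p : P => (f : ℂ) * ψ p) = (f : ℤ) • exz P ψ := by
    funext g
    rw [Pi.smul_apply, zsmul_eq_mul]
    by_cases hg : g ∈ P
    · rw [exz_mem _ hg, exz_mem _ hg, Int.cast_natCast]
    · rw [exz_not_mem _ hg, exz_not_mem _ hg, mul_zero]
  rw [e2, exz_sub, Ind_sub_A2 hPf, e3, e4, Ind_smul, Ind_smul, e1]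
  push_cast
  ring

end

end SB
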