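import Pool.Agent.Helper21.CC.N12

/-!
# CC-N16: the multiple, for the absolute Galois group
-/

namespace SB

theorem prime_dvd_inf {Γ : Type*} [Group Γ] {Z Z' : Subgroup Γ} (hZ : Z.Normal) {p : ℕ} (hp : p.Prime)
    (h : p ∣ (Z ⊓ Z').index) : p ∣ Z.index ∨ p ∣ Z'.index := by
  have h1 := Subgroup.relIndex_mul_index (H := Z ⊓ Z') (K := Z') inf_le_right
  rw [Subgroup.inf_relIndex_right] at h1
  rw [← h1] at h
  rcases (Nat.Prime.dvd_mul hp).1 h with h2 | h2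
  · exact Or.inl (h2.trans (Subgroup.relIndex_dvd_index_of_normal Z Z'))
  · exact Or.inr h2

theorem centOn_rad {d : ℕ} (ρ : Rp GQ d) (hρ : Continuous ρ) (h : CommOn CC ρ) (θ : GQ →* ℂˣ) {Mθ : Subgroup GQ}
    (hMθ : Mθ ∈ NAll) (hθ : ∀ g ∈ Mθ, θ g = 1) (hθS : ∀ s ∈ CC, θ s = -1) {Z P : Subgroup GQ} (hZ : Z ∈ NAll)
    (hS : CC ⊆ Z) (hle : Z ≤ CentOn CC ρ) (hZP : Z ≤ P) {p : ℕ} (hp : p.Prime) (h2 : ∃ n, Z.relIndex P = p ^ n) :
    ∃ a b : ℤ, Fam sysAll (QuadOver CC)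
      (fun g => ((fp p * P.index : ℕ) : ℂ) * chr ρ g - a - b * (θ g : ℂ)) := by
  obtain ⟨M, hM, hM1⟩ := exists_M ρ hρ
  have hlin : ∀ g, g ∈ Z → ∀ c ∈ CC, lrep ρ g * lrep ρ c = lrep ρ c * lrep ρ g := by
    intro g hg c hc
    rw [← map_mul, ← map_mul]
    apply LinearMap.ext
    intro x
    change Matrix.toLin' (ρ (g * c) : Matrix (Fin d) (Fin d) ℂ) x = Matrix.toLin' (ρ (c * g) : Matrix _ _ ℂ) x
    rw [map_mul, map_mul, mem_centOn.1 (hle hg) c hc]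
  obtain ⟨a, b, hf⟩ := rad_mult sysAll up_all ntU_all θ hMθ hθ hθS (fun s hs s' hs' => cc_one hs hs') hp hM hZ
    hS (lrep ρ) (fun g hg => lrep_one ρ g (hM1 g hg)) hlin hZP h2
  refine ⟨a, b, fam_congr hf fun g => ?_⟩
  rw [trace_lrep]
  rfl

theorem cc_rad {d : ℕ} (ρ ρ' : Rp GQ d) (hρ : Continuous ρ) (hρ' : Continuous ρ') (h : CommOn CC ρ)
    (h' : CommOn CC ρ') (hc : ∀ c ∈ CC, chr ρ c = chr ρ' c) {k : ℕ}
    (hk : ∀ p : ℕ, p.Prime → p ≠ 2 → p ∣ (CentOn CC ρ).index → p ∣ k)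
    (hk' : ∀ p : ℕ, p.Prime → p ≠ 2 → p ∣ (CentOn CC ρ').index → p ∣ k) :
    ∃ K : IntermediateField ℚ Qb, FinGal ℚ K ∧
      SigComb (Γ := GQ) CC K.fixingSubgroup (QuadOver CC) (fun g => (k : ℂ) * (chr ρ g - chr ρ' g)) := by
  obtain ⟨θ, Mθ, hMθ, hθ, hθS⟩ := exists_theta
  have hZ := centOn_nAll ρ hρ
  have hZ' := centOn_nAll ρ' hρ'
  have hin : CentOn CC ρ ⊓ CentOn CC ρ' ∈ NAll := sysAll.inf _ hZ _ hZ'
  have hS : CC ⊆ (CentOn CC ρ ⊓ CentOn CC ρ' : Subgroup GQ) := fun s hs =>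
    ⟨mem_centOn.2 fun c hc => h s hs c hc, mem_centOn.2 fun c hc => h' s hs c hc⟩
  refine sigComb_of_fam (rad_fam sysAll (QuadOver CC) (v := fun g => chr ρ g - chr ρ' g) (nAll_normal hin)
    (nAll_fin hin) (fun p hp P hUP h2 => ?_) fun p hp hp2 hpn => ?_)
  · obtain ⟨a, b, h1⟩ := centOn_rad ρ hρ h θ hMθ hθ hθS hin hS inf_le_left hUP hp h2
    obtain ⟨a', b', h3⟩ := centOn_rad ρ' hρ' h' θ hMθ hθ hθS hin hS inf_le_right hUP hp h2
    refine remove_theta (v := fun g => chr ρ g - chr ρ' g) (a := a - a') (b := b - b') cc_nonempty θ hθS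
      (fam_congr (fam_add sysAll _ h1 (fam_zmul sysAll _ (-1) h3)) fun g => ?_) ?_ fun c hcc => sub_eq_zero.2 (hc c hcc)
    · push_cast
      ring
    · simp only [chr, map_one, sub_self]
  · rcases prime_dvd_inf (nAll_normal hZ) hp hpn with h4 | h4
    · exact hk p hp hp2 h4
    · exact hk' p hp hp2 h4

end SB
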