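import Pool.Agent.Helper21.CC.N1
import Pool.Agent.Helper21.CC.K

/-!
# CC-N1b: functions vanishing at one and on `S`, functions constant on `S`
-/

namespace SB

universe u

section
variable {Γ : Type u} [Group Γ]

theorem opc_qc_one {D : Sys Γ} {M U : Subgroup Γ} (hM : M ∈ D.N) (hMU : M ≤ U) : OpC D U (qc (1 : U →* ℤˣ)) :=
  ⟨M, hM, hMU, fun g h _ => by rw [Daux.qc_eq_one]; rfl⟩

theorem opc_qc_mul' {D : Sys Γ} {U : Subgroup Γ} {x y : U →* ℤˣ} (hx : OpC D U (qc x)) (hy : OpC D U (qc y)) :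
    OpC D U (qc (x * y)) := by
  obtain ⟨M, hM, hMU, h1⟩ := hx
  obtain ⟨M', hM', -, h2⟩ := hy
  refine ⟨M ⊓ M', D.inf M hM M' hM', inf_le_left.trans hMU, fun g h hg => ?_⟩
  rw [Daux.qc_eq_one, MonoidHom.mul_apply, (Daux.qc_eq_one x _).1 (h1 g h hg.1), (Daux.qc_eq_one y _).1 (h2 g h hg.2),
    one_mul]

theorem opc_qc_prod {D : Sys Γ} {M U : Subgroup Γ} (hM : M ∈ D.N) (hMU : M ≤ U) {ι : Type*} (T : Finset ι)
    (x : ι → (U →* ℤˣ)) (hx : ∀ i, OpC D U (qc (x i))) : OpC D U (qc (∏ i ∈ T, x i)) := by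
  classical
  induction T using Finset.induction_on with
  | empty => simpa using opc_qc_one hM hMU
  | insert a T ha ih =>
    rw [Finset.prod_insert ha]
    exact opc_qc_mul' (hx a) ih

/-- The value of a product of sign characters with disjoint negative sets. -/
theorem prod_neg {G : Type*} [Group G] {ι : Type*} (T : Finset ι) (x : ι → (G →* ℤˣ)) (s : G)
    (hdis : ∀ i j, i ≠ j → ¬ (x i s = -1 ∧ x j s = -1)) :
    (∏ i ∈ T, x i) s = -1 ↔ ∃ i ∈ T, x i s = -1 := by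
  classical
  rw [MonoidHom.finsetProd_apply]
  induction T using Finset.induction_on with
  | empty => simp
  | insert a T ha ih =>
    rw [Finset.prod_insert ha]
    constructor
    · intro h
      by_cases h1 : x a s = -1
      · exact ⟨a, Finset.mem_insert_self a T, h1⟩
      · rw [Daux.one_of_not_neg h1, one_mul] at h
        obtain ⟨i, hi, h2⟩ := ih.1 h
        exact ⟨i, Finset.mem_insert_of_mem hi, h2⟩
    · rintro ⟨i, hi, h1⟩
      rcases Finset.mem_insert.1 hi with rfl | hi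
      · have h2 : ¬ ∏ j ∈ T, x j s = -1 := by
          intro h3
          obtain ⟨j, hj, h4⟩ := ih.1 h3
          exact hdis i j (fun e => ha (e ▸ hj)) ⟨h1, h4⟩
        rw [h1, Daux.one_of_not_neg h2, mul_one]
      · have h2 : ∏ j ∈ T, x j s = -1 := ih.2 ⟨i, hi, h1⟩
        have h3 : ¬ x a s = -1 := fun h3 => hdis a i (fun e => ha (e ▸ hi)) ⟨h3, h1⟩
        rw [h2, Daux.one_of_not_neg h3, one_mul]

theorem gq_congr {D : Sys Γ} {U : Subgroup Γ} {φ ψ : Γ → ℂ} (h : GQ2 D U φ) (e : ψ = φ) : GQ2 D U ψ := e ▸ h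

/-- Products of sign characters with disjoint negative sets. -/
theorem prod_q2 (D : Sys Γ) {M U : Subgroup Γ} (hM : M ∈ D.N) (hMU : M ≤ U) (hS : D.S ⊆ U) {ι : Type*}
    (x : ι → (U →* ℤˣ)) (hx : ∀ i, OpC D U (qc (x i)))
    (hdis : ∀ i j, i ≠ j → ∀ s (h : s ∈ U), s ∈ D.S → ¬ (x i ⟨s, h⟩ = -1 ∧ x j ⟨s, h⟩ = -1)) (T : Finset ι) :
    GQ2 D U (ext U (qc (∏ i ∈ T, x i)) - ext U 1 - ∑ i ∈ T, (ext U (qc (x i)) - ext U 1)) := by
  classical
  have hU := fin_of_N D hM hMU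
  induction T using Finset.induction_on with
  | empty =>
    refine gq_congr (gq_pair hU (quadOver_self hS) (opc_qc_one hM hMU) (opc_one hM hMU) (fun s h hs => ?_)) ?_
    · rw [(Daux.qc_eq_one _ _).2 rfl]
      rfl
    · simp
  | insert a T ha ih =>
    have h1 := addit2 D hU hS (x a) (∏ i ∈ T, x i) (hx a) (opc_qc_prod hM hMU T x hx) (by
      rintro s h hs ⟨h1, h2⟩
      obtain ⟨i, hi, h3⟩ := (prod_neg T x ⟨s, h⟩ fun i j hij => hdis i j hij s h hs).1 h2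
      exact hdis a i (fun e => ha (e ▸ hi)) s h hs ⟨h1, h3⟩)
    refine gq_congr (gq_add hU h1 ih) ?_
    rw [Finset.prod_insert ha, Finset.sum_insert ha]
    abel

/-- The values of a linear character at the elements of `S`. -/
theorem val_S (D : Sys Γ) {U : Subgroup Γ} (χ : U →* ℂˣ) {s : Γ} (hs : s ∈ D.S) (h : s ∈ U) :
    χ ⟨s, h⟩ = 1 ∨ χ ⟨s, h⟩ = -1 := by
  have h1 : χ ⟨s, h⟩ * χ ⟨s, h⟩ = 1 := by
    rw [← map_mul]
    have : (⟨s, h⟩ : U) * ⟨s, h⟩ = 1 := Subtype.ext (D.sq s hs)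
    rw [this, map_one]
  have h2 : ((χ ⟨s, h⟩ : ℂˣ) : ℂ) * ((χ ⟨s, h⟩ : ℂˣ) : ℂ) = 1 := by rw [← Units.val_mul, h1, Units.val_one]
  rcases mul_self_eq_one_iff.1 h2 with h3 | h3
  · exact Or.inl (Units.ext h3)
  · exact Or.inr (Units.ext h3)

/-- An integral combination of linear characters of `U ⊇ S` which vanishes at `1` and on `S`. -/
theorem lin_q2 (D : Sys Γ) (hnt : NtU D) {M U : Subgroup Γ} (hM : M ∈ D.N) (hMU : M ≤ U) (hS : D.S ⊆ U) {ψ : Γ → ℂ}
    (hψ : Lin D U ψ) (h1 : ψ 1 = 0) (hs : ∀ s ∈ D.S, ψ s = 0) : GQ2 D U ψ := by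
  classical
  have hU := fin_of_N D hM hMU
  obtain ⟨m, n, χ, hχ, rfl⟩ := hψ
  -- the sign characters of the atoms
  have key : ∀ J : Finset (Fin m), ∃ x : U →* ℤˣ, OpC D U (qc x) ∧ ∀ s (h : s ∈ U), s ∈ D.S →
      (x ⟨s, h⟩ = -1 ↔ ∀ i, χ i ⟨s, h⟩ = -1 ↔ i ∈ J) := by
    intro J
    obtain ⟨M', hM', hle, x, hx1, hx2⟩ := hnt M hM U hMU {s | s ∈ D.S ∧ ∃ h : s ∈ U, ∀ i, χ i ⟨s, h⟩ = -1 ↔ i ∈ J}
      (fun s hs => hs.1) (fun s hs => hS hs.1) (by
        rintro s ⟨hsS, h, hi⟩ u hu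
        refine ⟨D.conj s hsS u, U.mul_mem (U.mul_mem hu h) (U.inv_mem hu), fun i => ?_⟩
        rw [← hi i]
        have e : (⟨u * s * u⁻¹, U.mul_mem (U.mul_mem hu h) (U.inv_mem hu)⟩ : U) = ⟨u, hu⟩ * ⟨s, h⟩ * ⟨u, hu⟩⁻¹ := rfl
        rw [e, map_mul, map_mul, map_inv, mul_comm, inv_mul_cancel_left])
    refine ⟨x, ⟨M', hM', hle.trans hMU, fun g h hg => (Daux.qc_eq_one _ _).2 (hx1 g h hg)⟩, fun s h hsS => ?_⟩
    rw [hx2 s h hsS]
    exact ⟨fun hh => by obtain ⟨-, h', hh⟩ := hh; exact hh, fun hh => ⟨hsS, h, hh⟩⟩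
  choose x hx hxs using key
  have hdis : ∀ I J, I ≠ J → ∀ s (h : s ∈ U), s ∈ D.S → ¬ (x I ⟨s, h⟩ = -1 ∧ x J ⟨s, h⟩ = -1) := by
    rintro I J hIJ s h hsS ⟨h1, h2⟩
    apply hIJ
    ext i
    rw [← (hxs I s h hsS).1 h1 i, ← (hxs J s h hsS).1 h2 i]
  -- each character has the signature of a product
  have hT : ∀ i, GQ2 D U (ext U (χ i) - ext U (qc (∏ J ∈ Finset.univ.filter (fun J : Finset (Fin m) => i ∈ J), x J))) := by
    intro i
    refine gq_pair hU (quadOver_self hS) (hχ i) (opc_qc_prod hM hMU _ x hx) fun s h hsS => ?_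
    have h2 := prod_neg (Finset.univ.filter (fun J : Finset (Fin m) => i ∈ J)) x ⟨s, h⟩
      fun I J hij => hdis I J hij s h hsS
    rcases val_S D (χ i) hsS h with h3 | h3
    · rw [h3]
      symm
      rw [Daux.qc_eq_one]
      apply Daux.one_of_not_neg
      intro h4
      obtain ⟨J, hJ, h5⟩ := h2.1 h4
      have h6 := ((hxs J s h hsS).1 h5 i).2 (Finset.mem_filter.1 hJ).2
      rw [h3] at h6
      have h7 : (1 : ℂ) = -1 := by
        have := congrArg (fun z : ℂˣ => (z : ℂ)) h6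
        simpa using this
      norm_num at h7
    · rw [h3]
      have h4 : (∏ J ∈ Finset.univ.filter (fun J : Finset (Fin m) => i ∈ J), x J) ⟨s, h⟩ = -1 := by
        refine h2.2 ⟨Finset.univ.filter (fun i => χ i ⟨s, h⟩ = -1), ?_, ?_⟩
        · simp [h3]
        · rw [hxs _ s h hsS]
          intro j
          simp
      apply Units.ext
      rw [Daux.qc_val, h4]
      simp
  -- the coefficients
  have hn : ∑ i, n i = 0 := by
    rw [Finset.sum_apply] at h1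
    have e : ∀ i, (n i • ext U (χ i)) 1 = (n i : ℂ) := by
      intro i
      rw [Pi.smul_apply, ext_mem _ U.one_mem]
      have : (⟨1, U.one_mem⟩ : U) = 1 := rfl
      rw [this, map_one]
      simp
    simp only [e] at h1
    exact_mod_cast h1
  have hc : ∀ J : Finset (Fin m), GQ2 D U ((∑ i ∈ J, n i) • (ext U (qc (x J)) - ext U 1)) := by
    intro J
    by_cases hJ : ∃ s, ∃ h : s ∈ U, s ∈ D.S ∧ x J ⟨s, h⟩ = -1
    · obtain ⟨s, h, hsS, h2⟩ := hJ
      have h3 := (hxs J s h hsS).1 h2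
      have h4 := hs s hsS
      rw [Finset.sum_apply] at h4
      have e : ∀ i, (n i • ext U (χ i)) s = (n i : ℂ) - 2 * (if i ∈ J then (n i : ℂ) else 0) := by
        intro i
        rw [Pi.smul_apply, ext_mem _ h, zsmul_eq_mul]
        by_cases hi : i ∈ J
        · rw [(h3 i).2 hi, if_pos hi]
          simp
          ring
        · rcases val_S D (χ i) hsS h with h5 | h5
          · rw [h5, if_neg hi]
            simp
          · exact absurd ((h3 i).1 h5) hi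
      simp only [e, Finset.sum_sub_distrib, ← Finset.mul_sum] at h4
      rw [← Int.cast_sum, hn, Finset.sum_ite_mem, Finset.univ_inter, ← Int.cast_sum] at h4
      have h5 : ((∑ i ∈ J, n i : ℤ) : ℂ) = 0 := by
        push_cast at h4 ⊢
        linear_combination (-1 / 2 : ℂ) * h4
      have h6 : ∑ i ∈ J, n i = 0 := by exact_mod_cast h5
      rw [h6, zero_smul]
      exact gq_zero D U
    · refine gq_zsmul _ (gq_pair hU (quadOver_self hS) (hx J) (opc_one hM hMU) fun s h hsS => ?_)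
      rw [(Daux.qc_eq_one _ _).2 (Daux.one_of_not_neg fun h2 => hJ ⟨s, h, hsS, h2⟩)]
      rfl
  -- the sum
  have h2 := gq_sum hU Finset.univ (fun i => n i • (ext U (χ i) -
    ext U (qc (∏ J ∈ Finset.univ.filter (fun J : Finset (Fin m) => i ∈ J), x J)))) fun i _ => gq_zsmul _ (hT i)
  have h3 := gq_sum hU Finset.univ (fun i => n i •
    (ext U (qc (∏ J ∈ Finset.univ.filter (fun J : Finset (Fin m) => i ∈ J), x J)) - ext U 1 -
      ∑ J ∈ Finset.univ.filter (fun J : Finset (Fin m) => i ∈ J), (ext U (qc (x J)) - ext U 1)))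
    fun i _ => gq_zsmul _ (prod_q2 D hM hMU hS x hx hdis _)
  have h4 := gq_sum hU Finset.univ (fun J : Finset (Fin m) => (∑ i ∈ J, n i) • (ext U (qc (x J)) - ext U 1))
    fun J _ => hc J
  refine gq_congr (gq_add hU (gq_add hU h2 h3) h4) ?_
  have e1 : ∑ J : Finset (Fin m), (∑ i ∈ J, n i) • (ext U (qc (x J)) - ext U 1) =
      ∑ i, n i • ∑ J ∈ Finset.univ.filter (fun J : Finset (Fin m) => i ∈ J), (ext U (qc (x J)) - ext U 1) := by
    simp only [Finset.sum_smul, Finset.smul_sum, Finset.sum_filter]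
    rw [Finset.sum_comm' (t' := Finset.univ) (s' := fun i => Finset.univ.filter (fun J : Finset (Fin m) => i ∈ J))]
    · refine Finset.sum_congr rfl fun i _ => ?_
      rw [Finset.sum_filter]
      refine Finset.sum_congr rfl fun J _ => ?_
      split_ifs <;> simp
    · intro J i
      simp
  have e2 : ∑ i, n i • (ext U 1 : Γ → ℂ) = 0 := by rw [← Finset.sum_smul, hn, zero_smul]
  rw [e1]
  simp only [smul_sub, Finset.sum_sub_distrib]
  rw [e2]
  abel

theorem base_q2 (D : Sys Γ) (hup : ∀ M ∈ D.N, ∀ M' : Subgroup Γ, M'.Normal → M ≤ M' → M' ∈ D.N) (hnt : NtU D)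
    (θ : Γ →* ℂˣ) {Mθ : Subgroup Γ} (hMθ : Mθ ∈ D.N) (hθ : ∀ g ∈ Mθ, θ g = 1) (hθS : ∀ s ∈ D.S, θ s = -1)
    {M U : Subgroup Γ} (hM : M ∈ D.N) (hMU : M ≤ U) (hS : D.S ⊆ U) {ψ : Γ → ℂ} (hψ : Lin D U ψ)
    (hc : ∀ s ∈ D.S, ∀ s' ∈ D.S, ψ s = ψ s') :
    ∃ a b : ℤ, Fam D (QuadOver D.S) (fun g => Ind U ψ g - a - b * (θ g : ℂ)) := by
  have hfin := fin_of_N D hM hMU
  obtain ⟨n, b, -, h1, hs, -⟩ := lin_int D hψ
  -- the constant
  obtain ⟨c, hc'⟩ : ∃ c : ℤ, ∀ s ∈ D.S, b s = c := by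
    by_cases he : D.S.Nonempty
    · obtain ⟨s0, hs0⟩ := he
      refine ⟨b s0, fun s hsS => ?_⟩
      have h2 := hc s hsS s0 hs0
      rw [hs s hsS (hS hsS), hs s0 hs0 (hS hs0)] at h2
      have h3 : (b s : ℂ) = b s0 := by linear_combination (-1 / 2 : ℂ) * h2
      exact_mod_cast h3
    · exact ⟨0, fun s hsS => absurd ⟨s, hsS⟩ he⟩
  have ho1 : OpC D U 1 := opc_one hM hMU
  have hoθ : OpC D U (resc U θ) := opc_resc hM hMU θ hMθ hθ
  have hlin : Lin D U (ψ - ((n - c) • ext U 1 + c • ext U (resc U θ))) :=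
    lin_sub hψ (lin_add_G1 (lin_zsmul_G1 _ (lin_ext ho1)) (lin_zsmul_G1 _ (lin_ext hoθ)))
  have hf1 : GQ2 D U (ψ - ((n - c) • ext U 1 + c • ext U (resc U θ))) := by
    refine lin_q2 D hnt hM hMU hS hlin ?_ ?_
    · simp only [Pi.sub_apply, Pi.add_apply, Pi.smul_apply]
      rw [h1, ext_one_apply U U.one_mem, ext_resc U θ U.one_mem, map_one]
      simp
    · intro s hsS
      have hsU := hS hsS
      simp only [Pi.sub_apply, Pi.add_apply, Pi.smul_apply]
      rw [hs s hsS hsU, ext_one_apply U hsU, ext_resc U θ hsU, hθS s hsS, hc' s hsS]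
      simp
      ring
  have hb := fam_mono (fun _ h => quadOver_self h) (ind_one_fam D hup hM hMU hS)
  have hbθ := fam_twist D (QuadOver D.S) hb θ hMθ hθ
  refine ⟨(n - c) * U.index, c * U.index, ?_⟩
  refine fam_congr (fam_add D _ (fam_add D _ hf1 (fam_zmul D _ (n - c) hb)) (fam_zmul D _ c hbθ)) fun g => ?_
  rw [Ind_sub_A2 hfin, Ind_add_A2 hfin, Ind_smul, Ind_smul, Ind_resc]
  push_cast
  ring

end

end SB
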