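import Pool.Agent.Helper21.CC.N1

/-!
# CC-N2: a quadratic step between subgroups containing `S`
-/

namespace SB

universe u

section
variable {Γ : Type u} [Group Γ]

theorem n2_cls {U : Subgroup Γ} (χ χ' : U →* ℂˣ) : Cls U (ext U χ - ext U χ') := by
  rw [sub_eq_add_neg]
  exact cls_add_A2 (cls_ext _ _) (cls_neg_A2 (cls_ext _ _))

theorem n2_cls4 {U : Subgroup Γ} (χ χ' χ₂ χ₃ : U →* ℂˣ) :
    Cls U (ext U χ + ext U χ' - ext U χ₂ - ext U χ₃) := by
  rw [sub_eq_add_neg, sub_eq_add_neg]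
  exact cls_add_A2 (cls_add_A2 (cls_add_A2 (cls_ext _ _) (cls_ext _ _)) (cls_neg_A2 (cls_ext _ _)))
    (cls_neg_A2 (cls_ext _ _))

theorem n2_up {D : Sys Γ} {W U : Subgroup Γ} {t : Γ} (hU : U.FiniteIndex) (h : IsStep 2 W U t) {φ : Γ → ℂ}
    (hφ : Cls W φ) (hG : GQ2 D W φ) : GQ2 D U (∑ k ∈ Finset.range 2, cj (t ^ k) φ) := by
  unfold GQ2 at hG ⊢
  rw [Ind_step (by norm_num) hU h hφ]
  exact hG

theorem n2_stable (D : Sys Γ) {H U : Subgroup Γ} {t : Γ} (hU : U.FiniteIndex) (hS : D.S ⊆ H)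
    (h : IsStep 2 H U t) (χ : H →* ℂˣ) (hχ : OpC D H χ)
    (hst : ∀ s (h1 : s ∈ H) (h2 : t⁻¹ * s * t ∈ H), s ∈ D.S → χ ⟨s, h1⟩ = χ ⟨t⁻¹ * s * t, h2⟩) :
    ∃ ψ, Lin D U ψ ∧ GQ2 D U ((∑ k ∈ Finset.range 2, cj (t ^ k) (ext H χ)) - ψ) := by
  classical
  obtain ⟨M, hMN, hMH, hMχ⟩ := hχ
  -- the set `κ`
  set κ : Set Γ := {s | s ∈ D.S ∧ ∃ h1 : s ∈ H, χ ⟨s, h1⟩ = -1} with hκ
  have hHconj : ∀ s ∈ κ, ∀ u ∈ H, u * s * u⁻¹ ∈ κ := by
    rintro s ⟨hs, h1, h2⟩ u hu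
    have h3 : u * s * u⁻¹ ∈ H := H.mul_mem (H.mul_mem hu h1) (H.inv_mem hu)
    refine ⟨D.conj s hs u, h3, ?_⟩
    have h4 : (⟨u * s * u⁻¹, h3⟩ : H) = ⟨u, hu⟩ * ⟨s, h1⟩ * (⟨u, hu⟩ : H)⁻¹ := rfl
    rw [h4, map_mul, map_mul, map_inv, mul_comm, inv_mul_cancel_left, h2]
  have htconj : ∀ s ∈ κ, t * s * t⁻¹ ∈ κ := by
    rintro s ⟨hs, h1, h2⟩
    have h3 : t * s * t⁻¹ ∈ H := h.norm t h.mem s h1
    refine ⟨D.conj s hs t, h3, ?_⟩
    have h5 : t⁻¹ * (t * s * t⁻¹) * t = s := by group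
    have h4 : t⁻¹ * (t * s * t⁻¹) * t ∈ H := by rw [h5]; exact h1
    have h6 := hst (t * s * t⁻¹) h3 h4 (D.conj s hs t)
    have h7 : (⟨t⁻¹ * (t * s * t⁻¹) * t, h4⟩ : H) = ⟨s, h1⟩ := Subtype.ext h5
    rw [h6, h7, h2]
  have hUconj : ∀ s ∈ κ, ∀ u ∈ U, u * s * u⁻¹ ∈ κ := by
    intro s hs u hu
    obtain ⟨k, hk, hk2⟩ := h.cover u hu
    have hk3 : k = 0 ∨ k = 1 := by omega
    rcases hk3 with rfl | rfl
    · rw [pow_zero, inv_one, one_mul] at hk2
      exact hHconj s hs u hk2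
    · rw [pow_one] at hk2
      have h1 := htconj _ (hHconj s hs _ hk2)
      have h2 : t * (t⁻¹ * u * s * (t⁻¹ * u)⁻¹) * t⁻¹ = u * s * u⁻¹ := by group
      rwa [h2] at h1
  have hsat : ∀ s ∈ κ, ∀ s' ∈ D.S, s⁻¹ * s' ∈ M → s' ∈ κ := by
    rintro s ⟨hs, h1, h2⟩ s' hs' hM
    have h3 : s⁻¹ * s' ∈ H := hMH hM
    have h4 : s' ∈ H := by
      have := H.mul_mem h1 h3
      rwa [mul_inv_cancel_left] at this
    refine ⟨hs', h4, ?_⟩
    have h5 : (⟨s', h4⟩ : H) = ⟨s, h1⟩ * ⟨s⁻¹ * s', h3⟩ := Subtype.ext (by simp)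
    rw [h5, map_mul, hMχ _ h3 hM, h2, mul_one]
  obtain ⟨M', hM'N, hM'M, y, hy1, hy2⟩ := D.nt M hMN U (hMH.trans h.le) κ (fun s hs => hs.1)
    (fun s hs => h.le hs.2.1) hUconj hsat
  -- the restriction of `y` to `H`
  set yH : H →* ℤˣ := y.comp (Subgroup.inclusion h.le) with hyH
  have hyH_apply : ∀ g (hg : g ∈ H), yH ⟨g, hg⟩ = y ⟨g, h.le hg⟩ := fun g hg => rfl
  have hop : OpC D H (qc yH) := by
    refine ⟨M', hM'N, hM'M.trans hMH, fun g hg hgM => ?_⟩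
    apply Units.ext
    rw [f1_qc_apply, hyH_apply g hg, hy1 g (h.le hg) hgM]
    simp
  have hsig : Sig D H χ (qc yH) := by
    intro s hs hsS
    apply Units.ext
    rw [f1_qc_apply, hyH_apply s hs]
    have hsq : χ ⟨s, hs⟩ * χ ⟨s, hs⟩ = 1 := by
      rw [← map_mul]
      have : (⟨s, hs⟩ : H) * ⟨s, hs⟩ = 1 := Subtype.ext (D.sq s hsS)
      rw [this, map_one]
    have hsq' : ((χ ⟨s, hs⟩ : ℂˣ) : ℂ) * ((χ ⟨s, hs⟩ : ℂˣ) : ℂ) = 1 := by
      rw [← Units.val_mul, hsq, Units.val_one]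
    by_cases hm : s ∈ κ
    · have h1 := (hy2 s (h.le hs) hsS).mpr hm
      obtain ⟨_, h2, h3⟩ := hm
      rw [h1, h3]
      simp
    · have h1 : y ⟨s, h.le hs⟩ ≠ -1 := fun h2 => hm ((hy2 s (h.le hs) hsS).mp h2)
      have h2 : y ⟨s, h.le hs⟩ = 1 := (Int.units_eq_one_or _).resolve_right h1
      have h3 : χ ⟨s, hs⟩ ≠ -1 := fun h4 => hm ⟨hsS, hs, h4⟩
      have h4 : ((χ ⟨s, hs⟩ : ℂˣ) : ℂ) ≠ -1 := by
        intro h5
        apply h3
        apply Units.ext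
        rw [h5]
        simp
      rw [h2]
      rcases mul_self_eq_one_iff.mp hsq' with h5 | h5
      · rw [h5]; simp
      · exact absurd h5 h4
  have hchi : OpC D H χ := ⟨M, hMN, hMH, hMχ⟩
  have hTow := n2_up hU h (n2_cls _ _) (gq_pair (finiteIndex_step h hU) (quadOver_self hS) hchi hop hsig)
  refine ⟨ext U (qc y) + ext U (qc (y * f1_eta h)), ?_, ?_⟩
  · refine ⟨2, fun _ => 1, fun i => if i = 0 then qc y else qc (y * f1_eta h), ?_, ?_⟩
    · have hMU : M' ≤ U := (hM'M.trans hMH).trans h.le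
      intro i
      by_cases hi : i = 0
      · simp only [hi, if_true]
        refine ⟨M', hM'N, hMU, fun g hg hgM => ?_⟩
        apply Units.ext
        rw [f1_qc_apply, hy1 g hg hgM]
        simp
      · simp only [hi, if_false]
        refine ⟨M', hM'N, hMU, fun g hg hgM => ?_⟩
        apply Units.ext
        rw [f1_qc_apply, MonoidHom.mul_apply, hy1 g hg hgM,
          f1_eta_mem h ⟨g, hg⟩ (hMH (hM'M hgM))]
        simp
    · rw [Fin.sum_univ_two]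
      simp
  · have hpt : ext U (qc y) + ext U (qc (y * f1_eta h)) =
        ∑ k ∈ Finset.range 2, cj (t ^ k) (ext H (qc yH)) := by
      funext g
      rw [Finset.sum_range_succ, Finset.sum_range_one, Pi.add_apply, Pi.add_apply, cj_apply, cj_apply,
        pow_zero, inv_one, one_mul, mul_one, pow_one]
      by_cases hgU : g ∈ U
      · by_cases hgH : g ∈ H
        · have h1 : t⁻¹ * g * t ∈ H := by
            have := h.norm t⁻¹ (U.inv_mem h.mem) g hgH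
            rwa [inv_inv] at this
          rw [ext_mem _ hgU, ext_mem _ hgU, ext_mem _ hgH, ext_mem _ h1, f1_qc_apply, f1_qc_apply,
            f1_qc_apply, f1_qc_apply, hyH_apply g hgH, hyH_apply _ h1, MonoidHom.mul_apply,
            f1_eta_mem h ⟨g, hgU⟩ hgH, mul_one]
          have h2 : (⟨t⁻¹ * g * t, h.le h1⟩ : U) = (⟨t, h.mem⟩ : U)⁻¹ * ⟨g, hgU⟩ * ⟨t, h.mem⟩ := rfl
          rw [h2, map_mul, map_mul, map_inv, mul_comm _ (y ⟨t, h.mem⟩), mul_inv_cancel_left]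
        · have h1 : t⁻¹ * g * t ∉ H := by
            intro h2
            apply hgH
            have := h.norm t h.mem _ h2
            have h3 : t * (t⁻¹ * g * t) * t⁻¹ = g := by group
            rwa [h3] at this
          rw [ext_mem _ hgU, ext_mem _ hgU, ext_not_mem _ hgH, ext_not_mem _ h1, f1_qc_apply, f1_qc_apply,
            MonoidHom.mul_apply, f1_eta_not_mem h ⟨g, hgU⟩ hgH]
          simp
      · have hgH : g ∉ H := fun h2 => hgU (h.le h2)
        have h1 : t⁻¹ * g * t ∉ H := by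
          intro h2
          apply hgH
          have := h.norm t h.mem _ h2
          have h3 : t * (t⁻¹ * g * t) * t⁻¹ = g := by group
          rwa [h3] at this
        rw [ext_not_mem _ hgU, ext_not_mem _ hgU, ext_not_mem _ hgH, ext_not_mem _ h1]
    have hfin : (∑ k ∈ Finset.range 2, cj (t ^ k) (ext H χ)) - (ext U (qc y) + ext U (qc (y * f1_eta h))) =
        ∑ k ∈ Finset.range 2, cj (t ^ k) (ext H χ - ext H (qc yH)) := by
      rw [hpt, ← Finset.sum_sub_distrib]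
      rfl
    rw [hfin]
    exact hTow

open F2 in
theorem n2_main (D : Sys Γ) {H U : Subgroup Γ} {t : Γ} (hU : U.FiniteIndex) (hS : D.S ⊆ H)
    (h : IsStep 2 H U t) (x : H →* ℤˣ)
    (hx : OpC D H (qc x))
    (hdis : ∀ s (h1 : s ∈ H) (h2 : t⁻¹ * s * t ∈ H), s ∈ D.S → ¬ (x ⟨s, h1⟩ = -1 ∧ x ⟨t⁻¹ * s * t, h2⟩ = -1))
    (ht2 : X x (t * t) = -1) {h₀ : Γ} (h0 : h₀ ∈ H) (hne : Y t x h₀ = -1) :
    ∃ ψ, Lin D U ψ ∧ GQ2 D U ((∑ k ∈ Finset.range 2, cj (t ^ k) (ext H (qc x))) - ψ) := by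
  classical
  obtain ⟨M, hM, hMH, hM1⟩ := hx
  have hMn : M.Normal := D.normal M hM
  -- `x` is trivial on `M`
  have hX1 : ∀ g ∈ M, X x g = 1 := by
    intro g hg
    rw [X_mem x (hMH hg)]
    have := hM1 g (hMH hg) hg
    rw [qc_apply] at this
    rcases Int.units_eq_one_or (x ⟨g, hMH hg⟩) with h1 | h1
    · exact h1
    · rw [h1] at this
      have h2 := congrArg (fun z : ℂˣ => (z : ℂ)) this
      simp only [cu_neg_val, Units.val_one] at h2
      norm_num at h2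
  have hY1 : ∀ g ∈ M, Y t x g = 1 := by
    intro g hg
    rw [Y_mem x (hMH hg), hX1 g hg]
    have := hMn.conj_mem g hg t⁻¹
    rw [inv_inv] at this
    rw [hX1 _ this, one_mul]
  have hMW : M ≤ W h x := fun g hg => ⟨h.le (hMH hg), hY1 g hg⟩
  have hop1 : OpC D (W h x) 1 := ⟨M, hM, hMW, fun _ _ _ => rfl⟩
  have hop2 : OpC D (W h x) (psi h x ht2) := by
    refine ⟨M, hM, hMW, fun g hg hgM => ?_⟩
    change P t x g = 1
    rw [P_mem x (hMH hgM), hX1 g hgM, cu_one]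
  have hsig : Sig D (W h x) (psi h x ht2) 1 := by
    intro s hs hsS
    change P t x s = 1
    obtain ⟨hsU, hsY⟩ := hs
    rcases split h hsU with h1 | ⟨k, hk, rfl⟩
    · rw [P_mem x h1]
      have h2 : X x s = 1 := by
        rcases Int.units_eq_one_or (X x s) with h3 | h3
        · exact h3
        · exfalso
          refine hdis s h1 (inv_conj h h1) hsS ⟨?_, ?_⟩
          · rw [← X_mem x h1]; exact h3
          · rw [← X_mem x (inv_conj h h1), Xc h1 hsY]; exact h3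
      rw [h2, cu_one]
    · exfalso
      have h1 : P t x (t * k * (t * k)) = P t x (t * k) * P t x (t * k) :=
        P_mul h x ht2 ⟨hsU, hsY⟩ ⟨hsU, hsY⟩
      rw [D.sq _ hsS, P_mem x H.one_mem, X_one, cu_one, P_t h x hk, mul_mul_mul_comm, iu_mul,
        ← map_mul, usq, cu_one, mul_one] at h1
      have h2 := congrArg (fun z : ℂˣ => (z : ℂ)) h1
      simp only [cu_neg_val, Units.val_one] at h2
      norm_num at h2
  have hW := stepW h x h0 hne
  have hSU : D.S ⊆ U := fun s hs => h.le (hS hs)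
  have hstep := n2_up hU hW (n2_cls _ _) (gq_pair (finiteIndex_step hW hU) (quadOver_step hSU hW) hop2 hop1 hsig)
  -- the linear combination
  refine ⟨ext U 1 + ext U (qc (eta h x)), ?_, ?_⟩
  · refine ⟨2, ![1, 1], ![1, qc (eta h x)], ?_, ?_⟩
    · intro i
      fin_cases i
      · exact ⟨M, hM, hMH.trans h.le, fun _ _ _ => rfl⟩
      · refine ⟨M, hM, hMH.trans h.le, fun g hg hgM => ?_⟩
        change qc (eta h x) ⟨g, hg⟩ = 1
        rw [qc_apply]
        change cu (Y t x g) = 1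
        rw [hY1 g hgM, cu_one]
    · simp [Fin.sum_univ_two]
  · have e : (∑ k ∈ Finset.range 2, cj (t ^ k) (ext H (qc x))) - (ext U 1 + ext U (qc (eta h x))) =
        ∑ k ∈ Finset.range 2, cj (h₀ ^ k) (ext (W h x) (psi h x ht2) - ext (W h x) 1) := by
      have h0U := h.le h0
      funext g
      simp only [Finset.sum_range_succ, Finset.sum_range_zero, zero_add, Pi.add_apply, Pi.sub_apply,
        cj_apply, pow_zero, pow_one, inv_one, one_mul, mul_one]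
      by_cases hgU : g ∈ U
      · have hc1 : h₀⁻¹ * g * h₀ ∈ U := U.mul_mem (U.mul_mem (U.inv_mem h0U) hgU) h0U
        have hc2 : Y t x (h₀⁻¹ * g * h₀) = Y t x g := by
          have := Y_conjU h x (U.inv_mem h0U) hgU
          rwa [inv_inv] at this
        rw [ext_mem (1 : U →* ℂˣ) hgU, ext_mem (qc (eta h x)) hgU]
        have hq : ((qc (eta h x) ⟨g, hgU⟩ : ℂˣ) : ℂ) = ((cu (Y t x g) : ℂˣ) : ℂ) := rfl
        rw [hq]
        rcases Int.units_eq_one_or (Y t x g) with hY | hY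
        · have hgW : g ∈ W h x := ⟨hgU, hY⟩
          have hgW' : h₀⁻¹ * g * h₀ ∈ W h x := ⟨hc1, by rw [hc2]; exact hY⟩
          rw [ext_mem (psi h x ht2) hgW, ext_mem (psi h x ht2) hgW', ext_mem (1 : W h x →* ℂˣ) hgW,
            ext_mem (1 : W h x →* ℂˣ) hgW', hY, cu_one]
          have e1 : ((psi h x ht2 ⟨g, hgW⟩ : ℂˣ) : ℂ) = ((P t x g : ℂˣ) : ℂ) := rfl
          have e2 : ((psi h x ht2 ⟨h₀⁻¹ * g * h₀, hgW'⟩ : ℂˣ) : ℂ) = ((P t x (h₀⁻¹ * g * h₀) : ℂˣ) : ℂ) := rfl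
          rw [e1, e2]
          rcases split h hgU with h1 | ⟨k, hk, rfl⟩
          · have h2 : h₀⁻¹ * g * h₀ ∈ H := H.mul_mem (H.mul_mem (H.inv_mem h0) h1) h0
            have h3 : X x (h₀⁻¹ * g * h₀) = X x g := by
              rw [X_mul x (H.mul_mem (H.inv_mem h0) h1) h0, X_mul x (H.inv_mem h0) h1, X_inv x h0,
                mul_right_comm, usq, one_mul]
            rw [ext_mem (qc x) h1, ext_mem (qc x) (inv_conj h h1), P_mem x h1, P_mem x h2, h3,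
              qc_apply, qc_apply, ← X_mem x h1, ← X_mem x (inv_conj h h1), Xc h1 hY]
            simp only [MonoidHom.one_apply, Units.val_one]
            ring
          · have h2 : t⁻¹ * (t * k) * t ∉ H := by
              intro h3
              apply t_mul_not h hk
              have h4 := h.norm t h.mem _ h3
              have h5 : t * (t⁻¹ * (t * k) * t) * t⁻¹ = t * k := by group
              rwa [h5] at h4
            have e3 : P t x (h₀⁻¹ * (t * k) * h₀) = P t x (t * (t⁻¹ * h₀⁻¹ * t * k * h₀)) := by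
              congr 1
              group
            have h4 : t⁻¹ * h₀⁻¹ * t ∈ H := inv_conj h (H.inv_mem h0)
            have h5 : X x (t⁻¹ * h₀⁻¹ * t) = X x (t⁻¹ * h₀ * t) := by
              have : t⁻¹ * h₀⁻¹ * t = (t⁻¹ * h₀ * t)⁻¹ := by group
              rw [this, X_inv x (inv_conj h h0)]
            have h6 : X x (t⁻¹ * h₀ * t) * X x k * X x h₀ = -1 * X x k := by
              rw [mul_right_comm, mul_comm (X x (t⁻¹ * h₀ * t)), ← Y_mem (t := t) x h0, hne]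
            rw [ext_not_mem (qc x) (t_mul_not h hk), ext_not_mem (qc x) h2, e3, P_t h x hk,
              P_t h x (H.mul_mem (H.mul_mem h4 hk) h0), X_mul x (H.mul_mem h4 hk) h0, X_mul x h4 hk, h5, h6,
              map_mul]
            simp only [MonoidHom.one_apply, Units.val_one, Units.val_mul, cu_neg_val]
            ring
        · have hgW : g ∉ W h x := by
            intro h1
            have := h1.2
            rw [hY] at this
            revert this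
            decide
          have hgW' : h₀⁻¹ * g * h₀ ∉ W h x := by
            intro h1
            have := h1.2
            rw [hc2, hY] at this
            revert this
            decide
          rw [ext_not_mem (psi h x ht2) hgW, ext_not_mem (psi h x ht2) hgW',
            ext_not_mem (1 : W h x →* ℂˣ) hgW, ext_not_mem (1 : W h x →* ℂˣ) hgW', hY, cu_neg_val]
          rcases split h hgU with h1 | ⟨k, hk, rfl⟩
          · have h3 : X x (t⁻¹ * g * t) = -1 * X x g := by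
              rw [← hY, Y_mem x h1, mul_right_comm, usq, one_mul]
            rw [ext_mem (qc x) h1, ext_mem (qc x) (inv_conj h h1),
              qc_apply, qc_apply, ← X_mem x h1, ← X_mem x (inv_conj h h1), h3, map_mul]
            simp only [MonoidHom.one_apply, Units.val_one, Units.val_mul, cu_neg_val]
            ring
          · have h2 : t⁻¹ * (t * k) * t ∉ H := by
              intro h3
              apply t_mul_not h hk
              have h4 := h.norm t h.mem _ h3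
              have h5 : t * (t⁻¹ * (t * k) * t) * t⁻¹ = t * k := by group
              rwa [h5] at h4
            rw [ext_not_mem (qc x) (t_mul_not h hk), ext_not_mem (qc x) h2]
            simp
      · have hc1 : h₀⁻¹ * g * h₀ ∉ U := by
          intro h1
          apply hgU
          have := U.mul_mem (U.mul_mem h0U h1) (U.inv_mem h0U)
          have e : h₀ * (h₀⁻¹ * g * h₀) * h₀⁻¹ = g := by group
          rwa [e] at this
        have hc2 : t⁻¹ * g * t ∉ U := by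
          intro h1
          apply hgU
          have := U.mul_mem (U.mul_mem h.mem h1) (U.inv_mem h.mem)
          have e : t * (t⁻¹ * g * t) * t⁻¹ = g := by group
          rwa [e] at this
        rw [ext_not_mem _ hgU, ext_not_mem _ hgU, ext_not_mem (qc x) (fun h1 => hgU (h.le h1)),
          ext_not_mem (qc x) (fun h1 => hc2 (h.le h1)),
          ext_not_mem (psi h x ht2) (fun h1 => hgU h1.1), ext_not_mem (psi h x ht2) (fun h1 => hc1 h1.1),
          ext_not_mem (1 : W h x →* ℂˣ) (fun h1 => hgU h1.1), ext_not_mem (1 : W h x →* ℂˣ) (fun h1 => hc1 h1.1)]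
        simp
    rw [e]
    exact hstep

open F2 in
theorem n2_disj (D : Sys Γ) {H U : Subgroup Γ} {t : Γ} (hU : U.FiniteIndex) (hS : D.S ⊆ H)
    (h : IsStep 2 H U t)
    (x : H →* ℤˣ) (hx : OpC D H (qc x))
    (hdis : ∀ s (h1 : s ∈ H) (h2 : t⁻¹ * s * t ∈ H), s ∈ D.S → ¬ (x ⟨s, h1⟩ = -1 ∧ x ⟨t⁻¹ * s * t, h2⟩ = -1)) :
    ∃ ψ, Lin D U ψ ∧ GQ2 D U ((∑ k ∈ Finset.range 2, cj (t ^ k) (ext H (qc x))) - ψ) := by
  classical
  by_cases hA : ∀ g ∈ H, Y t x g = 1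
  · -- stable case
    refine n2_stable D hU hS h (qc x) hx ?_
    intro s h1 h2 _
    rw [qc_apply, qc_apply, ← X_mem x h1, ← X_mem x h2, Xc h1 (hA s h1)]
  · push Not at hA
    obtain ⟨h₀, h0, hne⟩ := hA
    have hne' : Y t x h₀ = -1 := (Int.units_eq_one_or _).resolve_left hne
    rcases Int.units_eq_one_or (X x (t * t)) with ht | ht
    · -- replace `t` by `t * h₀`
      have hXt : ∀ g ∈ H, X x ((t * h₀)⁻¹ * g * (t * h₀)) = X x (t⁻¹ * g * t) := by
        intro g hg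
        have e : (t * h₀)⁻¹ * g * (t * h₀) = h₀⁻¹ * (t⁻¹ * g * t) * h₀ := by group
        rw [e, X_mul x (H.mul_mem (H.inv_mem h0) (inv_conj h hg)) h0, X_mul x (H.inv_mem h0) (inv_conj h hg),
          X_inv x h0, mul_right_comm, usq, one_mul]
      have hs : IsStep 2 H U (t * h₀) := by
        refine ⟨h.le, U.mul_mem h.mem (h.le h0), h.norm, ?_, ?_⟩
        · intro u hu
          by_cases h1 : u ∈ H
          · exact ⟨0, by norm_num, by simpa using h1⟩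
          · refine ⟨1, by norm_num, ?_⟩
            have e : (t * h₀) ^ 1 = t * h₀ := pow_one _
            rw [e]
            have e2 : (t * h₀)⁻¹ * u = h₀⁻¹ * (t⁻¹ * u) := by group
            rw [e2]
            exact H.mul_mem (H.inv_mem h0) (cov h hu h1)
        · intro k hk hk2
          have : k = 0 ∨ k = 1 := by omega
          rcases this with rfl | rfl
          · rfl
          · rw [pow_one] at hk2
            exact absurd hk2 (t_mul_not h h0)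
      have hYt : ∀ g ∈ H, Y (t * h₀) x g = Y t x g := by
        intro g hg
        rw [Y_mem x hg, Y_mem x hg, hXt g hg]
      have hsq : X x (t * h₀ * (t * h₀)) = -1 := by
        have e : t * h₀ * (t * h₀) = t * t * (t⁻¹ * h₀ * t * h₀) := by group
        rw [e, X_mul x (tt_mem h) (H.mul_mem (inv_conj h h0) h0), ht, one_mul,
          X_mul x (inv_conj h h0) h0, mul_comm, ← Y_mem (t := t) x h0, hne']
      have hd : ∀ s (h1 : s ∈ H) (h2 : (t * h₀)⁻¹ * s * (t * h₀) ∈ H), s ∈ D.S →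
          ¬ (x ⟨s, h1⟩ = -1 ∧ x ⟨(t * h₀)⁻¹ * s * (t * h₀), h2⟩ = -1) := by
        rintro s h1 h2 hsS ⟨h3, h4⟩
        refine hdis s h1 (inv_conj h h1) hsS ⟨h3, ?_⟩
        rw [← X_mem x (inv_conj h h1), ← hXt s h1, X_mem x h2]
        exact h4
      obtain ⟨ψ, hψ1, hψ2⟩ := n2_main D hU hS hs x hx hd hsq h0 (by rw [hYt h₀ h0]; exact hne')
      refine ⟨ψ, hψ1, ?_⟩
      have e : (∑ k ∈ Finset.range 2, cj (t ^ k) (ext H (qc x))) =
          ∑ k ∈ Finset.range 2, cj ((t * h₀) ^ k) (ext H (qc x)) := by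
        funext g
        simp only [Finset.sum_range_succ, Finset.sum_range_zero, zero_add, Pi.add_apply,
          cj_apply, pow_zero, pow_one, inv_one, one_mul, mul_one]
        congr 1
        have := (cls_ext H (qc x)).2 h₀ h0 (t⁻¹ * g * t)
        rw [← this]
        congr 1
        group
      rw [e]
      exact hψ2
    · exact n2_main D hU hS h x hx hdis ht h0 hne'

theorem n2_one (D : Sys Γ) {H U : Subgroup Γ} {t : Γ} (hU : U.FiniteIndex) (hS : D.S ⊆ H)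
    (h : IsStep 2 H U t) (χ : H →* ℂˣ) (hχ : OpC D H χ) :
    ∃ ψ, Lin D U ψ ∧ GQ2 D U ((∑ k ∈ Finset.range 2, cj (t ^ k) (ext H χ)) - ψ) := by
  obtain ⟨M, hM, hMH, hχM⟩ := hχ
  have hMn := D.normal M hM
  have ht2 : t * t ∈ H := by
    have := h.pow_mem
    rwa [pow_two] at this
  -- the value of `χ` on involutions
  have hval : ∀ s (hs : s ∈ H), s ∈ D.S → χ ⟨s, hs⟩ = 1 ∨ χ ⟨s, hs⟩ = -1 := by
    intro s hs hsS
    have h1 : χ ⟨s, hs⟩ * χ ⟨s, hs⟩ = 1 := by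
      rw [← map_mul]
      have : (⟨s, hs⟩ : H) * ⟨s, hs⟩ = 1 := Subtype.ext (D.sq s hsS)
      rw [this, map_one]
    rw [← pow_two] at h1
    have h2 : ((χ ⟨s, hs⟩ : ℂˣ) : ℂ) ^ 2 = 1 := by
      rw [← Units.val_pow_eq_pow_val, h1, Units.val_one]
    have h3 : (((χ ⟨s, hs⟩ : ℂˣ) : ℂ) - 1) * (((χ ⟨s, hs⟩ : ℂˣ) : ℂ) + 1) = 0 := by
      linear_combination h2
    rcases mul_eq_zero.mp h3 with h4 | h4
    · left; exact Units.ext (by rw [Units.val_one]; exact sub_eq_zero.mp h4)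
    · right; exact Units.ext (by rw [Units.val_neg, Units.val_one]; exact eq_neg_of_add_eq_zero_left h4)
  set κ : Set Γ := {s | s ∈ D.S ∧ ∃ hs : s ∈ H, χ ⟨s, hs⟩ = -1} with hκ
  have hκH : ∀ s ∈ κ, ∀ u ∈ H, u * s * u⁻¹ ∈ κ := by
    rintro s ⟨hsS, hsH, hs⟩ u hu
    refine ⟨D.conj s hsS u, H.mul_mem (H.mul_mem hu hsH) (H.inv_mem hu), ?_⟩
    have : (⟨u * s * u⁻¹, H.mul_mem (H.mul_mem hu hsH) (H.inv_mem hu)⟩ : H) =
        ⟨u, hu⟩ * ⟨s, hsH⟩ * (⟨u, hu⟩ : H)⁻¹ := rfl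
    rw [this, map_mul, map_mul, map_inv, hs, mul_comm, ← mul_assoc, inv_mul_cancel, one_mul]
  have hκM : ∀ s ∈ κ, ∀ s' ∈ D.S, s⁻¹ * s' ∈ M → s' ∈ κ := by
    rintro s ⟨hsS, hsH, hs⟩ s' hs' hm
    have hs'H : s' ∈ H := by
      have := H.mul_mem hsH (hMH hm)
      rwa [mul_inv_cancel_left] at this
    refine ⟨hs', hs'H, ?_⟩
    have : (⟨s', hs'H⟩ : H) = ⟨s, hsH⟩ * ⟨s⁻¹ * s', hMH hm⟩ := Subtype.ext (by simp)
    rw [this, map_mul, hs, hχM _ _ hm, mul_one]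
  have hinvH : ∀ u ∈ H, t⁻¹ * u * t ∈ H := by
    intro u hu
    have := h.norm t⁻¹ (U.inv_mem h.mem) u hu
    rwa [inv_inv] at this
  set κ₁ : Set Γ := {s | s ∈ κ ∧ t⁻¹ * s * t ∈ κ} with hκ₁
  have hκ₁H : ∀ s ∈ κ₁, ∀ u ∈ H, u * s * u⁻¹ ∈ κ₁ := by
    rintro s ⟨h1, h2⟩ u hu
    refine ⟨hκH s h1 u hu, ?_⟩
    have := hκH _ h2 _ (hinvH u hu)
    have e : t⁻¹ * (u * s * u⁻¹) * t = t⁻¹ * u * t * (t⁻¹ * s * t) * (t⁻¹ * u * t)⁻¹ := by group
    rwa [e]
  have hκ₁M : ∀ s ∈ κ₁, ∀ s' ∈ D.S, s⁻¹ * s' ∈ M → s' ∈ κ₁ := by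
    rintro s ⟨h1, h2⟩ s' hs' hm
    refine ⟨hκM s h1 s' hs' hm, ?_⟩
    refine hκM _ h2 _ ?_ ?_
    · have := D.conj s' hs' t⁻¹
      rwa [inv_inv] at this
    · have := hMn.conj_mem _ hm t⁻¹
      have e : (t⁻¹ * s * t)⁻¹ * (t⁻¹ * s' * t) = t⁻¹ * (s⁻¹ * s') * t⁻¹⁻¹ := by group
      rwa [e]
  set κ₂ : Set Γ := {s | s ∈ κ ∧ s ∉ κ₁} with hκ₂
  have hκ₂H : ∀ s ∈ κ₂, ∀ u ∈ H, u * s * u⁻¹ ∈ κ₂ := by
    rintro s ⟨h1, h2⟩ u hu
    refine ⟨hκH s h1 u hu, fun h3 => h2 ?_⟩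
    have := hκ₁H _ h3 _ (H.inv_mem hu)
    have e : u⁻¹ * (u * s * u⁻¹) * u⁻¹⁻¹ = s := by group
    rwa [e] at this
  have hκ₂M : ∀ s ∈ κ₂, ∀ s' ∈ D.S, s⁻¹ * s' ∈ M → s' ∈ κ₂ := by
    rintro s ⟨h1, h2⟩ s' hs' hm
    refine ⟨hκM s h1 s' hs' hm, fun h3 => h2 ?_⟩
    refine hκ₁M _ h3 s h1.1 ?_
    have := M.inv_mem hm
    rwa [mul_inv_rev, inv_inv] at this
  obtain ⟨M₁, hM₁, hM₁M, x₁, hx₁M, hx₁⟩ := D.nt M hM H hMH κ₁ (fun s hs => hs.1.1)
    (fun s hs => hs.1.2.1) hκ₁H hκ₁M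
  obtain ⟨M₂, hM₂, hM₂M, x₂, hx₂M, hx₂⟩ := D.nt M hM H hMH κ₂ (fun s hs => hs.1.1)
    (fun s hs => hs.1.2.1) hκ₂H hκ₂M
  have ho₁ : OpC D H (qc x₁) := opc_qc_F x₁ hM₁ (hM₁M.trans hMH) hx₁M
  have ho₂ : OpC D H (qc x₂) := opc_qc_F x₂ hM₂ (hM₂M.trans hMH) hx₂M
  have ho₁₂ : OpC D H (qc (x₁ * x₂)) := by
    refine opc_qc_F (x₁ * x₂) (D.inf M₁ hM₁ M₂ hM₂) (inf_le_left.trans (hM₁M.trans hMH)) ?_
    intro g hg hgM
    rw [MonoidHom.mul_apply, hx₁M g hg hgM.1, hx₂M g hg hgM.2, mul_one]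
  have ho : OpC D H χ := ⟨M, hM, hMH, hχM⟩
  have ho1 : OpC D H 1 := ⟨M, hM, hMH, fun _ _ _ => rfl⟩
  have hsig : Sig D H χ (qc (x₁ * x₂)) := by
    intro s hs hsS
    by_cases h1 : s ∈ κ
    · obtain ⟨_, _, hc⟩ := h1
      rw [hc]
      refine (qc_eq_neg_one_F _ _ ?_).symm
      rw [MonoidHom.mul_apply]
      by_cases h3 : s ∈ κ₁
      · have h4 : x₂ ⟨s, hs⟩ = 1 := by
          rcases Int.units_eq_one_or (x₂ ⟨s, hs⟩) with h5 | h5
          · exact h5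
          · exact absurd h3 ((hx₂ s hs hsS).mp h5).2
        rw [(hx₁ s hs hsS).mpr h3, h4, mul_one]
      · have h4 : x₁ ⟨s, hs⟩ = 1 := by
          rcases Int.units_eq_one_or (x₁ ⟨s, hs⟩) with h5 | h5
          · exact h5
          · exact absurd ((hx₁ s hs hsS).mp h5) h3
        rw [(hx₂ s hs hsS).mpr ⟨⟨hsS, hs, hc⟩, h3⟩, h4, one_mul]
    · have hc : χ ⟨s, hs⟩ = 1 := by
        rcases hval s hs hsS with h5 | h5
        · exact h5
        · exact absurd ⟨hsS, hs, h5⟩ h1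
      rw [hc]
      refine (qc_eq_one_F _ _ ?_).symm
      rw [MonoidHom.mul_apply]
      have h4 : x₁ ⟨s, hs⟩ = 1 := by
        rcases Int.units_eq_one_or (x₁ ⟨s, hs⟩) with h5 | h5
        · exact h5
        · exact absurd ((hx₁ s hs hsS).mp h5).1 h1
      have h4' : x₂ ⟨s, hs⟩ = 1 := by
        rcases Int.units_eq_one_or (x₂ ⟨s, hs⟩) with h5 | h5
        · exact h5
        · exact absurd ((hx₂ s hs hsS).mp h5).1 h1
      rw [h4, h4', mul_one]
  have hH := finiteIndex_step h hU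
  have hb : GQ2 D H (ext H χ - ext H (qc (x₁ * x₂))) := gq_pair hH (quadOver_self hS) ho ho₁₂ hsig
  have ha := addit2 D hH hS x₁ x₂ ho₁ ho₂ (by
    rintro s hs hsS ⟨h1, h2⟩
    exact ((hx₂ s hs hsS).mp h2).2 ((hx₁ s hs hsS).mp h1))
  have hT := n2_up hU h (cls_add_A2 (n2_cls _ _) (n2_cls4 _ _ _ _)) (gq_add hH hb ha)
  -- stable part
  have hmem : ∀ s, s ∈ D.S → (s ∈ κ₁ ↔ t⁻¹ * s * t ∈ κ₁) := by
    intro s _
    have e : t⁻¹ * (t⁻¹ * s * t) * t = (t * t)⁻¹ * s * (t * t)⁻¹⁻¹ := by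
      rw [inv_inv, mul_inv_rev]; simp only [mul_assoc]
    constructor
    · rintro ⟨h1, h2⟩
      refine ⟨h2, ?_⟩
      rw [e]
      exact hκH s h1 _ (H.inv_mem ht2)
    · rintro ⟨h1, h2⟩
      refine ⟨?_, h1⟩
      rw [e] at h2
      have := hκH _ h2 _ ht2
      have e2 : t * t * ((t * t)⁻¹ * s * (t * t)⁻¹⁻¹) * (t * t)⁻¹ = s := by group
      rwa [e2] at this
  obtain ⟨ψ₁, hL₁, hT₁⟩ := n2_stable D hU hS h (qc x₁) ho₁ (by
    intro s h1 h2 hsS
    have hsS' : t⁻¹ * s * t ∈ D.S := by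
      have := D.conj s hsS t⁻¹
      rwa [inv_inv] at this
    have e : x₁ ⟨s, h1⟩ = x₁ ⟨t⁻¹ * s * t, h2⟩ := by
      have e1 := hx₁ s h1 hsS
      have e2 := hx₁ _ h2 hsS'
      have e3 := hmem s hsS
      rcases Int.units_eq_one_or (x₁ ⟨s, h1⟩) with h5 | h5
      · rcases Int.units_eq_one_or (x₁ ⟨t⁻¹ * s * t, h2⟩) with h6 | h6
        · rw [h5, h6]
        · rw [h6]
          exact e1.mpr (e3.mpr (e2.mp h6))
      · rw [h5]
        exact (e2.mpr (e3.mp (e1.mp h5))).symm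
    apply Units.ext
    rw [qc_apply_F, qc_apply_F, e])
  obtain ⟨ψ₀, hL₀, hT₀⟩ := n2_stable D hU hS h 1 ho1 (fun _ _ _ _ => rfl)
  obtain ⟨ψ₂, hL₂, hT₂⟩ := n2_disj D hU hS h x₂ ho₂ (by
    rintro s h1 h2 hsS ⟨h3, h4⟩
    have hsS' : t⁻¹ * s * t ∈ D.S := by
      have := D.conj s hsS t⁻¹
      rwa [inv_inv] at this
    have h5 := (hx₂ s h1 hsS).mp h3
    have h6 := (hx₂ _ h2 hsS').mp h4
    exact h5.2 ⟨h5.1, h6.1⟩)
  refine ⟨ψ₁ + ψ₂ + -ψ₀, lin_add_F (lin_add_F hL₁ hL₂) (lin_neg_F hL₀), ?_⟩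
  have hfin := gq_sub hU (gq_add hU (gq_add hU hT hT₁) hT₂) hT₀
  have key : (∑ k ∈ Finset.range 2, cj (t ^ k) (ext H χ)) - (ψ₁ + ψ₂ + -ψ₀) =
      (∑ k ∈ Finset.range 2, cj (t ^ k) (ext H χ - ext H (qc (x₁ * x₂)) +
        (ext H 1 + ext H (qc (x₁ * x₂)) - ext H (qc x₁) - ext H (qc x₂)))) +
      ((∑ k ∈ Finset.range 2, cj (t ^ k) (ext H (qc x₁))) - ψ₁) +
      ((∑ k ∈ Finset.range 2, cj (t ^ k) (ext H (qc x₂))) - ψ₂) -
      ((∑ k ∈ Finset.range 2, cj (t ^ k) (ext H 1)) - ψ₀) := by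
    funext g
    simp only [Finset.sum_range_succ, Finset.sum_range_zero, Pi.add_apply, Pi.sub_apply, Pi.neg_apply,
      cj_apply, Pi.zero_apply]
    ring
  rw [key]
  exact hfin

/-- KO-2 (file CC/N2.lean): a quadratic step between subgroups containing `S`. -/
theorem quad_step (D : Sys Γ) (hnt : NtU D) {M W V : Subgroup Γ} {t : Γ} (hM : M ∈ D.N) (hMW : M ≤ W)
    (hS : D.S ⊆ W) (h : IsStep 2 W V t) {φ : Γ → ℂ} (hφ : Lin D W φ) :
    ∃ ψ, Lin D V ψ ∧ GQ2 D V ((∑ k ∈ Finset.range 2, cj (t ^ k) φ) - ψ) := by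
  have hV := fin_of_N D hM (hMW.trans h.le)
  obtain ⟨m, n, χ, hχ, rfl⟩ := hφ
  have key := fun i => n2_one D hV hS h (χ i) (hχ i)
  choose ψ hψ hG using key
  refine ⟨∑ i, n i • ψ i, lin_sum_G1 _ _ fun i _ => lin_zsmul_G1 _ (hψ i), ?_⟩
  have e : (∑ k ∈ Finset.range 2, cj (t ^ k) (∑ i, n i • ext W (χ i))) - ∑ i, n i • ψ i =
      ∑ i, n i • ((∑ k ∈ Finset.range 2, cj (t ^ k) (ext W (χ i))) - ψ i) := by
    simp only [smul_sub, Finset.sum_sub_distrib]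
    congr 1
    rw [Finset.sum_congr rfl fun k _ => cj_sum_L1 Finset.univ (t ^ k) (fun i => ext W (χ i)) n,
      Finset.sum_comm]
    exact Finset.sum_congr rfl fun i _ => (Finset.smul_sum).symm
  rw [e]
  exact gq_sum hV _ _ fun i _ => gq_zsmul _ (hG i)

end

end SB
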