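import Pool.Agent.Helper21.CC.N1
import Pool.Agent.Helper21.CT.P

/-!
# KO-3: the chain of quadratic steps of a normal subgroup of index a power of two
-/

namespace SB

universe u

section
variable {Γ : Type u} [Group Γ]

/-- A proper subgroup which contains a normal subgroup of index a power of two has index two in a larger one. -/
theorem exists_two_step_N3 {Z U : Subgroup Γ} (hZ : Z.Normal) (hZU : Z ≤ U) (h2 : ∃ n, Z.index = 2 ^ n)
    (hU : U ≠ ⊤) : ∃ (V : Subgroup Γ) (t : Γ), IsStep 2 U V t := by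
  obtain ⟨N, hN⟩ := h2
  have hcard : Nat.card (Γ ⧸ Z) = 2 ^ N := by rw [← Subgroup.index_eq_card, hN]
  have hfin : Finite (Γ ⧸ Z) := Nat.finite_of_card_ne_zero (by rw [hcard]; positivity)
  have hF : Fact (Nat.Prime 2) := ⟨Nat.prime_two⟩
  have hUH : (U.map (QuotientGroup.mk' Z)).comap (QuotientGroup.mk' Z) = U :=
    Subgroup.comap_map_eq_self (by rw [QuotientGroup.ker_mk']; exact hZU)
  have hd : Nat.card (U.map (QuotientGroup.mk' Z)) ∣ 2 ^ N := by
    rw [← hcard]
    exact Subgroup.card_subgroup_dvd_card _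
  obtain ⟨k, hk, hkc⟩ := (Nat.dvd_prime_pow Nat.prime_two).1 hd
  have hkN : k ≠ N := by
    intro e
    apply hU
    have h1 : U.map (QuotientGroup.mk' Z) = ⊤ := by
      apply Subgroup.eq_top_of_card_eq
      rw [hkc, hcard, e]
    rw [← hUH, h1, Subgroup.comap_top]
  obtain ⟨K, hK, hHK⟩ := Sylow.exists_subgroup_card_pow_succ (p := 2) (n := k)
    (H := U.map (QuotientGroup.mk' Z)) (by
      rw [hcard]
      exact pow_dvd_pow 2 (by omega)) hkc
  have hrel : (U.map (QuotientGroup.mk' Z)).relIndex K = 2 := by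
    have h1 := Subgroup.relIndex_mul_relIndex ⊥ (U.map (QuotientGroup.mk' Z)) K bot_le hHK
    rw [Subgroup.relIndex_bot_left, Subgroup.relIndex_bot_left, hK, hkc, pow_succ] at h1
    exact Nat.eq_of_mul_eq_mul_left (by positivity) h1
  have hle : U ≤ K.comap (QuotientGroup.mk' Z) := by
    conv_lhs => rw [← hUH]
    exact Subgroup.comap_mono hHK
  have hrel2 : U.relIndex (K.comap (QuotientGroup.mk' Z)) = 2 := by
    conv_lhs => rw [← hUH]
    rw [Subgroup.relIndex_comap, Subgroup.map_comap_eq_self_of_surjective (QuotientGroup.mk'_surjective Z), hrel]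
  have hnorm : (U.subgroupOf (K.comap (QuotientGroup.mk' Z))).Normal := Subgroup.normal_of_index_eq_two hrel2
  obtain ⟨t, ht⟩ := exists_isStep hle (fun u hu w hw => by
    have h1 := hnorm.conj_mem ⟨w, hle hw⟩ (Subgroup.mem_subgroupOf.2 hw) ⟨u, hu⟩
    exact Subgroup.mem_subgroupOf.1 h1) (by rw [hrel2]; exact Nat.prime_two)
  rw [hrel2] at ht
  exact ⟨_, t, ht⟩

/-- KO-3, with the quadratic step as an assumption. -/
theorem quad_chain_of (D : Sys Γ)
    (hstep : ∀ {M W V : Subgroup Γ} {t : Γ}, M ∈ D.N → M ≤ W → D.S ⊆ W → IsStep 2 W V t →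
      ∀ {φ : Γ → ℂ}, Lin D W φ →
        ∃ ψ, Lin D V ψ ∧ GQ2 D V ((∑ k ∈ Finset.range 2, cj (t ^ k) φ) - ψ))
    {Z U : Subgroup Γ} (hZ : Z ∈ D.N) (hS : D.S ⊆ Z) (hZU : Z ≤ U) (h2 : ∃ n, Z.index = 2 ^ n)
    {φ : Γ → ℂ} (hφ : Lin D U φ) :
    ∃ ψ, Lin D ⊤ ψ ∧ Fam D (QuadOver D.S) (fun g => Ind U φ g - ψ g) := by
  have key : ∀ (n : ℕ) (U : Subgroup Γ), U.index ≤ n → Z ≤ U → ∀ φ : Γ → ℂ, Lin D U φ →
      ∃ ψ, Lin D ⊤ ψ ∧ Fam D (QuadOver D.S) (fun g => Ind U φ g - ψ g) := by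
    intro n
    induction n with
    | zero =>
      intro U hn hZU φ _
      exact absurd (Nat.le_zero.1 hn) (fin_of_N D hZ hZU).index_ne_zero
    | succ n ih =>
      intro U hn hZU φ hφ
      by_cases hU : U = ⊤
      · subst hU
        refine ⟨φ, hφ, fam_congr (fam_zero D _) fun g => ?_⟩
        rw [Ind_cls_top (fin_of_N D hZ hZU) (fun g x => (cls_lin hφ).2 x (Subgroup.mem_top x) g),
          Subgroup.index_top]
        simp
      · obtain ⟨V, t, ht⟩ := exists_two_step_N3 (D.normal Z hZ) hZU h2 hU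
        have hVf : V.FiniteIndex := fin_of_N D hZ (hZU.trans ht.le)
        obtain ⟨ψ, hψ, hG⟩ := hstep hZ hZU (hS.trans hZU) ht hφ
        have hidx : V.index ≤ n := by
          have h3 := Subgroup.relIndex_mul_index ht.le
          rw [relIndex_isStep ht] at h3
          have h4 := Nat.pos_of_ne_zero hVf.index_ne_zero
          omega
        obtain ⟨ψ', hψ', hF⟩ := ih V hidx (hZU.trans ht.le) ψ hψ
        refine ⟨ψ', hψ', fam_congr (fam_add D _ hG hF) fun g => ?_⟩
        rw [Ind_sub_A2 hVf, Ind_step (by norm_num) hVf ht (cls_lin hφ)]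
        ring
  exact key U.index U le_rfl hZU φ hφ

end

end SB
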