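import Pool.Agent.Helper21.CC.N2
import Pool.Agent.Helper21.CC.N3a

/-!
# KO-3: the chain of quadratic steps
-/

namespace SB

universe u

section
variable {Γ : Type u} [Group Γ]

/-- KO-3 (file CC/N3.lean): if `Z ⊇ S` is normal of index a power of two. -/
theorem quad_chain (D : Sys Γ) (hnt : NtU D) {Z U : Subgroup Γ} (hZ : Z ∈ D.N) (hS : D.S ⊆ Z) (hZU : Z ≤ U)
    (h2 : ∃ n, Z.index = 2 ^ n) {φ : Γ → ℂ} (hφ : Lin D U φ) :
    ∃ ψ, Lin D ⊤ ψ ∧ Fam D (QuadOver D.S) (fun g => Ind U φ g - ψ g) :=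
  quad_chain_of D (fun hM hMW hSW ht _ hφ' => quad_step D hnt hM hMW hSW ht hφ') hZ hS hZU h2 hφ

end

end SB
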