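import Pool.Agent.Helper21.CC.J

/-!
# CC-N4: weights and the centralizer of the complex conjugations
-/

namespace SB

universe u v

section
variable {Γ : Type u} [Group Γ] {V : Type v} [AddCommGroup V] [Module ℂ V]

theorem comm_on_closure (ρ : Γ →* (V →ₗ[ℂ] V)) {S : Set Γ} {g : Γ} (h : ∀ c ∈ S, ρ g * ρ c = ρ c * ρ g) :
    ∀ c ∈ Subgroup.closure S, ρ g * ρ c = ρ c * ρ g := by
  intro c hc
  induction hc using Subgroup.closure_induction with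
  | mem s hs => exact h s hs
  | one => rw [map_one, mul_one, one_mul]
  | mul a b _ _ ha hb => rw [map_mul, ← mul_assoc, ha, mul_assoc, hb, mul_assoc]
  | inv a _ ha =>
    have h1 : ρ a * ρ a⁻¹ = 1 := by rw [← map_mul, mul_inv_cancel, map_one]
    have h2 : ρ a⁻¹ * ρ a = 1 := by rw [← map_mul, inv_mul_cancel, map_one]
    calc ρ g * ρ a⁻¹ = (ρ a⁻¹ * ρ a) * ρ g * ρ a⁻¹ := by rw [h2, one_mul]
      _ = ρ a⁻¹ * (ρ a * ρ g) * ρ a⁻¹ := by simp only [mul_assoc]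
      _ = ρ a⁻¹ * (ρ g * ρ a) * ρ a⁻¹ := by rw [ha]
      _ = ρ a⁻¹ * ρ g * (ρ a * ρ a⁻¹) := by simp only [mul_assoc]
      _ = ρ a⁻¹ * ρ g := by rw [h1, mul_one]

/-- If `ρ g` commutes with `ρ c`, `c ∈ C`, then `g` fixes the weights. -/
theorem cjh_of_comm {C : Subgroup Γ} (hC : C.Normal) (ρ : Γ →* (V →ₗ[ℂ] V)) {g : Γ}
    (hg : ∀ c ∈ C, ρ g * ρ c = ρ c * ρ g) {ε : C →* ℂˣ} (h : Wt ρ C ε ≠ ⊥) : cjh hC g ε = ε := by
  obtain ⟨v, hv, hv0⟩ := Submodule.exists_mem_ne_zero_of_ne_bot h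
  have h0 : ρ g⁻¹ * ρ g = 1 := by rw [← map_mul, inv_mul_cancel, map_one]
  apply MonoidHom.ext
  intro c
  have hm : g⁻¹ * (c : Γ) * g ∈ C := by
    have := hC.conj_mem c c.2 g⁻¹
    rwa [inv_inv] at this
  rw [cjh_apply hC g ε c hm]
  have h1 := hv c
  have h2 := hv ⟨g⁻¹ * (c : Γ) * g, hm⟩
  have h3 : ρ (g⁻¹ * (c : Γ) * g) = ρ c := by
    rw [map_mul, map_mul, mul_assoc, ← hg c c.2, ← mul_assoc, h0, one_mul]
  change ρ (g⁻¹ * (c : Γ) * g) v = _ at h2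
  rw [h3, h1] at h2
  apply Units.ext
  exact (smul_left_injective ℂ hv0 h2).symm

/-- The decomposition into orbits of weights, the stabilizers containing the centralizer of the elements of `S`. -/
theorem weights_Z (D : Sys Γ) (hnt : NtU D) {M : Subgroup Γ} (hM : M ∈ D.N) [FiniteDimensional ℂ V]
    (ρ : Γ →* (V →ₗ[ℂ] V)) (h : ∀ g ∈ M, ρ g = 1)
    (s : ⨆ ε : Subgroup.closure D.S →* ℂˣ, Wt ρ (Subgroup.closure D.S) ε = ⊤) :
    ∃ (m : ℕ) (U : Fin m → Subgroup Γ) (ε : Fin m → (Subgroup.closure D.S →* ℂˣ)) (χ : ∀ j, U j →* ℂˣ),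
      (∀ j, D.S ⊆ U j ∧ M ≤ U j ∧ (∀ g, (∀ c ∈ D.S, ρ g * ρ c = ρ c * ρ g) → g ∈ U j) ∧
        OpC D (U j) (χ j) ∧ (∀ u, χ j u ^ 2 = 1) ∧
        (∀ c (hc : c ∈ Subgroup.closure D.S) (hU : c ∈ U j), χ j ⟨c, hU⟩ = ε j ⟨c, hc⟩) ∧
        Stb ρ (U j) (Wt ρ (Subgroup.closure D.S) (ε j))) ∧
      (∀ g, LinearMap.trace ℂ V (ρ g) =
        ∑ j, Ind (U j) (trx ρ (U j) (Wt ρ (Subgroup.closure D.S) (ε j))) g) := by
  set C := Subgroup.closure D.S with hCdef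
  have hC : C.Normal := closure_normal D
  let E : Set (C →* ℂˣ) := {ε | Wt ρ C ε ≠ ⊥}
  have hEfin : E.Finite := wt_finite ρ C
  have hfE : Finite E := hEfin
  have hE : ∀ g, ∀ ε ∈ E, cjh hC g ε ∈ E := fun g ε h => wt_cjh_ne hC ρ g h
  let σ := wtPerm hC E hE
  obtain ⟨m, r, hr⟩ := exists_transversal σ
  have hsup : ⨆ i : E, Wt ρ C (i : C →* ℂˣ) = ⊤ := by
    rw [eq_top_iff, ← s]
    refine iSup_le fun ε => ?_
    by_cases h : Wt ρ C ε = ⊥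
    · rw [h]; exact bot_le
    · exact le_iSup (fun i : E => Wt ρ C (i : C →* ℂˣ)) ⟨ε, h⟩
  have hmv : ∀ g (i : E), ∀ v ∈ Wt ρ C (i : C →* ℂˣ), ρ g v ∈ Wt ρ C ((σ g i : E) : C →* ℂˣ) :=
    fun g i v hv => wt_move ρ hC g i v hv
  have hst : ∀ (i : E) (g : Γ), g ∈ Stz σ i ↔ cjh hC g i = i := by
    intro i g
    rw [mem_Stz]
    exact ⟨fun h => congrArg Subtype.val h, fun h => Subtype.ext h⟩
  have hSU : ∀ i : E, D.S ⊆ Stz σ i := by
    intro i s hs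
    rw [SetLike.mem_coe, hst]
    exact cjh_self hC (Subgroup.subset_closure hs) _
  have hMU : ∀ i : E, M ≤ Stz σ i := by
    intro i g hg
    rw [hst]
    exact cjh_of_triv hC ρ (h g hg) i.2
  have hZU : ∀ (i : E) (g : Γ), (∀ c ∈ D.S, ρ g * ρ c = ρ c * ρ g) → g ∈ Stz σ i := by
    intro i g hg
    rw [hst]
    exact cjh_of_comm hC ρ (comm_on_closure ρ hg) i.2
  have hχ : ∀ i : E, ∃ χ : Stz σ i →* ℂˣ, OpC D (Stz σ i) χ ∧ (∀ u, χ u ^ 2 = 1) ∧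
      ∀ c (hc : c ∈ C) (hU : c ∈ Stz σ i), χ ⟨c, hU⟩ = (i : C →* ℂˣ) ⟨c, hc⟩ := by
    intro i
    refine ext_sign D hnt hM (hMU i) (hSU i) (i : C →* ℂˣ) fun u hu s hs => ?_
    have h := (hst i u).1 hu
    have h2 : u⁻¹ * (u * s * u⁻¹) * u = s := by group
    conv_lhs => rw [← h]
    rw [cjh_apply hC u _ _ (by rw [h2]; exact Subgroup.subset_closure hs)]
    congr 1
    exact Subtype.ext h2
  choose χ hχ1 hχ2 hχ3 using hχ
  refine ⟨m, fun j => Stz σ (r j), fun j => (r j : C →* ℂˣ), fun j => χ (r j), fun j => ⟨hSU _, hMU _, hZU _, hχ1 _,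
    hχ2 _, hχ3 _, ?_⟩, ?_⟩
  · intro u hu v hv
    have := hmv u (r j) v hv
    rwa [mem_Stz.1 hu] at this
  · intro g
    rw [block_trace ρ σ (fun i : E => Wt ρ C (i : C →* ℂˣ)) ((wt_indep ρ C).comp Subtype.val_injective) hsup
      hmv g]
    exact orbit_ind σ (fun i => trx ρ (Stz σ i) (Wt ρ C (i : C →* ℂˣ)))
      (fun h g i => trx_conj ρ σ (fun i : E => Wt ρ C (i : C →* ℂˣ)) hmv h g i) r hr g

/-- A representation which is diagonalizable on the group generated by `S`, up to differences. -/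
theorem comm_dims (D : Sys Γ) (hup : ∀ M ∈ D.N, ∀ M' : Subgroup Γ, M'.Normal → M ≤ M' → M' ∈ D.N)
    (hnt : NtU D) {M Z : Subgroup Γ} (hM : M ∈ D.N) [FiniteDimensional ℂ V]
    (ρ : Γ →* (V →ₗ[ℂ] V)) (h : ∀ g ∈ M, ρ g = 1)
    (s : ⨆ ε : Subgroup.closure D.S →* ℂˣ, Wt ρ (Subgroup.closure D.S) ε = ⊤)
    (hZ : ∀ g ∈ Z, ∀ c ∈ D.S, ρ g * ρ c = ρ c * ρ g) :
    ∃ (m : ℕ) (n : Fin m → ℤ) (U : Fin m → Subgroup Γ) (χ : ∀ j, U j →* ℂˣ),
      (∀ j, Z ≤ U j ∧ OpC D (U j) (χ j)) ∧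
      Fam D (fun U => D.S ⊆ U)
        (fun g => LinearMap.trace ℂ V (ρ g) - ∑ j, (n j : ℂ) * Ind (U j) (ext (U j) (χ j)) g) := by
  obtain ⟨m, U, ε, χ, hj, e⟩ := weights_Z D hnt hM ρ h s
  have key : ∀ j, Fam D (fun U => D.S ⊆ U) (fun g =>
      Ind (U j) (trx ρ (U j) (Wt ρ (Subgroup.closure D.S) (ε j))) g -
        (Module.finrank ℂ (Wt ρ (Subgroup.closure D.S) (ε j)) : ℂ) * Ind (U j) (ext (U j) (χ j)) g) := by
    intro j
    obtain ⟨hSU, hMU, -, hop, hχ2, hχε, st⟩ := hj j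
    obtain ⟨M', hM', hM'U, hχM⟩ := id hop
    rw [trx_eq_exz ρ (U j) _ st (χ j) hχ2]
    have hf := tw_fam D hup (D.inf M hM M' hM') hSU (inf_le_left.trans hMU) (χ j) (fun g h hg => hχM g h hg.2)
      (twRep ρ (U j) _ st (χ j)) (1 : U j →* (Wt ρ (Subgroup.closure D.S) (ε j) →ₗ[ℂ] _))
      (twRep_triv D ρ h (ε j) (χ j) hχM hχ2 hχε st) (fun _ _ _ => rfl) rfl
    refine fam_congr hf fun g => ?_
    have h1 : (fun u => ((χ j u : ℂˣ) : ℂ) * LinearMap.trace ℂ (Wt ρ (Subgroup.closure D.S) (ε j))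
        ((1 : U j →* (Wt ρ (Subgroup.closure D.S) (ε j) →ₗ[ℂ] _)) u)) =
        fun u => ((χ j u : ℂˣ) : ℂ) * (Module.finrank ℂ (Wt ρ (Subgroup.closure D.S) (ε j)) : ℂ) := by
      funext u
      rw [MonoidHom.one_apply, LinearMap.trace_one]
    rw [h1, exz_smul_ext, Ind_smul]
    push_cast
    ring
  refine ⟨m, fun j => (Module.finrank ℂ (Wt ρ (Subgroup.closure D.S) (ε j)) : ℤ), U, χ, fun j =>
    ⟨fun g hg => (hj j).2.2.1 g (hZ g hg), (hj j).2.2.2.1⟩, ?_⟩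
  refine fam_congr (fam_sum D _ (fun _ => 1) _ key) fun g => ?_
  rw [e g, ← Finset.sum_sub_distrib]
  exact Finset.sum_congr rfl fun j _ => by push_cast; ring

/-- Multiplication by a permutation character `Ind 1`, `P ⊇ S`. -/
theorem mon_perm (D : Sys Γ) (hup : ∀ M ∈ D.N, ∀ M' : Subgroup Γ, M'.Normal → M ≤ M' → M' ∈ D.N)
    {M₀ P : Subgroup Γ} (hM₀ : M₀ ∈ D.N) (hMP : M₀ ≤ P) (hSP : D.S ⊆ P) {v : Γ → ℂ}
    (hv : Mon D (fun U => D.S ⊆ U) v) :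
    Fam D (fun U => D.S ⊆ U) (fun g => Ind P (ext P 1) g * v g - (P.index : ℂ) * v g) := by
  have hM₀n : M₀.Normal := D.normal M₀ hM₀
  have hLn : P.normalCore.Normal := P.normalCore_normal
  have hML : M₀ ≤ P.normalCore := Subgroup.normal_le_normalCore.2 hMP
  have hLN : P.normalCore ∈ D.N := hup M₀ hM₀ _ hLn hML
  have hPf : P.FiniteIndex := fin_of_le D hM₀ hMP
  have hSL : D.S ⊆ P.normalCore := fun s hs g => hSP (D.conj s hs g)
  obtain ⟨d, ρ, h1, h2⟩ := exists_lrep P.normalCore P hLn P.normalCore_le hPf 1 (fun _ _ _ => rfl)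
  have hd : (d : ℂ) = (P.index : ℂ) := by
    rw [← ind_ext_one_one_B1 hPf, ← h2 1, map_one, LinearMap.trace_one]
    simp
  obtain ⟨m, n, U, χ, hSU, hop, hsum⟩ := hv
  have key : ∀ i, Fam D (fun U => D.S ⊆ U) (fun g =>
      Ind P (ext P 1) g * Ind (U i) (ext (U i) (χ i)) g - (P.index : ℂ) * Ind (U i) (ext (U i) (χ i)) g) := by
    intro i
    obtain ⟨M', hM', hM'U, hχM⟩ := hop i
    have hf := tw_fam D hup (D.inf _ hLN M' hM') (hSU i) (inf_le_right.trans hM'U) (χ i)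
      (fun g h hg => hχM g h hg.2) (ρ.comp (U i).subtype) (1 : U i →* ((Fin d → ℂ) →ₗ[ℂ] (Fin d → ℂ)))
      (fun g h hg => h1 g (hg.elim (fun hs => hSL hs) fun hg => hg.1)) (fun _ _ _ => rfl) rfl
    refine fam_congr hf fun g => ?_
    have e1 : Ind (U i) (exz (U i) fun u => ((χ i u : ℂˣ) : ℂ) *
        LinearMap.trace ℂ (Fin d → ℂ) ((ρ.comp (U i).subtype) u)) g =
        Ind P (ext P 1) g * Ind (U i) (ext (U i) (χ i)) g := by
      unfold Ind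
      rw [← smul_eq_mul, smul_finsum]
      refine finsum_congr fun q => ?_
      rw [smul_eq_mul]
      by_cases hq : q.out⁻¹ * g * q.out ∈ U i
      · rw [exz_mem _ hq, ext_mem _ hq, mul_comm]
        congr 1
        change LinearMap.trace ℂ _ (ρ (q.out⁻¹ * g * q.out)) = _
        rw [h2]
        exact Ind_conj (cls_ext P 1) g q.out
      · rw [exz_not_mem _ hq, ext_not_mem _ hq, mul_zero]
    have e2 : (fun u => ((χ i u : ℂˣ) : ℂ) * LinearMap.trace ℂ (Fin d → ℂ)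
        ((1 : U i →* ((Fin d → ℂ) →ₗ[ℂ] (Fin d → ℂ))) u)) = fun u => ((χ i u : ℂˣ) : ℂ) * (d : ℂ) := by
      funext u
      rw [MonoidHom.one_apply, LinearMap.trace_one, Module.finrank_fin_fun]
    rw [e1, e2, exz_smul_ext, Ind_smul, ← hd]
    push_cast
    ring
  refine fam_congr (fam_sum D _ n _ key) fun g => ?_
  rw [hsum g, Finset.mul_sum, Finset.mul_sum, ← Finset.sum_sub_distrib]
  exact Finset.sum_congr rfl fun i _ => by ring

end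

end SB
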