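import Pool.Agent.Helper21.CC.N1
import Pool.Agent.Helper21.CC.F
import Pool.Agent.Helper21.CC.J

/-!
# KO-5: the system of a subgroup, transfer
-/

namespace SB

universe u v

section
variable {Γ : Type u} [Group Γ]

/-- prescribed signatures on the subgroups of `P` -/
theorem nt_sub_N5 (D : Sys Γ) (hnt : NtU D) (P : Subgroup Γ) (M : Subgroup P)
    (hM : ∃ M' ∈ D.N, M' ≤ P ∧ M'.subgroupOf P ≤ M) (U : Subgroup P) (hMU : M ≤ U) (κ : Set P)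
    (h1 : ∀ s ∈ κ, (s : Γ) ∈ D.S) (h2 : ∀ s ∈ κ, s ∈ U) (h3 : ∀ s ∈ κ, ∀ u ∈ U, u * s * u⁻¹ ∈ κ) :
    ∃ M'' : Subgroup P, (M''.Normal ∧ ∃ M' ∈ D.N, M' ≤ P ∧ M'.subgroupOf P ≤ M'') ∧ M'' ≤ M ∧
      ∃ x : U →* ℤˣ, (∀ g (h : g ∈ U), g ∈ M'' → x ⟨g, h⟩ = 1) ∧
        ∀ s (h : s ∈ U), (s : Γ) ∈ D.S → (x ⟨s, h⟩ = -1 ↔ s ∈ κ) := by
  obtain ⟨M', hM'N, hM'P, hM'M⟩ := hM
  have hM'U : M' ≤ U.map P.subtype := by
    intro g hg
    have h4 : (⟨g, hM'P hg⟩ : P) ∈ M'.subgroupOf P := hg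
    exact ⟨⟨g, hM'P hg⟩, hMU (hM'M h4), rfl⟩
  have hmem : ∀ u : P, u ∈ U → (u : Γ) ∈ U.map P.subtype := fun u hu => ⟨u, hu, rfl⟩
  obtain ⟨M1, hM1N, hM1, x', hx1, hx2⟩ := hnt M' hM'N (U.map P.subtype) hM'U (Subtype.val '' κ)
    (by
      rintro _ ⟨s, hs, rfl⟩
      exact h1 s hs)
    (by
      rintro _ ⟨s, hs, rfl⟩
      exact hmem s (h2 s hs))
    (by
      rintro _ ⟨s, hs, rfl⟩ _ ⟨u, hu, rfl⟩
      exact ⟨u * s * u⁻¹, h3 s hs u hu, rfl⟩)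
  have hM1n : M1.Normal := D.normal M1 hM1N
  let x : U →* ℤˣ :=
    { toFun := fun w => x' ⟨((w : P) : Γ), hmem w w.2⟩
      map_one' := map_one x'
      map_mul' := fun a b => by
        rw [← map_mul]
        rfl }
  have hx : ∀ g (h : g ∈ U), x ⟨g, h⟩ = x' ⟨(g : Γ), hmem g h⟩ := fun g h => rfl
  refine ⟨M1.subgroupOf P, ⟨Subgroup.normal_subgroupOf, M1, hM1N, le_trans hM1 hM'P, le_rfl⟩,
    le_trans (Subgroup.subgroupOf_mono P hM1) hM'M, x, ?_, ?_⟩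
  · intro g h hg
    rw [hx]
    exact hx1 _ _ hg
  · intro s h hs
    rw [hx, hx2 _ _ hs]
    constructor
    · rintro ⟨s', hs', h4⟩
      have h5 : s' = s := Subtype.ext h4
      rwa [← h5]
    · intro h4
      exact ⟨s, h4, rfl⟩

/-- KO-5a: the system of a subgroup. -/
def Sys.sub (D : Sys Γ) (hnt : NtU D) (P : Subgroup Γ) : Sys P where
  S := {s | (s : Γ) ∈ D.S}
  N := {M | M.Normal ∧ ∃ M' ∈ D.N, M' ≤ P ∧ M'.subgroupOf P ≤ M}
  normal := fun _ hM => hM.1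
  fin := by
    rintro M ⟨-, M', hM'N, -, hM'⟩
    have h1 : M'.FiniteIndex := D.fin M' hM'N
    exact Subgroup.finiteIndex_of_le hM'
  inf := by
    rintro M ⟨hM, M1, h1, h2, h3⟩ M' ⟨hM', M2, h4, h5, h6⟩
    refine ⟨@Subgroup.normal_inf_normal _ _ M M' hM hM', M1 ⊓ M2, D.inf M1 h1 M2 h4,
      le_trans inf_le_left h2, le_inf ?_ ?_⟩
    · exact le_trans (Subgroup.subgroupOf_mono P inf_le_left) h3
    · exact le_trans (Subgroup.subgroupOf_mono P inf_le_right) h6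
  conj := fun s hs g => D.conj (s : Γ) hs (g : Γ)
  sq := fun s hs => Subtype.ext (D.sq (s : Γ) hs)
  nt := fun M hM U hMU κ h1 h2 h3 _ => nt_sub_N5 D hnt P M hM.2 U hMU κ h1 h2 h3

theorem sub_ntU (D : Sys Γ) (hnt : NtU D) (P : Subgroup Γ) : NtU (D.sub hnt P) :=
  fun M hM U hMU κ h1 h2 h3 => nt_sub_N5 D hnt P M hM.2 U hMU κ h1 h2 h3

theorem sub_up (D : Sys Γ) (hnt : NtU D) (P : Subgroup Γ) : ∀ M ∈ (D.sub hnt P).N, ∀ M' : Subgroup P,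
    M'.Normal → M ≤ M' → M' ∈ (D.sub hnt P).N := by
  rintro M ⟨-, M1, h1, h2, h3⟩ M' hM' hle
  exact ⟨hM', M1, h1, h2, le_trans h3 hle⟩

/-- transfer of one subgroup -/
theorem quadOver_of_sub_N5 (D : Sys Γ) (hnt : NtU D) {P : Subgroup Γ} (hS : D.S ⊆ P) {U : Subgroup P}
    (h : QuadOver (D.sub hnt P).S U) : QuadOver D.S (U.map P.subtype) := by
  obtain ⟨W, h1, h2, h3⟩ := h
  refine ⟨W.map P.subtype, ?_, Subgroup.map_mono h2, ?_⟩
  · intro s hs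
    exact ⟨⟨s, hS hs⟩, h1 (show (⟨s, hS hs⟩ : P) ∈ (D.sub hnt P).S from hs), rfl⟩
  · rcases h3 with h3 | h3
    · left
      rw [h3]
    · right
      rw [Subgroup.relIndex_map_map_of_injective _ _ P.subtype_injective, h3]

/-- KO-5b: transfer of the family. -/
theorem fam_of_sub (D : Sys Γ) (hnt : NtU D) {P : Subgroup Γ} (hP : P.FiniteIndex) (hS : D.S ⊆ P) {v : P → ℂ}
    (h : Fam (D.sub hnt P) (QuadOver (D.sub hnt P).S) v) : Fam D (QuadOver D.S) (Ind P (exz P v)) := by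
  obtain ⟨m, n, U, χ, χ', hQ, hO, hO', hs, hv⟩ := h
  have hf : ∀ i, (U i).FiniteIndex := by
    intro i
    obtain ⟨M, hM, hMU, -⟩ := hO i
    have h1 : M.FiniteIndex := (D.sub hnt P).fin M hM
    exact Subgroup.finiteIndex_of_le hMU
  have hmemP : ∀ (i : Fin m) (x : Γ), x ∈ (U i).map P.subtype → x ∈ P := fun i x hx =>
    Subgroup.map_subtype_le (U i) hx
  have hmemU : ∀ (i : Fin m) (x : Γ) (hx : x ∈ (U i).map P.subtype), (⟨x, hmemP i x hx⟩ : P) ∈ U i := by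
    rintro i x ⟨w, hw, rfl⟩
    exact hw
  choose θ hθ1 hθ2 using fun i => ind_exz_ind hP (1 : P →* ℂˣ) (U i) (hf i) (χ i)
  choose θ' hθ1' hθ2' using fun i => ind_exz_ind hP (1 : P →* ℂˣ) (U i) (hf i) (χ' i)
  have hop : ∀ (i : Fin m) (η : U i →* ℂˣ) (ϑ : (U i).map P.subtype →* ℂˣ), OpC (D.sub hnt P) (U i) η →
      (∀ (x : Γ) (hx : x ∈ (U i).map P.subtype) (hU' : x ∈ P) (hW' : (⟨x, hU'⟩ : P) ∈ U i),
        ϑ ⟨x, hx⟩ = (1 : P →* ℂˣ) ⟨x, hU'⟩ * η ⟨⟨x, hU'⟩, hW'⟩) →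
      OpC D ((U i).map P.subtype) ϑ := by
    rintro i η ϑ ⟨M, ⟨-, M', hM'N, hM'P, hM'M⟩, hMU, hη⟩ hϑ
    refine ⟨M', hM'N, ?_, ?_⟩
    · intro g hg
      have h4 : (⟨g, hM'P hg⟩ : P) ∈ M'.subgroupOf P := hg
      exact ⟨⟨g, hM'P hg⟩, hMU (hM'M h4), rfl⟩
    · intro g hgU hg
      have h4 : (⟨g, hM'P hg⟩ : P) ∈ M'.subgroupOf P := hg
      rw [hϑ g hgU (hM'P hg) (hMU (hM'M h4)), hη _ _ (hM'M h4), MonoidHom.one_apply, one_mul]
  refine ⟨m, n, fun i => (U i).map P.subtype, θ, θ', fun i => quadOver_of_sub_N5 D hnt hS (hQ i),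
    fun i => hop i (χ i) (θ i) (hO i) (hθ1 i), fun i => hop i (χ' i) (θ' i) (hO' i) (hθ1' i), ?_, ?_⟩
  · intro i s hsU hsS
    rw [hθ1 i s hsU (hmemP i s hsU) (hmemU i s hsU), hθ1' i s hsU (hmemP i s hsU) (hmemU i s hsU),
      hs i ⟨s, hmemP i s hsU⟩ (hmemU i s hsU) hsS]
  · intro g
    have key := Ind_lin hP n (φ₁ := exz P v) (φ₂ := (0 : Γ → ℂ))
      (A := fun i => exz P (fun w => (((1 : P →* ℂˣ) w : ℂˣ) : ℂ) * Ind (U i) (ext (U i) (χ i)) w))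
      (B := fun i => exz P (fun w => (((1 : P →* ℂˣ) w : ℂˣ) : ℂ) * Ind (U i) (ext (U i) (χ' i)) w))
      (by
        intro x
        rw [Pi.zero_apply, sub_zero]
        unfold exz
        by_cases hx : x ∈ P
        · simp only [dif_pos hx, MonoidHom.one_apply, Units.val_one, one_mul]
          exact hv ⟨x, hx⟩
        · simp only [dif_neg hx, sub_zero, mul_zero, Finset.sum_const_zero]) g
    rw [Ind_zero_A2, sub_zero] at key
    rw [key]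
    exact Finset.sum_congr rfl fun i _ => by rw [hθ2 i g, hθ2' i g]

/-- KO-5c. -/
theorem lin_of_sub (D : Sys Γ) (hnt : NtU D) {P : Subgroup Γ} {ψ : P → ℂ} (h : Lin (D.sub hnt P) ⊤ ψ) :
    Lin D P (exz P ψ) := by
  obtain ⟨m, n, χ, hO, rfl⟩ := h
  refine ⟨m, n, fun i => (χ i).comp Subgroup.topEquiv.symm.toMonoidHom, ?_, ?_⟩
  · intro i
    obtain ⟨M, ⟨-, M', hM'N, hM'P, hM'M⟩, -, hη⟩ := hO i
    refine ⟨M', hM'N, hM'P, ?_⟩
    intro g hgP hg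
    have h4 : (⟨g, hgP⟩ : P) ∈ M'.subgroupOf P := hg
    exact hη ⟨g, hgP⟩ (Subgroup.mem_top _) (hM'M h4)
  · funext g
    rw [Finset.sum_apply]
    by_cases hg : g ∈ P
    · rw [exz_mem _ hg, Finset.sum_apply]
      refine Finset.sum_congr rfl fun i _ => ?_
      rw [Pi.smul_apply, Pi.smul_apply, ext_mem _ (Subgroup.mem_top _), ext_mem _ hg]
      rfl
    · have h1 : exz P (∑ i, n i • ext ⊤ (χ i)) g = 0 := by
        unfold exz
        rw [dif_neg hg]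
      rw [h1]
      refine (Finset.sum_eq_zero fun i _ => ?_).symm
      rw [Pi.smul_apply, ext_not_mem _ hg, smul_zero]

end

end SB
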