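import Pool.Agent.Helper21.CC.N1b
import Pool.Agent.Helper21.CC.N4
import Pool.Agent.Helper21.CC.N3
import Pool.Agent.Helper21.CC.N5

/-!
# CC-N6: an odd multiple of the character of a representation with commuting conjugations
-/

namespace SB

universe u v

section
variable {Γ : Type u} [Group Γ] {V : Type v} [AddCommGroup V] [Module ℂ V]

/-- Projection formula. -/
theorem ind_exz_cls {P : Subgroup Γ} {v : Γ → ℂ} (hv : ∀ g x, v (x⁻¹ * g * x) = v g) (g : Γ) :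
    Ind P (exz P fun p => v p) g = Ind P (ext P 1) g * v g := by
  unfold Ind
  rw [mul_comm, ← smul_eq_mul, smul_finsum]
  refine finsum_congr fun q => ?_
  rw [smul_eq_mul]
  by_cases hq : q.out⁻¹ * g * q.out ∈ P
  · rw [exz_mem _ hq, ext_one_apply P hq, mul_one, hv]
  · rw [exz_not_mem _ hq, ext_not_mem _ hq, mul_zero]

theorem exz_sub (P : Subgroup Γ) (a b : P → ℂ) : exz P (fun p => a p - b p) = exz P a - exz P b := by
  funext g
  by_cases hg : g ∈ P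
  · rw [Pi.sub_apply, exz_mem _ hg, exz_mem _ hg, exz_mem _ hg]
  · rw [Pi.sub_apply, exz_not_mem _ hg, exz_not_mem _ hg, exz_not_mem _ hg, sub_zero]

theorem trace_cls (ρ : Γ →* (V →ₗ[ℂ] V)) (g x : Γ) :
    LinearMap.trace ℂ V (ρ (x⁻¹ * g * x)) = LinearMap.trace ℂ V (ρ g) := by
  rw [map_mul ρ, map_mul ρ, LinearMap.trace_mul_comm, ← mul_assoc, ← map_mul ρ, mul_inv_cancel, map_one, one_mul]

/-- The weights of the group generated by `S`, if the elements of `S` commute in the representation. -/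
theorem wt_top_gen (D : Sys Γ) {M : Subgroup Γ} (hM : M ∈ D.N) [FiniteDimensional ℂ V] (ρ : Γ →* (V →ₗ[ℂ] V))
    (h : ∀ g ∈ M, ρ g = 1) (hc : ∀ c ∈ D.S, ∀ c' ∈ D.S, ρ c * ρ c' = ρ c' * ρ c) :
    ⨆ ε : Subgroup.closure D.S →* ℂˣ, Wt ρ (Subgroup.closure D.S) ε = ⊤ := by
  refine wt_sup ρ _ (fun a ha b hb => ?_) fun g => ?_
  · refine comm_on_closure ρ (fun c hcS => ?_) b hb
    exact (comm_on_closure ρ (fun c' hc' => hc c hcS c' hc') a ha).symm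
  · obtain ⟨n, hn, hg⟩ := pow_mem_fin (D.normal M hM) (D.fin M hM) g
    exact ⟨n, hn, by rw [← map_pow]; exact h _ hg⟩

/-- The case of a group which is a `2`-group modulo the centralizer of the elements of `S`. -/
theorem two_lin (D : Sys Γ) (hup : ∀ M ∈ D.N, ∀ M' : Subgroup Γ, M'.Normal → M ≤ M' → M' ∈ D.N)
    (hnt : NtU D) {M Z : Subgroup Γ} (hM : M ∈ D.N) (hZN : Z ∈ D.N) (hSZ : D.S ⊆ Z) [FiniteDimensional ℂ V]
    (ρ : Γ →* (V →ₗ[ℂ] V)) (h : ∀ g ∈ M, ρ g = 1) (hZ : ∀ g ∈ Z, ∀ c ∈ D.S, ρ g * ρ c = ρ c * ρ g)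
    (h2 : ∃ n, Z.index = 2 ^ n) :
    ∃ ψ, Lin D ⊤ ψ ∧ Fam D (QuadOver D.S) (fun g => LinearMap.trace ℂ V (ρ g) - ψ g) := by
  obtain ⟨m, n, U, χ, hj, hf⟩ := comm_dims D hup hnt hM ρ h
    (wt_top_gen D hM ρ h fun c hc c' hc' => hZ c (hSZ hc) c' hc') hZ
  choose ψ hψ hfψ using fun j => quad_chain D hnt hZN hSZ (hj j).1 h2 (lin_ext (hj j).2)
  refine ⟨∑ j, n j • ψ j, lin_sum_G1 _ _ fun j _ => lin_zsmul_G1 _ (hψ j), ?_⟩
  refine fam_congr (fam_add D _ (fam_mono (fun _ h => quadOver_self h) hf) (fam_sum D _ n _ hfψ)) fun g => ?_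
  rw [Finset.sum_apply]
  have e : ∀ j, (n j • ψ j) g = (n j : ℂ) * ψ j g := fun j => by rw [Pi.smul_apply, zsmul_eq_mul]
  simp only [e]
  have e2 : ∑ j, (n j : ℂ) * (Ind (U j) (ext (U j) (χ j)) g - ψ j g) =
      ∑ j, (n j : ℂ) * Ind (U j) (ext (U j) (χ j)) g - ∑ j, (n j : ℂ) * ψ j g := by
    rw [← Finset.sum_sub_distrib]
    exact Finset.sum_congr rfl fun j _ => by ring
  rw [e2]
  ring

/-- The main theorem. -/
theorem odd_mult (D : Sys Γ) (hup : ∀ M ∈ D.N, ∀ M' : Subgroup Γ, M'.Normal → M ≤ M' → M' ∈ D.N)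
    (hnt : NtU D) (θ : Γ →* ℂˣ) {Mθ : Subgroup Γ} (hMθ : Mθ ∈ D.N) (hθ : ∀ g ∈ Mθ, θ g = 1)
    (hθS : ∀ s ∈ D.S, θ s = -1) (hone : ∀ s ∈ D.S, ∀ s' ∈ D.S, ∃ g, s' = g * s * g⁻¹)
    {M Z P : Subgroup Γ} (hM : M ∈ D.N) (hZN : Z ∈ D.N) (hSZ : D.S ⊆ Z) [FiniteDimensional ℂ V]
    (ρ : Γ →* (V →ₗ[ℂ] V)) (h : ∀ g ∈ M, ρ g = 1) (hZ : ∀ g ∈ Z, ∀ c ∈ D.S, ρ g * ρ c = ρ c * ρ g)
    (hZP : Z ≤ P) (h2 : ∃ n, Z.relIndex P = 2 ^ n) :
    ∃ a b : ℤ, Fam D (QuadOver D.S)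
      (fun g => (P.index : ℂ) * LinearMap.trace ℂ V (ρ g) - a - b * (θ g : ℂ)) := by
  have hSP : D.S ⊆ P := fun s hs => hZP (hSZ hs)
  have hPf : P.FiniteIndex := fin_of_le D hZN hZP
  have hMn := D.normal M hM
  have hZn := D.normal Z hZN
  -- the restriction to `P`
  obtain ⟨ψ, hψ, hf⟩ := two_lin (D.sub hnt P) (sub_up D hnt P) (sub_ntU D hnt P) (M := (M ⊓ Z).subgroupOf P)
    (Z := Z.subgroupOf P)
    ⟨(D.normal _ (D.inf M hM Z hZN)).subgroupOf P, M ⊓ Z, D.inf M hM Z hZN, inf_le_right.trans hZP, le_rfl⟩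
    ⟨hZn.subgroupOf P, Z, hZN, hZP, le_rfl⟩ (fun s hs => Subgroup.mem_subgroupOf.2 (hSZ hs))
    (ρ.comp P.subtype) (fun g hg => h _ (Subgroup.mem_subgroupOf.1 hg).1)
    (fun g hg c hc => hZ _ (Subgroup.mem_subgroupOf.1 hg) _ hc) h2
  have hf2 := fam_of_sub D hnt hPf hSP hf
  have hlin := lin_of_sub D hnt hψ
  -- `ψ` is constant on `S`
  have hval : ∀ s ∈ D.S, exz P ψ s = LinearMap.trace ℂ V (ρ s) := by
    intro s hs
    rw [exz_mem _ (hSP hs)]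
    have h3 := (fam_vanish hf).2 ⟨s, hSP hs⟩ hs
    rw [sub_eq_zero] at h3
    exact h3.symm
  obtain ⟨a, b, hab⟩ := base_q2 D hup hnt θ hMθ hθ hθS hZN hZP hSP hlin fun s hs s' hs' => by
    rw [hval s hs, hval s' hs']
    obtain ⟨g, rfl⟩ := hone s' hs' s hs
    have := trace_cls ρ s' g⁻¹
    rwa [inv_inv] at this
  -- the multiple
  have hmon := comm_mon D hup hnt hM ρ h (wt_top_gen D hM ρ h fun c hc c' hc' => hZ c (hSZ hc) c' hc')
  have hp := fam_mono (fun _ h => quadOver_self h) (mon_perm D hup hZN hZP hSP hmon)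
  refine ⟨a, b, fam_congr (fam_add D _ (fam_add D _ hf2 hab) (fam_zmul D _ (-1) hp)) fun g => ?_⟩
  have e1 := ind_exz_cls (P := P) (v := fun g => LinearMap.trace ℂ V (ρ g)) (fun g x => trace_cls ρ g x) g
  have e2 : (fun p : P => LinearMap.trace ℂ V ((ρ.comp P.subtype) p) - ψ p) =
      fun p : P => LinearMap.trace ℂ V (ρ p) - ψ p := rfl
  rw [e2, exz_sub, Ind_sub_A2 hPf, e1]
  push_cast
  ring

end

end SB
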