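import Pool.Agent.Helper21.CC.N6

/-!
# CC-N7: the absolute Galois group
-/

namespace SB

universe u v

section
variable {Γ : Type u} [Group Γ]

/-- The elements of a group whose images under `ρ` commute with the images of the elements of `S`. -/
def CentOn (S : Set Γ) {d : ℕ} (ρ : Rp Γ d) : Subgroup Γ := (Subgroup.centralizer (ρ '' S)).comap ρ

/-- `v` is a finite sum `∑ nᵢ (Ind χᵢ - Ind χᵢ')` with integers `nᵢ`, and `χᵢ, χᵢ'` linear characters of subgroups `Uᵢ`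
with property `P`, as in `SigPair`. -/
def SigComb (S : Set Γ) (N : Subgroup Γ) (P : Subgroup Γ → Prop) (v : Γ → ℂ) : Prop :=
  ∃ (m : ℕ) (n : Fin m → ℤ) (U : Fin m → Subgroup Γ) (χ χ' : ∀ i, U i →* ℂˣ),
    (∀ i, P (U i) ∧ SigPair S N (U i) (χ i) (χ' i)) ∧
    ∀ g, v g = ∑ i, (n i : ℂ) * (IndChr (U i) (χ i) g - IndChr (U i) (χ' i) g)

theorem mem_centOn {S : Set Γ} {d : ℕ} {ρ : Rp Γ d} {g : Γ} :
    g ∈ CentOn S ρ ↔ ∀ c ∈ S, ρ g * ρ c = ρ c * ρ g := by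
  rw [CentOn, Subgroup.mem_comap, Subgroup.mem_centralizer_iff]
  constructor
  · intro h c hc
    exact (h _ ⟨c, hc, rfl⟩).symm
  · rintro h _ ⟨c, hc, rfl⟩
    exact (h c hc).symm

theorem exists_sylow_two {Z : Subgroup Γ} (hZ : Z.Normal) (hf : Z.FiniteIndex) :
    ∃ P : Subgroup Γ, Z ≤ P ∧ (∃ n, Z.relIndex P = 2 ^ n) ∧ Nat.Coprime P.index 2 := by
  have hfin : Finite (Γ ⧸ Z) := Z.finite_quotient_of_finiteIndex
  have h2 : Fact (Nat.Prime 2) := ⟨Nat.prime_two⟩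
  let Q : Sylow 2 (Γ ⧸ Z) := default
  let P : Subgroup Γ := (Q : Subgroup (Γ ⧸ Z)).comap (QuotientGroup.mk' Z)
  have hZP : Z ≤ P := by
    intro z hz
    rw [Subgroup.mem_comap]
    have : (QuotientGroup.mk' Z) z = 1 := (QuotientGroup.eq_one_iff z).2 hz
    rw [this]
    exact Subgroup.one_mem _
  have hidx : P.index = (Q : Subgroup (Γ ⧸ Z)).index :=
    Subgroup.index_comap_of_surjective _ (QuotientGroup.mk'_surjective Z)
  obtain ⟨n, hn⟩ := IsPGroup.iff_card.1 Q.isPGroup'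
  refine ⟨P, hZP, ⟨n, ?_⟩, ?_⟩
  · have h1 := Subgroup.relIndex_mul_index hZP
    have h3 := (Q : Subgroup (Γ ⧸ Z)).card_mul_index
    have h4 : Z.index = Nat.card (Γ ⧸ Z) := rfl
    have h5 : P.index ≠ 0 := (Subgroup.finiteIndex_of_le (H := Z) hZP).index_ne_zero
    rw [h4, ← h3, ← hidx, hn] at h1
    exact Nat.eq_of_mul_eq_mul_right (Nat.pos_of_ne_zero h5) h1
  · rw [hidx, Nat.coprime_comm, Nat.Prime.coprime_iff_not_dvd Nat.prime_two]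
    exact Q.not_dvd_index

end

theorem sigComb_of_fam {P : Subgroup GQ → Prop} {v : GQ → ℂ} (h : Fam sysAll P v) :
    ∃ K : IntermediateField ℚ Qb, FinGal ℚ K ∧ SigComb (Γ := GQ) CC K.fixingSubgroup P v := by
  obtain ⟨K, hfd, hn, hK⟩ := top_nAll
  obtain ⟨K', -, hfd', hn', -, m, n, U, χ, χ', h1, h2, h3, h4, h5⟩ :=
    famQ_of_fam sysAll rfl (fun M hM => hM) (K := K) (by rw [← hK]; exact top_nAll) h
  exact ⟨K', ⟨hfd', isGalois_iff.2 ⟨inferInstance, hn'⟩⟩, m, n, U, χ, χ',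
    fun i => ⟨h1 i, h2 i, fun g hg hN => (h3 i ⟨g, hg⟩ hN).1,
      fun g hg hN => (h3 i ⟨g, hg⟩ hN).2, fun c hc hS => h4 i ⟨c, hc⟩ hS⟩, h5⟩

theorem centOn_nAll {d : ℕ} (ρ : Rp GQ d) (hρ : Continuous ρ) : CentOn CC ρ ∈ NAll := by
  obtain ⟨M, hM, hM1⟩ := exists_M ρ hρ
  refine nAll_up hM ?_ fun g hg => ?_
  · refine ⟨fun z hz g => ?_⟩
    rw [mem_centOn] at hz ⊢
    intro c hc
    have h1 : g⁻¹ * c * g ∈ CC := by
      have := cc_conj hc g⁻¹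
      rwa [inv_inv] at this
    have h2 := hz _ h1
    have h3 : ρ (z * (g⁻¹ * c * g)) = ρ ((g⁻¹ * c * g) * z) := by rw [map_mul, h2, ← map_mul]
    have h4 : ρ (g * (z * (g⁻¹ * c * g)) * g⁻¹) = ρ (g * ((g⁻¹ * c * g) * z) * g⁻¹) := by
      rw [map_mul, map_mul, h3, ← map_mul, ← map_mul]
    have e1 : g * (z * (g⁻¹ * c * g)) * g⁻¹ = (g * z * g⁻¹) * c := by group
    have e2 : g * ((g⁻¹ * c * g) * z) * g⁻¹ = c * (g * z * g⁻¹) := by group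
    rw [e1, e2] at h4
    rw [← map_mul, h4, map_mul]
  · rw [mem_centOn]
    intro c _
    rw [hM1 g hg, one_mul, mul_one]

theorem centOn_fam {d : ℕ} (ρ : Rp GQ d) (hρ : Continuous ρ) (h : CommOn CC ρ) (θ : GQ →* ℂˣ) {Mθ : Subgroup GQ}
    (hMθ : Mθ ∈ NAll) (hθ : ∀ g ∈ Mθ, θ g = 1) (hθS : ∀ s ∈ CC, θ s = -1) {k : ℕ}
    (hk : ∃ e, (CentOn CC ρ).index ∣ 2 ^ e * k) :
    ∃ a b : ℤ, Fam sysAll (QuadOver CC) (fun g => (k : ℂ) * chr ρ g - a - b * (θ g : ℂ)) := by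
  obtain ⟨M, hM, hM1⟩ := exists_M ρ hρ
  have hZ := centOn_nAll ρ hρ
  obtain ⟨P, hZP, h2, hcop⟩ := exists_sylow_two (nAll_normal hZ) (nAll_fin hZ)
  have hlin : ∀ g, g ∈ CentOn CC ρ → ∀ c ∈ CC, lrep ρ g * lrep ρ c = lrep ρ c * lrep ρ g := by
    intro g hg c hc
    rw [← map_mul, ← map_mul]
    apply LinearMap.ext
    intro x
    change Matrix.toLin' (ρ (g * c) : Matrix (Fin d) (Fin d) ℂ) x = Matrix.toLin' (ρ (c * g) : Matrix _ _ ℂ) x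
    rw [map_mul, map_mul, mem_centOn.1 hg c hc]
  obtain ⟨a, b, hf⟩ := odd_mult sysAll up_all ntU_all θ hMθ hθ hθS (fun s hs s' hs' => cc_one hs hs') hM hZ
    (fun s hs => mem_centOn.2 fun c hc => h s hs c hc) (lrep ρ) (fun g hg => lrep_one ρ g (hM1 g hg)) hlin hZP h2
  obtain ⟨e, he⟩ := hk
  have hPk : P.index ∣ k := by
    have h3 : P.index ∣ 2 ^ e * k := (Dvd.intro_left _ (Subgroup.relIndex_mul_index hZP)).trans he
    exact (Nat.Coprime.pow_right e hcop).dvd_of_dvd_mul_left h3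
  obtain ⟨l, rfl⟩ := hPk
  refine ⟨l * a, l * b, fam_congr (fam_zmul sysAll _ (l : ℤ) hf) fun g => ?_⟩
  rw [trace_lrep]
  change ((P.index * l : ℕ) : ℂ) * trm ρ g - _ - _ = _
  push_cast
  ring

theorem cc_odd {d : ℕ} (ρ ρ' : Rp GQ d) (hρ : Continuous ρ) (hρ' : Continuous ρ') (h : CommOn CC ρ)
    (h' : CommOn CC ρ') (hc : ∀ c ∈ CC, chr ρ c = chr ρ' c) {k : ℕ}
    (hk : ∃ e, (CentOn CC ρ).index ∣ 2 ^ e * k) (hk' : ∃ e, (CentOn CC ρ').index ∣ 2 ^ e * k) :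
    ∃ K : IntermediateField ℚ Qb, FinGal ℚ K ∧
      SigComb (Γ := GQ) CC K.fixingSubgroup (QuadOver CC) (fun g => (k : ℂ) * (chr ρ g - chr ρ' g)) := by
  obtain ⟨θ, Mθ, hMθ, hθ, hθS⟩ := exists_theta
  obtain ⟨a, b, h1⟩ := centOn_fam ρ hρ h θ hMθ hθ hθS hk
  obtain ⟨a', b', h2⟩ := centOn_fam ρ' hρ' h' θ hMθ hθ hθS hk'
  refine sigComb_of_fam (remove_theta (v := fun g => chr ρ g - chr ρ' g) (a := a - a') (b := b - b') cc_nonempty θ hθS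
    (fam_congr (fam_add sysAll _ h1 (fam_zmul sysAll _ (-1) h2)) fun g => ?_) ?_ fun c hcc => sub_eq_zero.2 (hc c hcc))
  · push_cast
    ring
  · simp only [chr, map_one, sub_self]

end SB
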