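import Pool.Agent.Helper21.CC.K

/-!
# CC-N9: the equivalent conditions
-/

namespace SB

section
variable {Γ : Type*} [Group Γ]

theorem indTw_comm (D : Sys Γ) {N U : Subgroup Γ} {χ : U →* ℂˣ} {e : ℕ} {τ : Rp U e} (h : RealPair D.S N U χ τ)
    {s s' : Γ} (hs : s ∈ D.S) (hs' : s' ∈ D.S) : IndTw U χ τ (s * s' * s⁻¹ * s'⁻¹) = IndTw U χ τ 1 := by
  obtain ⟨hSU, -, -, -, hτ⟩ := h
  unfold IndTw Ind
  refine finsum_congr fun q => ?_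
  have hc : ∀ s ∈ D.S, q.out⁻¹ * s * q.out ∈ D.S := by
    intro s hs
    have := D.conj s hs q.out⁻¹
    rwa [inv_inv] at this
  have h3 := hSU (hc s hs)
  have h4 := hSU (hc s' hs')
  have h1 : q.out⁻¹ * (s * s' * s⁻¹ * s'⁻¹) * q.out = (q.out⁻¹ * s * q.out) * (q.out⁻¹ * s' * q.out) *
      (q.out⁻¹ * s * q.out)⁻¹ * (q.out⁻¹ * s' * q.out)⁻¹ := by
    group
  have h2 : q.out⁻¹ * 1 * q.out = (1 : Γ) := by group
  have h5 : (q.out⁻¹ * s * q.out) * (q.out⁻¹ * s' * q.out) *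
      (q.out⁻¹ * s * q.out)⁻¹ * (q.out⁻¹ * s' * q.out)⁻¹ ∈ U :=
    U.mul_mem (U.mul_mem (U.mul_mem h3 h4) (U.inv_mem h3)) (U.inv_mem h4)
  rw [h1, h2, exz_mem _ h5, exz_mem _ U.one_mem]
  have e1 : (⟨_, h5⟩ : U) = ⟨_, h3⟩ * ⟨_, h4⟩ * ⟨_, h3⟩⁻¹ * ⟨_, h4⟩⁻¹ := rfl
  have e2 : (⟨1, U.one_mem⟩ : U) = 1 := rfl
  have e3 : χ ⟨_, h5⟩ = χ 1 := by
    rw [e1, map_mul, map_mul, map_mul, map_inv, map_inv, map_one, mul_comm (χ _) (χ _), mul_inv_cancel_right,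
      mul_inv_cancel]
  have e4 : τ ⟨_, h5⟩ = τ 1 := by
    rw [e1, map_mul, map_mul, map_mul, map_inv, map_inv, hτ _ h3 (Or.inl (hc s hs)), hτ _ h4 (Or.inl (hc s' hs')),
      map_one]
    simp
  rw [e2, e3]
  unfold chr
  rw [e4]

end

/-- The equivalent conditions. -/
theorem cc_tfae {d : ℕ} (ρ : Rp GQ d) (hρ : Continuous ρ) :
    List.TFAE [CommOn CC ρ,
      ∃ K : IntermediateField ℚ Qb, FinGal ℚ K ∧ MonComb (Γ := GQ) K.fixingSubgroup (fun U => CC ⊆ U) (chr ρ),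
      ∃ K : IntermediateField ℚ Qb, FinGal ℚ K ∧
        UnitComb (Γ := GQ) K.fixingSubgroup (fun U => CC ⊆ U) (fun g => chr ρ g - d),
      ∃ K : IntermediateField ℚ Qb, FinGal ℚ K ∧ RealDecomp (Γ := GQ) CC K.fixingSubgroup ρ] := by
  tfae_have 1 ↔ 2 := cc_iff ρ hρ
  tfae_have 1 → 3 := cc_unit ρ hρ
  tfae_have 1 → 4 := cc_real ρ hρ
  tfae_have 3 → 1 := by
    rintro ⟨K, -, m, n, U, χ, h1, h2⟩ c hc c' hc'
    refine comm_of_commutator ρ (eq_one_of_chr ρ hρ ?_)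
    have h3 : chr ρ (c * c' * c⁻¹ * c'⁻¹) - (d : ℂ) = _ := h2 (c * c' * c⁻¹ * c'⁻¹)
    have h4 : chr ρ 1 - (d : ℂ) = _ := h2 1
    have h5 : chr ρ (c * c' * c⁻¹ * c'⁻¹) - (d : ℂ) = chr ρ 1 - (d : ℂ) := by
      rw [h3, h4]
      refine Finset.sum_congr rfl fun i _ => ?_
      have e1 := ind_comm sysAll (h1 i).1 (χ i) hc hc'
      have e2 := ind_comm sysAll (h1 i).1 1 hc hc'
      unfold IndChr
      rw [e1, e2]
    linear_combination h5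
  tfae_have 4 → 1 := by
    rintro ⟨K, -, m, U, χ, e, τ, h1, h2⟩ c hc c' hc'
    refine comm_of_commutator ρ (eq_one_of_chr ρ hρ ?_)
    rw [h2, h2]
    exact Finset.sum_congr rfl fun i _ => indTw_comm sysAll (h1 i) hc hc'
  tfae_finish

end SB
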